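import Pool.Agent.H936.Y.UniG
import Pool.Graph.R_seed8.Y118.HP.Fin

/-!
# Families of hyperelliptic curves: the central fibre
-/

set_option autoImplicit false
set_option linter.unusedSectionVars false
set_option linter.unusedVariables false

open Matrix Module Filter Topology

namespace Pool.Agent.H936.Y

open Pool.Agent.Y113 (SDp SDc)
open Pool.Agent.H885 (toMv pdv GBaseU line lineM exps mem_exps pw cent InfT DT vz part)
open Pool.Agent.Y118.HG (Ez SRm)
open Pool.Agent.Y118.HP (jm jm_apply jm_det RM PM CM CM_apply InGap SpS dl dl_ne dl_mul PM_real RM_leg map_aeval_real er per perM bm bm_eq)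
open Pool.Agent.Y118.HV (Hv)
open Pool.Agent.Y119.HY (cm cm_apply)
open Pool.Agent.Y37.GF (E SR)

variable {n N : ℕ} {a : Fin n → ℝ} {m : Fin (n + 1)} {f : Polynomial ℚ}

/-! ### The two normalisations -/

theorem CM_eq (hn : Even n) (ha : StrictMono a) (h0 : InGap a m 0) :
    CM a m 0 = Matrix.diagonal dl * (RM a m 0).map (algebraMap ℝ ℂ) := by
  ext l j
  rw [CM_apply hn ha h0, Matrix.diagonal_mul]
  rfl

theorem diag_jm : Matrix.diagonal (dl (n := n)) * jm ℂ n * Matrix.diagonal dl = (-4 * Complex.I) • jm ℂ n := by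
  ext r s
  rw [Matrix.mul_diagonal, Matrix.diagonal_mul, Matrix.smul_apply, smul_eq_mul, jm_apply]
  by_cases h : (r : ℕ) = s + 1 ∨ (s : ℕ) = r + 1
  · rw [if_pos h, ← dl_mul h]
    ring
  · rw [if_neg h, mul_zero, zero_mul, mul_zero]

theorem diag_unit : IsUnit (Matrix.diagonal (dl (n := n))).det := by
  rw [Matrix.det_diagonal, isUnit_iff_ne_zero]
  exact Finset.prod_ne_zero_iff.2 fun i _ => dl_ne i

theorem RMC_unit (hn : Even n) (ha : StrictMono a) (h0 : InGap a m 0)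
    (hf : f.map (algebraMap ℚ ℝ) = ∏ i, (Polynomial.X - Polynomial.C (a i))) :
    IsUnit ((RM a m 0).map (algebraMap ℝ ℂ)).det := by
  rw [← RingHom.mapMatrix_apply, ← RingHom.map_det]
  exact (RM_unit hn ha h0 hf).map _

theorem CM_unit (hn : Even n) (ha : StrictMono a) (h0 : InGap a m 0)
    (hf : f.map (algebraMap ℚ ℝ) = ∏ i, (Polynomial.X - Polynomial.C (a i))) : IsUnit (CM a m 0).det := by
  rw [CM_eq hn ha h0, Matrix.det_mul]
  exact diag_unit.mul (RMC_unit hn ha h0 hf)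

/-- the polarisation of the central fibre -/
theorem CM_pol (hn : Even n) (ha : StrictMono a) (h0 : InGap a m 0)
    (hf : f.map (algebraMap ℚ ℝ) = ∏ i, (Polynomial.X - Polynomial.C (a i))) :
    CM a m 0 * ((Pool.Agent.Y118.HP.Qp n f).map (Polynomial.eval 0)).map (algebraMap ℚ ℂ) * (CM a m 0)ᵀ =
      (2 * Real.pi * Complex.I : ℂ) • cm (bm ℚ n) := by
  have h1 : cm (bm ℚ n) = (-2 : ℂ) • jm ℂ n := bm_eq
  have h2 : ((Pool.Agent.Y118.HP.Qp n f).map (Polynomial.eval 0)).map (algebraMap ℚ ℂ) =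
      ((Pool.Agent.Y118.HP.Qp n f).map (Polynomial.aeval (0 : ℝ))).map (algebraMap ℝ ℂ) := by
    ext i j
    simp only [Matrix.map_apply]
    have h3 := Polynomial.aeval_algebraMap_apply ℝ (0 : ℚ) (Pool.Agent.Y118.HP.Qp n f i j)
    rw [map_zero, Polynomial.coe_aeval_eq_eval] at h3
    rw [h3]
    exact IsScalarTower.algebraMap_apply ℚ ℝ ℂ _
  have h3 := congrArg (fun M : Matrix (Fin n) (Fin n) ℝ => M.map (algebraMap ℝ ℂ)) (RM_leg hn ha hf h0)
  simp only [Matrix.map_mul] at h3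
  have h4 : (Real.pi • jm ℝ n).map (algebraMap ℝ ℂ) = (Real.pi : ℂ) • jm ℂ n := by
    rw [← Pool.Agent.Y118.HP.jm_map (algebraMap ℝ ℂ)]
    ext i j
    simp
  rw [h4] at h3
  rw [CM_eq hn ha h0, h2, h1, Matrix.transpose_mul, Matrix.diagonal_transpose]
  set D : Matrix (Fin n) (Fin n) ℂ := Matrix.diagonal dl with hD
  set P := (RM a m 0).map (algebraMap ℝ ℂ) with hP
  set Q := ((Pool.Agent.Y118.HP.Qp n f).map (Polynomial.aeval (0 : ℝ))).map (algebraMap ℝ ℂ) with hQ
  have h5 : ((RM a m 0)ᵀ).map (algebraMap ℝ ℂ) = Pᵀ := by rw [hP, Matrix.transpose_map]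
  rw [h5] at h3
  calc D * P * Q * (Pᵀ * D) = D * (P * Q * Pᵀ) * D := by simp only [Matrix.mul_assoc]
    _ = (Real.pi : ℂ) • (D * jm ℂ n * D) := by rw [h3, Matrix.mul_smul, Matrix.smul_mul]
    _ = _ := by
      rw [diag_jm, smul_smul, smul_smul]
      congr 1
      ring

/-- **Infinitesimal symmetries**, in the complex normalisation -/
theorem inf_CM (hn : Even n) (ha : StrictMono a) (h0 : InGap a m 0)
    (hf : f.map (algebraMap ℚ ℝ) = ∏ i, (Polynomial.X - Polynomial.C (a i))) {Y : Matrix (Fin n) (Fin n) (PowerSeries ℚ)}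
    (hsd : ∀ i j, SDc (Y i j)) (hval : ∀ᶠ z in 𝓝 (0 : ℝ), RM a m z = RM a m 0 * Ez Y z)
    {c : ℤ} (hc : c ≠ 0) (j₀ : Fin N) {X : Matrix (Fin n) (Fin n) ℂ} (hX : X * jm ℂ n + jm ℂ n * Xᵀ = 0) :
    InfT (fun j => if j = j₀ then lineM (fun _ => c) (Y.map up) else 1)
      (fun j => if j = j₀ then (CM a m 0)⁻¹ * X * CM a m 0 else 0) := by
  set D : Matrix (Fin n) (Fin n) ℂ := Matrix.diagonal dl with hD
  set M := M0 a m (1 : Matrix (Fin n) (Fin n) (Polynomial ℚ)) with hM
  have hM1 : M = (RM a m 0).map (algebraMap ℝ ℂ) := by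
    rw [hM]
    unfold M0
    have h1 : (1 : Matrix (Fin n) (Fin n) (Polynomial ℚ)).map (Polynomial.aeval (0 : ℝ)) = 1 :=
      Matrix.map_one _ (map_zero _) (map_one _)
    rw [h1, Matrix.mul_one]
  have hDd : IsUnit D.det := diag_unit
  have hAC : CM a m 0 = D * M := by rw [hM1]; exact CM_eq hn ha h0
  have hMd : IsUnit M.det := by
    rw [hM1]
    exact RMC_unit hn ha h0 hf
  have hDt : Dᵀ = D := by rw [hD, Matrix.diagonal_transpose]
  have hDi : D⁻¹ * D = 1 := Matrix.nonsing_inv_mul _ hDd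
  have hDi' : D * D⁻¹ = 1 := Matrix.mul_nonsing_inv _ hDd
  have h1 : D * jm ℂ n * D = (-4 * Complex.I) • jm ℂ n := diag_jm
  have h2 : D * jm ℂ n = (-4 * Complex.I) • (jm ℂ n * D⁻¹) := by
    calc D * jm ℂ n = D * jm ℂ n * D * D⁻¹ := by rw [Matrix.mul_assoc (D * jm ℂ n), hDi', Matrix.mul_one]
      _ = _ := by rw [h1, Matrix.smul_mul]
  have h3 : jm ℂ n * D = (-4 * Complex.I) • (D⁻¹ * jm ℂ n) := by
    calc jm ℂ n * D = D⁻¹ * (D * jm ℂ n * D) := by
          rw [Matrix.mul_assoc D, ← Matrix.mul_assoc D⁻¹, hDi, Matrix.one_mul]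
      _ = _ := by rw [h1, Matrix.mul_smul]
  have hX1 : (D⁻¹ * X * D) * jm ℂ n + jm ℂ n * (D⁻¹ * X * D)ᵀ = 0 := by
    have h4 : (D⁻¹ * X * D)ᵀ = D * Xᵀ * D⁻¹ := by
      rw [Matrix.transpose_mul, Matrix.transpose_mul, hDt, Matrix.transpose_nonsing_inv, hDt, Matrix.mul_assoc]
    have h5 : (D⁻¹ * X * D) * jm ℂ n = (-4 * Complex.I) • (D⁻¹ * (X * jm ℂ n) * D⁻¹) := by
      rw [Matrix.mul_assoc, h2, Matrix.mul_smul]
      simp only [Matrix.mul_assoc]
    have h6 : jm ℂ n * (D * Xᵀ * D⁻¹) = (-4 * Complex.I) • (D⁻¹ * (jm ℂ n * Xᵀ) * D⁻¹) := by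
      rw [← Matrix.mul_assoc, ← Matrix.mul_assoc, h3, Matrix.smul_mul, Matrix.smul_mul]
      simp only [Matrix.mul_assoc]
    rw [h4, h5, h6, ← smul_add, ← Matrix.add_mul, ← Matrix.mul_add, hX, Matrix.mul_zero, Matrix.zero_mul, smul_zero]
  have h4 := inf_star (N := N) (U := 1) (V := 1) hn ha h0 (Matrix.mul_one _) hsd (by
    filter_upwards [hval] with z hz
    have h5 : ∀ y : ℝ, (1 : Matrix (Fin n) (Fin n) (Polynomial ℚ)).map (Polynomial.aeval y) = 1 := fun y =>
      Matrix.map_one _ (map_zero _) (map_one _)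
    rw [h5, h5, Matrix.mul_one, Matrix.mul_one]
    exact hz) ((Matrix.isUnit_iff_isUnit_det _).2 hMd) hc j₀ hX1
  have h5 : (CM a m 0)⁻¹ * X * CM a m 0 = M⁻¹ * (D⁻¹ * X * D) * M := by
    rw [hAC, Matrix.mul_inv_rev]
    simp only [Matrix.mul_assoc]
  rw [h5]
  exact h4

/-- the zero symmetry -/
theorem inf_zero (Z : Fin N → Matrix (Fin n) (Fin n) (PowerSeries ℚ)) : InfT Z (fun _ => 0) := by
  intro R hR
  refine Finset.sum_eq_zero fun σ _ => ?_
  rw [Finset.sum_eq_zero fun l _ => ?_, mul_zero]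
  show PowerSeries.C (0 : ℂ) * cent Z (σ.1, l, σ.2.2) = 0
  rw [map_zero, zero_mul]

/-- the symmetries for several families at points with different denominators -/
theorem inf_all {a : Fin N → Fin n → ℝ} {m : Fin N → Fin (n + 1)} {f : Fin N → Polynomial ℚ} (hn : Even n)
    (ha : ∀ j, StrictMono (a j)) (h0 : ∀ j, InGap (a j) (m j) 0)
    (hf : ∀ j, (f j).map (algebraMap ℚ ℝ) = ∏ i, (Polynomial.X - Polynomial.C (a j i)))
    {Y : Fin N → Matrix (Fin n) (Fin n) (PowerSeries ℚ)} (hsd : ∀ j i k, SDc (Y j i k))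
    (hval : ∀ j, ∀ᶠ z in 𝓝 (0 : ℝ), RM (a j) (m j) z = RM (a j) (m j) 0 * Ez (Y j) z)
    {c : Fin N → ℤ} (hc : ∀ j, c j ≠ 0) {b : Fin N → ℕ} (hb : Function.Injective b)
    {X : Fin N → Matrix (Fin n) (Fin n) ℂ} (hX : ∀ j, X j * jm ℂ n + jm ℂ n * (X j)ᵀ = 0) (β : ℕ) :
    InfT (part b (fun j => lineM (fun _ => c j) ((Y j).map up)) β)
      (fun j => if b j = β then (CM (a j) (m j) 0)⁻¹ * X j * CM (a j) (m j) 0 else 0) := by
  classical
  by_cases h : ∃ j₀, b j₀ = β
  · obtain ⟨j₀, rfl⟩ := h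
    have h1 := inf_CM (N := N) hn (ha j₀) (h0 j₀) (hf j₀) (hsd j₀) (hval j₀) (hc j₀) j₀ (hX j₀)
    have h2 : part b (fun j => lineM (fun _ => c j) ((Y j).map up)) (b j₀) =
        fun j => if j = j₀ then lineM (fun _ => c j₀) ((Y j₀).map up) else 1 := by
      funext j
      unfold part
      by_cases hj : j = j₀
      · subst hj
        rw [if_pos rfl, if_pos rfl]
      · rw [if_neg (fun h => hj (hb h)), if_neg hj]
    have h3 : (fun j => if b j = b j₀ then (CM (a j) (m j) 0)⁻¹ * X j * CM (a j) (m j) 0 else 0) =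
        fun j => if j = j₀ then (CM (a j₀) (m j₀) 0)⁻¹ * X j₀ * CM (a j₀) (m j₀) 0 else 0 := by
      funext j
      by_cases hj : j = j₀
      · subst hj
        rw [if_pos rfl, if_pos rfl]
      · rw [if_neg (fun h => hj (hb h)), if_neg hj]
    rw [h2, h3]
    exact h1
  · have h3 : (fun j => if b j = β then (CM (a j) (m j) 0)⁻¹ * X j * CM (a j) (m j) 0 else 0) =
        fun _ => (0 : Matrix (Fin n) (Fin n) ℂ) := by
      funext j
      rw [if_neg (fun hj => h ⟨j, hj⟩)]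
    rw [h3]
    exact inf_zero _

/-- the values of the matrix -/
theorem Hv_line (Z : Matrix (Fin n) (Fin n) (PowerSeries ℚ)) (c : ℤ) (b : ℕ) :
    Hv (lineM (fun _ : Fin 1 => c) (Z.map up)) b = (Ez Z ((c : ℝ) / b)).map (algebraMap ℝ ℂ) := by
  ext i j
  show (((Pool.Agent.Y113.ev (b : ℝ) (line (fun _ => c) (up (Z i j))) : ℝ)) : ℂ) = ((E (Z i j) ((c : ℝ) / b) : ℝ) : ℂ)
  congr 1
  rw [Pool.Agent.Y37.GF.ev_eq]
  unfold E
  refine tsum_congr fun k => ?_
  rw [coeff_line_up]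
  push_cast
  rw [mul_assoc, ← mul_pow]
  congr 2
  ring

/-! ### The automorphism of order four -/

theorem er_rev {g : ℕ} {a : Fin (2 * g) → ℝ} (ha : ∀ i, a (Fin.rev i) = -a i) {m : Fin (2 * g + 1)} (hm : (m : ℕ) = g)
    (i : Fin (2 * g + 1)) : er a m 0 (Fin.rev i) = -er a m 0 i := by
  have hmr : Fin.rev m = m := by
    apply Fin.ext
    rw [Fin.val_rev]
    omega
  unfold er
  rcases Fin.eq_self_or_eq_succAbove m i with rfl | ⟨k, rfl⟩
  · rw [hmr, Fin.insertNth_apply_same, neg_zero]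
  · rw [Fin.rev_succAbove, hmr, Fin.insertNth_apply_succAbove, Fin.insertNth_apply_succAbove, ha]

theorem gap_mid {g : ℕ} {a : Fin (2 * g) → ℝ} (ha : ∀ i, a (Fin.rev i) = -a i) {m : Fin (2 * g + 1)}
    (h0 : InGap a m 0) : (m : ℕ) = g := by
  by_contra hne
  have h1 : ∀ i : Fin (2 * g), (i : ℕ) < m → (m : ℕ) ≤ 2 * g - 1 - i := by
    intro i hi
    have h2 := (h0 i).1 (by exact hi)
    by_contra hlt
    have h3 := (h0 (Fin.rev i)).1 (by
      show ((Fin.rev i : Fin (2 * g)) : ℕ) < m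
      rw [Fin.val_rev]
      omega)
    rw [ha] at h3
    linarith
  have h2 : ∀ i : Fin (2 * g), (m : ℕ) ≤ i → 2 * g - 1 - i < (m : ℕ) := by
    intro i hi
    have h2 := (h0 i).2 (by exact hi)
    by_contra hlt
    have h3 := (h0 (Fin.rev i)).2 (by
      show (m : ℕ) ≤ ((Fin.rev i : Fin (2 * g)) : ℕ)
      rw [Fin.val_rev]
      omega)
    rw [ha] at h3
    linarith
  have hm := m.2
  rcases Nat.lt_or_gt_of_ne hne with h3 | h3
  · have := h2 ⟨m, by omega⟩ le_rfl
    simp only at this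
    omega
  · have := h1 ⟨m - 1, by omega⟩ (by simp only; omega)
    simp only at this
    omega

theorem per_rev {e : Fin (n + 1) → ℝ} (he : ∀ i, e (Fin.rev i) = -e i) (l j : Fin n) :
    per e (Fin.rev l) j = (-1) ^ (j : ℕ) * per e l j := by
  unfold per
  have h1 : e (Fin.rev l).castSucc = -e l.succ := by
    rw [← he]
    congr 1
    apply Fin.ext
    simp only [Fin.val_castSucc, Fin.val_rev, Fin.val_succ]
    omega
  have h2 : e (Fin.rev l).succ = -e l.castSucc := by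
    rw [← he]
    congr 1
    apply Fin.ext
    simp only [Fin.val_castSucc, Fin.val_rev, Fin.val_succ]
    omega
  rw [h1, h2]
  have h3 := intervalIntegral.integral_comp_neg (a := e l.castSucc) (b := e l.succ)
    (fun x : ℝ => x ^ (j : ℕ) / √|∏ i, (x - e i)|)
  rw [← h3, ← intervalIntegral.integral_const_mul]
  refine intervalIntegral.integral_congr fun x _ => ?_
  have h4 : |∏ i, (-x - e i)| = |∏ i, (x - e i)| := by
    rw [Finset.abs_prod, Finset.abs_prod, ← Equiv.prod_comp Fin.revPerm]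
    refine Finset.prod_congr rfl fun i _ => ?_
    rw [Fin.revPerm_apply, he]
    rw [← abs_neg]
    congr 1
    ring
  simp only [h4]
  rw [neg_pow]
  ring

/-- the automorphism on the Betti side -/
def alp (n : ℕ) : Matrix (Fin n) (Fin n) ℚ := Matrix.of fun l l' => if l' = Fin.rev l then (-1) ^ ((l : ℕ) + 1) else 0

/-- the automorphism on the de Rham side -/
noncomputable def del (n : ℕ) : Matrix (Fin n) (Fin n) ℂ := Matrix.diagonal fun j => (-1) ^ (j : ℕ) * Complex.I

theorem CM_aut {g : ℕ} {a : Fin (2 * g) → ℝ} (ha : StrictMono a) (har : ∀ i, a (Fin.rev i) = -a i)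
    {m : Fin (2 * g + 1)} (h0 : InGap a m 0) : CM a m 0 * del (2 * g) = cm (alp (2 * g)) * CM a m 0 := by
  classical
  have hn : Even (2 * g) := even_two_mul g
  have he := er_rev har (gap_mid har h0)
  ext l j
  unfold del
  rw [Matrix.mul_diagonal, Matrix.mul_apply, Finset.sum_eq_single (Fin.rev l)]
  · rw [cm_apply, CM_apply hn ha h0, CM_apply hn ha h0]
    have h1 : RM a m 0 (Fin.rev l) j = (-1) ^ (j : ℕ) * RM a m 0 l j := by
      unfold RM perM
      rw [Matrix.of_apply, Matrix.of_apply, per_rev he]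
    rw [h1]
    have h2 : ((alp (2 * g) l (Fin.rev l) : ℚ) : ℂ) = (-1) ^ ((l : ℕ) + 1) := by
      unfold alp
      rw [Matrix.of_apply, if_pos rfl]
      push_cast
      rfl
    have h3 : dl l * Complex.I = (-1) ^ ((l : ℕ) + 1) * dl (Fin.rev l) := by
      have hI : Complex.I ^ 3 = -Complex.I := by
        rw [pow_succ, Complex.I_sq]; ring
      have hrev : ((Fin.rev l : Fin (2 * g)) : ℕ) = 2 * g - (l + 1) := Fin.val_rev l
      unfold dl
      by_cases hl : Even (l : ℕ)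
      · have hl' : ¬ Even ((Fin.rev l : Fin (2 * g)) : ℕ) := by
          rw [hrev, Nat.even_iff]
          rw [Nat.even_iff] at hl
          have := l.2
          omega
        rw [if_pos hl, if_neg hl', hI, pow_zero, pow_succ, Even.neg_one_pow hl]
        ring
      · have hl' : Even ((Fin.rev l : Fin (2 * g)) : ℕ) := by
          rw [hrev, Nat.even_iff]
          rw [Nat.even_iff] at hl
          have := l.2
          omega
        rw [if_neg hl, if_pos hl', hI, pow_zero, pow_succ, Odd.neg_one_pow (Nat.not_even_iff_odd.1 hl)]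
        linear_combination (-2 : ℂ) * Complex.I_sq
    rw [h2]
    push_cast
    linear_combination ((-1 : ℂ) ^ (j : ℕ) * ((RM a m 0 l j : ℝ) : ℂ)) * h3
  · intro k _ hk
    have h1 : alp (2 * g) l k = 0 := by
      unfold alp
      rw [Matrix.of_apply, if_neg hk]
    rw [cm_apply, h1, Rat.cast_zero, zero_mul]
  · intro h
    exact absurd (Finset.mem_univ _) h

theorem alp_ne {g : ℕ} (hg : 0 < g) (c : ℚ) : alp (2 * g) ≠ c • 1 := by
  intro h
  have h0 : 0 < 2 * g := by omega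
  have h1 := congrFun (congrFun h ⟨0, h0⟩) ⟨0, h0⟩
  have h2 := congrFun (congrFun h ⟨0, h0⟩) (Fin.rev ⟨0, h0⟩)
  have hne : (⟨0, h0⟩ : Fin (2 * g)) ≠ Fin.rev ⟨0, h0⟩ := by
    intro h3
    have h4 := congrArg Fin.val h3
    rw [Fin.val_rev] at h4
    simp only at h4
    omega
  unfold alp at h1 h2
  rw [Matrix.of_apply, if_neg hne, Matrix.smul_apply, Matrix.one_apply_eq] at h1
  rw [Matrix.of_apply, if_pos rfl, Matrix.smul_apply, Matrix.one_apply_ne hne] at h2
  simp at h2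

/-- the field `ℚ(i)` -/
theorem exists_Qi : ∃ K : Subfield ℂ, FiniteDimensional ℚ K ∧ finrank ℚ K ≤ 2 ∧ Complex.I ∈ K := by
  have hint : IsIntegral ℚ Complex.I := by
    refine ⟨Polynomial.X ^ 2 + 1, ?_, ?_⟩
    · monicity!
    · rw [Polynomial.eval₂_add, Polynomial.eval₂_pow, Polynomial.eval₂_X, Polynomial.eval₂_one, Complex.I_sq]
      ring
  refine ⟨(IntermediateField.adjoin ℚ {Complex.I}).toSubfield, ?_, ?_, ?_⟩
  · exact (IntermediateField.adjoin.finiteDimensional hint : FiniteDimensional ℚ (IntermediateField.adjoin ℚ {Complex.I}))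
  · have h1 : finrank ℚ (IntermediateField.adjoin ℚ {Complex.I}) = (minpoly ℚ Complex.I).natDegree :=
      IntermediateField.adjoin.finrank hint
    have h2 : (minpoly ℚ Complex.I).natDegree ≤ 2 := by
      have h3 : minpoly ℚ Complex.I ∣ (Polynomial.X ^ 2 + 1 : Polynomial ℚ) := by
        refine minpoly.dvd _ _ ?_
        rw [map_add, map_pow, Polynomial.aeval_X, map_one, Complex.I_sq]
        ring
      have h4 : (Polynomial.X ^ 2 + 1 : Polynomial ℚ) ≠ 0 := by
        intro h5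
        have h6 := congrArg (Polynomial.eval 0) h5
        simp at h6
      have h5 := Polynomial.natDegree_le_of_dvd h3 h4
      have h6 : (Polynomial.X ^ 2 + 1 : Polynomial ℚ).natDegree ≤ 2 := by compute_degree
      exact h5.trans h6
    exact h1.le.trans h2
  · exact IntermediateField.mem_adjoin_simple_self ℚ Complex.I

theorem neg_pow_I_mem {K : Subfield ℂ} (hK : Complex.I ∈ K) (i j : Fin n) : del n i j ∈ K := by
  unfold del
  by_cases h : i = j
  · subst h
    rw [Matrix.diagonal_apply_eq]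
    exact K.mul_mem (K.pow_mem (K.neg_mem K.one_mem) _) hK
  · rw [Matrix.diagonal_apply_ne _ h]
    exact K.zero_mem

end Pool.Agent.H936.Y
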