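import Pool.Agent.H936.Y.Ctr
import Pool.Agent.H936.X.Comb
import Pool.Agent.H936.V.Pull

/-!
# Families of hyperelliptic curves: the theorem
-/

set_option autoImplicit false
set_option linter.unusedSectionVars false
set_option linter.unusedVariables false

open Matrix Module Filter Topology

namespace Pool.Agent.H936.Y

open Pool.Agent.Y113 (SDp SDc)
open Pool.Agent.H885 (toMv GBaseU line lineM InfT part)
open Pool.Agent.Y118.HG (Ez SRm)
open Pool.Agent.Y118.HP (jm jm_apply jm_det RM CM CM_apply InGap er bm bm_eq)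
open Pool.Agent.Y118.HV (Hv)
open Pool.Agent.Y119.HY (cm cm_apply cm_mul cm_neg cm_transpose)
open Pool.Agent.Helper880_R3 (Ix Tot)
open Pool.Agent.TH127.PT (IsSubtorsor)
open Pool.Agent.Y102 (AbVar)
open Pool.Agent.H936.SL (Mn RatGrp Pres)
open Pool.Agent.H936.V (Bd Ctr SpecialC Far)
open Pool.Agent.H936.X (Adm Lar Tup)

variable {n : ℕ}

/-! ### Roots -/

theorem mem_range {u : Fin n → ℝ} (x : ℝ) : x ∈ Set.range u ↔ Polynomial.eval x (∏ i, (Polynomial.X - Polynomial.C (u i))) = 0 := by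
  rw [Polynomial.eval_prod, Finset.prod_eq_zero_iff]
  constructor
  · rintro ⟨i, rfl⟩
    exact ⟨i, Finset.mem_univ i, by simp⟩
  · rintro ⟨i, -, hi⟩
    refine ⟨i, ?_⟩
    rw [Polynomial.eval_sub, Polynomial.eval_X, Polynomial.eval_C, sub_eq_zero] at hi
    exact hi.symm

/-- the ordered roots are unique -/
theorem roots_unique {u v : Fin n → ℝ} (hu : StrictMono u) (hv : StrictMono v)
    (h : ∏ i, (Polynomial.X - Polynomial.C (u i)) = ∏ i, (Polynomial.X - Polynomial.C (v i))) : u = v := by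
  have h1 : Set.range u = Set.range v := by
    ext x
    rw [mem_range, mem_range, h]
  exact (hu.range_inj hv).1 h1

/-- the point zero among the roots -/
theorem exists_gap {e : Fin (n + 1) → ℝ} (he : StrictMono e) {F : Polynomial ℝ}
    (h : Polynomial.X * F = ∏ i, (Polynomial.X - Polynomial.C (e i))) :
    ∃ (a : Fin n → ℝ) (m : Fin (n + 1)), StrictMono a ∧ InGap a m 0 ∧ e = er a m 0 ∧
      F = ∏ i, (Polynomial.X - Polynomial.C (a i)) := by
  have h0 : (0 : ℝ) ∈ Set.range e := by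
    rw [mem_range, ← h]
    simp
  obtain ⟨m, hm⟩ := h0
  refine ⟨fun i => e (m.succAbove i), m, he.comp (Fin.strictMono_succAbove m), fun i => ⟨fun hi => ?_, fun hi => ?_⟩, ?_, ?_⟩
  · rw [← hm]
    exact he ((Fin.succAbove_lt_iff_castSucc_lt _ _).2 hi)
  · rw [← hm]
    exact he ((Fin.lt_succAbove_iff_le_castSucc _ _).2 hi)
  · unfold er
    funext i
    rcases Fin.eq_self_or_eq_succAbove m i with rfl | ⟨k, rfl⟩
    · rw [Fin.insertNth_apply_same, hm]
    · rw [Fin.insertNth_apply_succAbove]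
  · rw [Fin.prod_univ_succAbove _ m, hm, map_zero, sub_zero] at h
    exact mul_left_cancel₀ Polynomial.X_ne_zero h

/-- the ordered branch points -/
theorem er_unique {a : Fin n → ℝ} {m : Fin (n + 1)} {t : ℝ} (ha : StrictMono a) (ht : InGap a m t) {e : Fin (n + 1) → ℝ}
    (he : StrictMono e) {F : Polynomial ℝ} (hF : F = ∏ i, (Polynomial.X - Polynomial.C (a i)))
    (h : F * (Polynomial.X - Polynomial.C t) = ∏ i, (Polynomial.X - Polynomial.C (e i))) : e = er a m t := by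
  refine roots_unique he (Pool.Agent.Y118.HP.er_strictMono ha ht) ?_
  rw [Pool.Agent.Y118.HP.prod_er, ← h, hF]

/-- an even polynomial has symmetric roots -/
theorem roots_even {a : Fin n → ℝ} (ha : StrictMono a) {F : Polynomial ℝ} (hF : F = ∏ i, (Polynomial.X - Polynomial.C (a i)))
    (hn : Even n) (he : F.comp (-Polynomial.X) = F) (i : Fin n) : a (Fin.rev i) = -a i := by
  set v : Fin n → ℝ := fun i => -a (Fin.rev i) with hv
  have hvm : StrictMono v := by
    intro i j hij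
    have := ha (Fin.rev_lt_rev.2 hij)
    simp only [hv]
    linarith
  have h1 : ∏ i, (Polynomial.X - Polynomial.C (v i)) = ∏ i, (Polynomial.X - Polynomial.C (a i)) := by
    rw [← hF, ← he, hF, Polynomial.prod_comp]
    have h2 : ∀ i, (Polynomial.X - Polynomial.C (a i)).comp (-Polynomial.X) = -(Polynomial.X - Polynomial.C (-a i)) := by
      intro i
      rw [Polynomial.sub_comp, Polynomial.X_comp, Polynomial.C_comp, Polynomial.C_neg]
      ring
    rw [Finset.prod_congr rfl fun i _ => h2 i, Finset.prod_neg, Finset.card_univ, Fintype.card_fin, hn.neg_one_pow, one_mul,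
      ← Equiv.prod_comp Fin.revPerm]
    refine Finset.prod_congr rfl fun i _ => ?_
    simp only [hv, Fin.revPerm_apply, Fin.rev_rev]
  have h2 := congrFun (roots_unique hvm ha h1) i
  simp only [hv] at h2
  linarith

/-- the polynomials -/
theorem cls_of {H : ℝ} {f : Polynomial ℤ} {a : Fin n → ℝ} {m : Fin (n + 1)} (hH : ∀ k, |((f.coeff k : ℤ) : ℝ)| ≤ H)
    (h0 : InGap a m 0) (hf : (fq f).map (algebraMap ℚ ℝ) = ∏ i, (Polynomial.X - Polynomial.C (a i))) : Cls n H f := by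
  have h1 : f.map ((algebraMap ℚ ℝ).comp (Int.castRingHom ℚ)) = ∏ i, (Polynomial.X - Polynomial.C (a i)) := by
    rw [← hf]
    unfold fq
    rw [Polynomial.map_map]
  have hinj : Function.Injective ((algebraMap ℚ ℝ).comp (Int.castRingHom ℚ)) := by
    intro x y hxy
    have h2 : ((x : ℚ) : ℝ) = ((y : ℚ) : ℝ) := hxy
    exact_mod_cast h2
  refine ⟨?_, hH, fun hc => ?_⟩
  · rw [← Polynomial.natDegree_map_eq_of_injective hinj, h1, Polynomial.natDegree_prod_of_monic _ _ fun i _ =>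
      Polynomial.monic_X_sub_C _]
    simp
  · have h2 := congrArg (Polynomial.eval 0) h1
    rw [Polynomial.eval_prod, ← Polynomial.coeff_zero_eq_eval_zero, Polynomial.coeff_map, hc, map_zero] at h2
    obtain ⟨i, -, hi⟩ := Finset.prod_eq_zero_iff.1 h2.symm
    rw [Polynomial.eval_sub, Polynomial.eval_X, Polynomial.eval_C, zero_sub, neg_eq_zero] at hi
    rcases lt_or_ge i.castSucc m with h3 | h3
    · exact absurd hi ((h0 i).1 h3).ne
    · exact absurd hi ((h0 i).2 h3).ne'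

theorem bm_skew : (bm ℚ n)ᵀ = -bm ℚ n := by
  ext r s
  rw [Matrix.transpose_apply, Matrix.neg_apply]
  unfold bm
  rw [Matrix.of_apply, Matrix.of_apply]
  by_cases h : (r : ℕ) = s + 1 ∨ (s : ℕ) = r + 1
  · rw [if_pos h, if_pos h.symm]
    rcases h with h | h
    · rw [h, pow_succ]
      ring
    · rw [h, pow_succ]
      ring
  · rw [if_neg h, if_neg fun h' => h h'.symm, neg_zero]

theorem bm_unit (hn : Even n) : IsUnit (bm ℚ n).det := by
  have h1 := congrArg Matrix.det (bm_eq (n := n))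
  rw [Matrix.det_smul, ← RingHom.mapMatrix_apply, ← RingHom.map_det] at h1
  rw [isUnit_iff_ne_zero]
  intro h
  rw [h, map_zero] at h1
  exact mul_ne_zero (pow_ne_zero _ (by norm_num)) (jm_det hn) h1.symm

/-! ### The centre -/

variable {g : ℕ} {a : Fin (2 * g) → ℝ} {m : Fin (2 * g + 1)} {f : Polynomial ℚ}

theorem centre_ctr {D : ℕ} (hD : 1 ≤ D) (ha : StrictMono a) (h0 : InGap a m 0)
    (hf : f.map (algebraMap ℚ ℝ) = ∏ i, (Polynomial.X - Polynomial.C (a i))) :
    Ctr (2 * Real.pi * Complex.I : ℂ) D (bm ℚ (2 * g)) (CM a m 0) := by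
  refine ⟨bm_skew, bm_unit (even_two_mul g), CM_unit (even_two_mul g) ha h0 hf, _, fun i j => ?_,
    CM_pol (even_two_mul g) ha h0 hf⟩
  refine ⟨(⊥ : IntermediateField ℚ ℂ).toSubfield, ?_, ?_, ?_⟩
  · exact (inferInstance : FiniteDimensional ℚ (⊥ : IntermediateField ℚ ℂ))
  · have h1 : finrank ℚ (⊥ : IntermediateField ℚ ℂ) = 1 := IntermediateField.finrank_bot
    exact h1.le.trans hD
  · rw [Matrix.map_apply]
    exact IntermediateField.algebraMap_mem (⊥ : IntermediateField ℚ ℂ) _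

/-- the curves `y² = x f(x)` with `f` even are special -/
theorem centre_special {D : ℕ} (hg : 0 < g) (hD : 2 ≤ D) (ha : StrictMono a) (h0 : InGap a m 0)
    (hf : f.map (algebraMap ℚ ℝ) = ∏ i, (Polynomial.X - Polynomial.C (a i))) (har : ∀ i, a (Fin.rev i) = -a i)
    {A : AbVar g} {R : Matrix (Fin (2 * g)) (Fin (2 * g)) ℚ} (hA : Pres A (bm ℚ (2 * g)) (CM a m 0) R) :
    SpecialC D (bm ℚ (2 * g)) (CM a m 0) := by
  obtain ⟨K, hK, hK2, hKI⟩ := exists_Qi
  have hKalg : ∀ x ∈ K, IsAlgebraic ℚ x := by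
    intro x hx
    have : NumberField K := { to_charZero := inferInstance, to_finiteDimensional := hK }
    have h6 : IsAlgebraic ℚ (⟨x, hx⟩ : K) := Algebra.IsAlgebraic.isAlgebraic _
    exact h6.algebraMap (A := ℂ)
  have hu := CM_unit (even_two_mul g) ha h0 hf
  obtain ⟨S, hS⟩ := Pool.Agent.H936.V.spc_of_mat hg hA bm_skew (bm_unit (even_two_mul g)) hu hKalg
    (α := alp (2 * g)) (alp_ne hg) (fun i j => by
      have h1 : (CM a m 0)⁻¹ * cm (alp (2 * g)) * CM a m 0 = del (2 * g) := by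
        rw [Matrix.mul_assoc, ← CM_aut ha har h0, ← Matrix.mul_assoc, Matrix.nonsing_inv_mul _ hu, Matrix.one_mul]
      rw [h1]
      exact neg_pow_I_mem hKI i j)
  exact ⟨A, R, K, S, hK, hK2.trans hD, hS⟩

/-! ### The theorem -/

/-- **The theorem**, in terms of groups -/
theorem main (hg : 2 ≤ g) {D : ℕ} (hD : 1 ≤ D) (N r₀ e : ℕ) : ∃ E : ℕ, ∀ H h w b₀ : ℕ, 2 ≤ H → (H + h + w) ^ E ≤ b₀ →
    ∀ (f : Fin N → Polynomial ℤ) (a : Fin N → Fin (2 * g) → ℝ) (m : Fin N → Fin (2 * g + 1)),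
    (∀ j k, |(f j).coeff k| ≤ H) → (∀ j, StrictMono (a j)) → (∀ j, InGap (a j) (m j) 0) →
    (∀ j, (fq (f j)).map (algebraMap ℚ ℝ) = ∏ i, (Polynomial.X - Polynomial.C (a j i))) →
    ∀ (c : Fin N → ℤ) (b : Fin N → ℕ), (∀ j, c j ≠ 0 ∧ |c j| ≤ h) → (∀ j, b₀ ≤ b j ∧ b j ≤ b₀ + w) →
    (∀ i j, i ≠ j → (((H + h) ^ E : ℕ) : ℤ) ≤ |(b i : ℤ) - b j|) →
    (∀ j, InGap (a j) (m j) ((c j : ℝ) / b j)) ∧
    ((∀ j, SpecialC D (bm ℚ (2 * g)) (CM (a j) (m j) 0)) →
    (∀ j, ∃ (A : AbVar g) (R : Matrix (Fin (2 * g)) (Fin (2 * g)) ℚ),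
      Pres A (bm ℚ (2 * g)) (CM (a j) (m j) ((c j : ℝ) / b j)) R) →
    ∀ C₀ : Matrix (Fin r₀) (Fin r₀) ℂ, C₀.det ≠ 0 → Adm g D e C₀ →
    ∀ (K : Subfield ℂ) (S : Set (Matrix (Ix r₀ (2 * g) N) (Ix r₀ (2 * g) N) ℂ)), FiniteDimensional ℚ K →
      finrank ℚ K ≤ D → IsSubtorsor K S → RatGrp S →
      Tot C₀ (fun j => CM (a j) (m j) ((c j : ℝ) / b j)) ∈ S →
      ∀ γ : Fin N → (Mn (2 * g) ℂ)ˣ, (∀ i, γ i ∈ Pool.Agent.Y123.GN.GB (cm (bm ℚ (2 * g)))) → ∀ x ∈ S,
        Tot 1 (fun i => (γ i : Mn (2 * g) ℂ)) * x ∈ S) := by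
  classical
  have hn : Even (2 * g) := even_two_mul g
  have hθ : (2 * Real.pi * Complex.I : ℂ) ≠ 0 := Complex.two_pi_I_ne_zero
  obtain ⟨e₁, q, E₀, hU⟩ := uni_base (n := 2 * g) hn
  obtain ⟨E₁, hE⟩ := Pool.Agent.H936.X.fin2 hg hθ 1 N r₀ q D e
  set E : ℕ := (E₀ + 2) * E₁ + (E₀ + 4) + (e₁ + 2 * g + 4) with hEdef
  refine ⟨E, fun H h w b₀ hH hbig f a m hht ha h0 hf c b hc hb hsep => ?_⟩
  have hHr : (2 : ℝ) ≤ (H : ℝ) := by exact_mod_cast hH
  have hH1 : (1 : ℝ) ≤ (H : ℝ) := by linarith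
  have hhr : (0 : ℝ) ≤ (h : ℝ) := Nat.cast_nonneg _
  have hwr : (0 : ℝ) ≤ (w : ℝ) := Nat.cast_nonneg _
  have hbigr : ((H : ℝ) + h + w) ^ E ≤ b₀ := by exact_mod_cast hbig
  set s : ℝ := (H : ℝ) + h + w with hs
  have hs1 : (1 : ℝ) ≤ s := by linarith
  have hcls : ∀ j, Cls (2 * g) (H : ℝ) (f j) := fun j =>
    cls_of (fun k => by have := hht j k; exact_mod_cast this) (h0 j) (hf j)
  choose Y W hYsd hYval hbase using fun j => hU (H : ℝ) hHr (f j) (hcls j) (a j) (m j) (ha j) (h0 j) (hf j)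
  have hb0 : ∀ j, (0 : ℝ) < (b j : ℝ) := by
    intro j
    have h1 : (b₀ : ℝ) ≤ b j := by exact_mod_cast (hb j).1
    have h2 : (1 : ℝ) ≤ s ^ E := one_le_pow₀ hs1
    linarith
  have hfib : ∀ j, InGap (a j) (m j) ((c j : ℝ) / b j) ∧
      CM (a j) (m j) ((c j : ℝ) / b j) = CM (a j) (m j) 0 * (Ez (Y j) ((c j : ℝ) / b j)).map (algebraMap ℝ ℂ) := by
    intro j
    refine fibre_val hn hHr (hcls j) (ha j) (hf j) (h0 j) (hYsd j) (hYval j) ?_
    rw [abs_div, abs_of_pos (hb0 j), div_mul_eq_mul_div, div_le_one (hb0 j)]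
    have h1 : (b₀ : ℝ) ≤ b j := by exact_mod_cast (hb j).1
    have h2 : |(c j : ℝ)| ≤ h := by
      have := (hc j).2
      exact_mod_cast this
    refine le_trans ?_ (hbigr.trans h1)
    calc |(c j : ℝ)| * (H : ℝ) ^ (e₁ + 2 * g + 3) ≤ s * s ^ (e₁ + 2 * g + 3) := by
          refine mul_le_mul (by linarith) (pow_le_pow_left₀ (by linarith) (by linarith) _) (by positivity) (by linarith)
      _ = s ^ (e₁ + 2 * g + 4) := by rw [← pow_succ']
      _ ≤ s ^ E := pow_le_pow_right₀ hs1 (by omega)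
  refine ⟨fun j => (hfib j).1, fun hspc hpres C₀ hC₀ hadm K S hK hKD hS hSr hmem => ?_⟩
  have hB1 : (1 : ℝ) ≤ (H : ℝ) ^ E₀ := one_le_pow₀ hH1
  have hbig2 : (2 * (H : ℝ) ^ E₀ * ((h : ℝ) + w + 2)) ^ E₁ ≤ (b₀ : ℝ) := by
    refine le_trans ?_ hbigr
    calc (2 * (H : ℝ) ^ E₀ * ((h : ℝ) + w + 2)) ^ E₁ ≤ (s * s ^ E₀ * s) ^ E₁ := by
          refine pow_le_pow_left₀ (by positivity) ?_ _
          refine mul_le_mul (mul_le_mul (by linarith) (pow_le_pow_left₀ (by linarith) (by linarith) _) (by positivity)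
            (by linarith)) (by linarith) (by positivity) (by positivity)
      _ = s ^ ((E₀ + 2) * E₁) := by
          rw [pow_mul]
          congr 1
          ring
      _ ≤ s ^ E := pow_le_pow_right₀ hs1 (by omega)
  have hinj : Function.Injective b := by
    intro i j hij
    by_contra hne
    have h1 := hsep i j hne
    rw [hij, sub_self, abs_zero] at h1
    have h2 : (0 : ℤ) < (((H + h) ^ E : ℕ) : ℤ) := by
      have : 0 < (H + h) ^ E := pow_pos (by omega) _
      exact_mod_cast this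
    omega
  have hfar : ∀ i j, b i = b j ∨ Far 1 ((H : ℝ) ^ E₀) h (b i) (b j) := by
    intro i j
    by_cases hij : i = j
    · exact Or.inl (by rw [hij])
    right
    have h1 := hsep i j hij
    have h2 : ((H : ℝ) + h) ^ E ≤ |(b i : ℝ) - b j| := by exact_mod_cast h1
    unfold Far
    refine lt_of_lt_of_le ?_ h2
    set u : ℝ := (H : ℝ) + h with hu
    have hu2 : (2 : ℝ) ≤ u := by linarith
    calc 2 ^ (1 + 1) * (H : ℝ) ^ E₀ * ((h : ℝ) + 2) ≤ u ^ (1 + 1) * u ^ E₀ * u := by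
          refine mul_le_mul (mul_le_mul (pow_le_pow_left₀ (by norm_num) hu2 _) (pow_le_pow_left₀ (by linarith) (by linarith) _)
            (by positivity) (by positivity)) (by linarith) (by positivity) (by positivity)
      _ = u ^ (E₀ + 3) := by ring
      _ < u ^ (E₀ + 4) := pow_lt_pow_right₀ (by linarith) (by omega)
      _ ≤ u ^ E := pow_le_pow_right₀ (by linarith) (by omega)
  have hval : ∀ j, CM (a j) (m j) 0 * Hv (lineM (fun _ : Fin 1 => c j) ((Y j).map up)) (b j) =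
      CM (a j) (m j) ((c j : ℝ) / b j) := by
    intro j
    rw [Hv_line, ← (hfib j).2]
  refine hE ((H : ℝ) ^ E₀) h w b₀ hB1 hbig2 (bm ℚ (2 * g)) ⟨b, fun j => CM (a j) (m j) 0, C₀,
    fun j => pv (Polynomial.C 2 * f j), fun j _ x y => pv (cZ (2 * g) (f j) y x), fun j => (Y j).map up,
    fun j => (W j).map up, fun j _ => c j, K, S⟩ ?_ hadm
  exact
    { skew := bm_skew
      hd := bm_unit hn
      b_mem := hb
      sep := hfar
      ctr := fun j => centre_ctr hD (ha j) (h0 j) (hf j)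
      spc := hspc
      c0 := hC₀
      base := hbase
      ha := fun j _ => (hc j).2
      line := fun j => line_ne (hcls j).c0 _
      inf := fun X hX β => by
        refine inf_all hn ha h0 hf (fun j i k => sdc_of hHr (hYsd j i k)) hYval (fun j => (hc j).1) hinj (fun j => ?_) β
        have h1 := hX j
        rw [← Pool.Agent.H936.SL.cm_inv (bm_unit hn), ← Pool.Agent.H936.SL.lieB_eq
          (Pool.Agent.H936.G.cm_unit (bm_unit hn)), Pool.Agent.Helper880_R3.mem_lieB] at h1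
        have h2 : cm (bm ℚ (2 * g)) = (-2 : ℂ) • jm ℂ (2 * g) := bm_eq
        have h3 := h1.2
        rw [h2, Matrix.mul_smul, Matrix.smul_mul, ← smul_add] at h3
        exact (smul_eq_zero.1 h3).resolve_left (by norm_num)
      fd := hK
      deg := hKD
      tor := hS
      rat := hSr
      mem := by simp only [hval]; exact hmem
      pres := fun j => by simp only [hval]; exact hpres j }

end Pool.Agent.H936.Y
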