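import Pool.Agent.H936.Y.Fin
import Pool.Agent.H936.X.FinV

/-!
# Families of hyperelliptic curves: the theorem for spaces of matrices
-/

set_option autoImplicit false
set_option linter.unusedSectionVars false
set_option linter.unusedVariables false

open Matrix Module Filter Topology

namespace Pool.Agent.H936.Y

open Pool.Agent.Y113 (SDp SDc)
open Pool.Agent.H885 (toMv GBaseU line lineM InfT part)
open Pool.Agent.Y118.HG (Ez SRm)
open Pool.Agent.Y118.HP (jm jm_apply jm_det RM CM CM_apply InGap er bm bm_eq)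
open Pool.Agent.Y118.HV (Hv)
open Pool.Agent.Y119.HY (cm cm_apply cm_mul cm_neg cm_transpose)
open Pool.Agent.Helper880_R3 (Ix Tot ib)
open Pool.Agent.Helper880_LF (spS)
open Pool.Agent.TH127.PT (IsSubtorsor)
open Pool.Agent.Y102 (AbVar)
open Pool.Agent.H936.SL (Mn RatGrp Pres)
open Pool.Agent.H936.V (Bd Ctr SpecialC Far)
open Pool.Agent.H936.W (Sp)

variable {g : ℕ} {a : Fin (2 * g) → ℝ} {m : Fin (2 * g + 1)} {f : Polynomial ℚ}

/-- **The theorem**, in terms of spaces of matrices -/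
theorem mainV (hg : 2 ≤ g) {D : ℕ} (hD : 1 ≤ D) (N : ℕ) : ∃ E : ℕ, ∀ H h w b₀ : ℕ, 2 ≤ H → (H + h + w) ^ E ≤ b₀ →
    ∀ (f : Fin N → Polynomial ℤ) (a : Fin N → Fin (2 * g) → ℝ) (m : Fin N → Fin (2 * g + 1)),
    (∀ j k, |(f j).coeff k| ≤ H) → (∀ j, StrictMono (a j)) → (∀ j, InGap (a j) (m j) 0) →
    (∀ j, (fq (f j)).map (algebraMap ℚ ℝ) = ∏ i, (Polynomial.X - Polynomial.C (a j i))) →
    ∀ (c : Fin N → ℤ) (b : Fin N → ℕ), (∀ j, c j ≠ 0 ∧ |c j| ≤ h) → (∀ j, b₀ ≤ b j ∧ b j ≤ b₀ + w) →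
    (∀ i j, i ≠ j → (((H + h) ^ E : ℕ) : ℤ) ≤ |(b i : ℤ) - b j|) →
    (∀ j, InGap (a j) (m j) ((c j : ℝ) / b j)) ∧
    ((∀ j, SpecialC D (bm ℚ (2 * g)) (CM (a j) (m j) 0)) →
    (∀ j, ∃ (A : AbVar g) (R : Matrix (Fin (2 * g)) (Fin (2 * g)) ℚ),
      Pres A (bm ℚ (2 * g)) (CM (a j) (m j) ((c j : ℝ) / b j)) R) →
    ∀ (K : Subfield ℂ) (V : Submodule ℂ (Matrix (Ix 1 (2 * g) N) (Ix 1 (2 * g) N) ℂ)), FiniteDimensional ℚ K →
      finrank ℚ K ≤ D →
      Sp K (cm (bm ℚ (2 * g))⁻¹) (Tot ((2 * Real.pi * Complex.I : ℂ) • (1 : Matrix (Fin 1) (Fin 1) ℂ))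
        fun j => CM (a j) (m j) ((c j : ℝ) / b j)) V →
      ∀ j, ∀ X ∈ spS (cm (bm ℚ (2 * g))⁻¹), ib (r₀ := 1) j X ∈ V) := by
  classical
  have hn : Even (2 * g) := even_two_mul g
  have hθ : (2 * Real.pi * Complex.I : ℂ) ≠ 0 := Complex.two_pi_I_ne_zero
  obtain ⟨e₁, q, E₀, hU⟩ := uni_base (n := 2 * g) hn
  obtain ⟨E₁, hE⟩ := Pool.Agent.H936.X.finV hg hθ 1 N q D
  set E : ℕ := (E₀ + 2) * E₁ + (E₀ + 4) + (e₁ + 2 * g + 4) with hEdef
  refine ⟨E, fun H h w b₀ hH hbig f a m hht ha h0 hf c b hc hb hsep => ?_⟩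
  have hHr : (2 : ℝ) ≤ (H : ℝ) := by exact_mod_cast hH
  have hH1 : (1 : ℝ) ≤ (H : ℝ) := by linarith
  have hhr : (0 : ℝ) ≤ (h : ℝ) := Nat.cast_nonneg _
  have hwr : (0 : ℝ) ≤ (w : ℝ) := Nat.cast_nonneg _
  have hbigr : ((H : ℝ) + h + w) ^ E ≤ b₀ := by exact_mod_cast hbig
  set s : ℝ := (H : ℝ) + h + w with hs
  have hs1 : (1 : ℝ) ≤ s := by linarith
  have hcls : ∀ j, Cls (2 * g) (H : ℝ) (f j) := fun j =>
    cls_of (fun k => by have := hht j k; exact_mod_cast this) (h0 j) (hf j)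
  choose Y W hYsd hYval hbase using fun j => hU (H : ℝ) hHr (f j) (hcls j) (a j) (m j) (ha j) (h0 j) (hf j)
  have hb0 : ∀ j, (0 : ℝ) < (b j : ℝ) := by
    intro j
    have h1 : (b₀ : ℝ) ≤ b j := by exact_mod_cast (hb j).1
    have h2 : (1 : ℝ) ≤ s ^ E := one_le_pow₀ hs1
    linarith
  have hfib : ∀ j, InGap (a j) (m j) ((c j : ℝ) / b j) ∧
      CM (a j) (m j) ((c j : ℝ) / b j) = CM (a j) (m j) 0 * (Ez (Y j) ((c j : ℝ) / b j)).map (algebraMap ℝ ℂ) := by
    intro j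
    refine fibre_val hn hHr (hcls j) (ha j) (hf j) (h0 j) (hYsd j) (hYval j) ?_
    rw [abs_div, abs_of_pos (hb0 j), div_mul_eq_mul_div, div_le_one (hb0 j)]
    have h1 : (b₀ : ℝ) ≤ b j := by exact_mod_cast (hb j).1
    have h2 : |(c j : ℝ)| ≤ h := by
      have := (hc j).2
      exact_mod_cast this
    refine le_trans ?_ (hbigr.trans h1)
    calc |(c j : ℝ)| * (H : ℝ) ^ (e₁ + 2 * g + 3) ≤ s * s ^ (e₁ + 2 * g + 3) := by
          refine mul_le_mul (by linarith) (pow_le_pow_left₀ (by linarith) (by linarith) _) (by positivity) (by linarith)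
      _ = s ^ (e₁ + 2 * g + 4) := by rw [← pow_succ']
      _ ≤ s ^ E := pow_le_pow_right₀ hs1 (by omega)
  refine ⟨fun j => (hfib j).1, fun hspc hpres K V hK hKD hsp => ?_⟩
  have hB1 : (1 : ℝ) ≤ (H : ℝ) ^ E₀ := one_le_pow₀ hH1
  have hbig2 : (2 * (H : ℝ) ^ E₀ * ((h : ℝ) + w + 2)) ^ E₁ ≤ (b₀ : ℝ) := by
    refine le_trans ?_ hbigr
    calc (2 * (H : ℝ) ^ E₀ * ((h : ℝ) + w + 2)) ^ E₁ ≤ (s * s ^ E₀ * s) ^ E₁ := by
          refine pow_le_pow_left₀ (by positivity) ?_ _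
          refine mul_le_mul (mul_le_mul (by linarith) (pow_le_pow_left₀ (by linarith) (by linarith) _) (by positivity)
            (by linarith)) (by linarith) (by positivity) (by positivity)
      _ = s ^ ((E₀ + 2) * E₁) := by
          rw [pow_mul]
          congr 1
          ring
      _ ≤ s ^ E := pow_le_pow_right₀ hs1 (by omega)
  have hinj : Function.Injective b := by
    intro i j hij
    by_contra hne
    have h1 := hsep i j hne
    rw [hij, sub_self, abs_zero] at h1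
    have h2 : (0 : ℤ) < (((H + h) ^ E : ℕ) : ℤ) := by
      have : 0 < (H + h) ^ E := pow_pos (by omega) _
      exact_mod_cast this
    omega
  have hfar : ∀ i j, b i = b j ∨ Far 1 ((H : ℝ) ^ E₀) h (b i) (b j) := by
    intro i j
    by_cases hij : i = j
    · exact Or.inl (by rw [hij])
    right
    have h1 := hsep i j hij
    have h2 : ((H : ℝ) + h) ^ E ≤ |(b i : ℝ) - b j| := by exact_mod_cast h1
    unfold Far
    refine lt_of_lt_of_le ?_ h2
    set u : ℝ := (H : ℝ) + h with hu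
    have hu2 : (2 : ℝ) ≤ u := by linarith
    calc 2 ^ (1 + 1) * (H : ℝ) ^ E₀ * ((h : ℝ) + 2) ≤ u ^ (1 + 1) * u ^ E₀ * u := by
          refine mul_le_mul (mul_le_mul (pow_le_pow_left₀ (by norm_num) hu2 _) (pow_le_pow_left₀ (by linarith) (by linarith) _)
            (by positivity) (by positivity)) (by linarith) (by positivity) (by positivity)
      _ = u ^ (E₀ + 3) := by ring
      _ < u ^ (E₀ + 4) := pow_lt_pow_right₀ (by linarith) (by omega)
      _ ≤ u ^ E := pow_le_pow_right₀ (by linarith) (by omega)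
  have hval : ∀ j, CM (a j) (m j) 0 * Hv (lineM (fun _ : Fin 1 => c j) ((Y j).map up)) (b j) =
      CM (a j) (m j) ((c j : ℝ) / b j) := by
    intro j
    rw [Hv_line, ← (hfib j).2]
  refine hE ((H : ℝ) ^ E₀) h w b₀ hB1 hbig2 (bm ℚ (2 * g)) ⟨b, fun j => CM (a j) (m j) 0,
    fun j => pv (Polynomial.C 2 * f j), fun j _ x y => pv (cZ (2 * g) (f j) y x), fun j => (Y j).map up,
    fun j => (W j).map up, fun j _ => c j, K, V⟩ ?_
  exact
    { skew := bm_skew
      hd := bm_unit hn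
      b_mem := hb
      sep := hfar
      ctr := fun j => centre_ctr hD (ha j) (h0 j) (hf j)
      spc := hspc
      base := hbase
      ha := fun j _ => (hc j).2
      line := fun j => line_ne (hcls j).c0 _
      inf := fun X hX β => by
        refine inf_all hn ha h0 hf (fun j i k => sdc_of hHr (hYsd j i k)) hYval (fun j => (hc j).1) hinj (fun j => ?_) β
        have h1 := hX j
        rw [← Pool.Agent.H936.SL.cm_inv (bm_unit hn), ← Pool.Agent.H936.SL.lieB_eq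
          (Pool.Agent.H936.G.cm_unit (bm_unit hn)), Pool.Agent.Helper880_R3.mem_lieB] at h1
        have h2 : cm (bm ℚ (2 * g)) = (-2 : ℂ) • jm ℂ (2 * g) := bm_eq
        have h3 := h1.2
        rw [h2, Matrix.mul_smul, Matrix.smul_mul, ← smul_add] at h3
        exact (smul_eq_zero.1 h3).resolve_left (by norm_num)
      fd := hK
      deg := hKD
      sp := by simp only [hval]; exact hsp
      pres := fun j => by simp only [hval]; exact hpres j }

end Pool.Agent.H936.Y
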