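import Pool.Agent.H936.Y.Fin
import Pool.Agent.H936.Z.Fin

/-!
# Families of hyperelliptic curves: linear equations for the Harish-Chandra coordinates
-/

set_option autoImplicit false
set_option linter.unusedSectionVars false
set_option linter.unusedVariables false

open Matrix Module Filter Topology

namespace Pool.Agent.H936.Y

open Pool.Agent.Y113 (SDp SDc)
open Pool.Agent.H885 (toMv GBaseU line lineM InfT part)
open Pool.Agent.Y118.HG (Ez SRm)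
open Pool.Agent.Y118.HP (jm jm_apply jm_det RM CM CM_apply InGap er bm bm_eq)
open Pool.Agent.Y118.HV (Hv)
open Pool.Agent.Y119.HY (cm cm_apply cm_mul cm_neg cm_transpose)
open Pool.Agent.Helper880_LF (spS)
open Pool.Agent.H936.SL (Mn)
open Pool.Agent.H936.V (Ag Far)
open Pool.Agent.H936.Z (i₁ i₂ pair Tan)

variable {g : ℕ}

/-- **The theorem**, for the coordinates -/
theorem mainZ (N s e : ℕ) : ∃ E : ℕ, ∀ H h w b₀ : ℕ, 2 ≤ H → (H + h + w) ^ E ≤ b₀ →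
    ∀ (f : Fin N → Polynomial ℤ) (a : Fin N → Fin (2 * g) → ℝ) (m : Fin N → Fin (2 * g + 1)),
    (∀ j k, |(f j).coeff k| ≤ H) → (∀ j, StrictMono (a j)) → (∀ j, InGap (a j) (m j) 0) →
    (∀ j, (fq (f j)).map (algebraMap ℚ ℝ) = ∏ i, (Polynomial.X - Polynomial.C (a j i))) →
    ∀ (c : Fin N → ℤ) (b : Fin N → ℕ), (∀ j, c j ≠ 0 ∧ |c j| ≤ h) → (∀ j, b₀ ≤ b j ∧ b j ≤ b₀ + w) →
    (∀ i j, i ≠ j → (((H + h) ^ E : ℕ) : ℤ) ≤ |(b i : ℤ) - b j|) →
    (∀ j, InGap (a j) (m j) ((c j : ℝ) / b j)) ∧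
    ∀ 𝔤 : Submodule ℂ (Fin N → Mn (2 * g) ℂ), (∀ X ∈ 𝔤, ∀ j, X j ∈ spS (cm (bm ℚ (2 * g))⁻¹)) →
    ∀ F : Fin N → Mn (2 * g) ℂ, (∀ i, IsUnit (F i).det) → ∀ u : Fin s → ℂ,
    (∀ i x y, Ag e u (((F i)⁻¹ * CM (a i) (m i) 0) x y)) → ∀ y R : Fin N → Matrix (Fin g) (Fin g) ℂ,
    (∀ i, CM (a i) (m i) ((c i : ℝ) / b i) * i₁ g ℂ * R i = F i * (i₁ g ℂ + i₂ g ℂ * y i)) →
    ∀ (V : Submodule ℂ (Fin N → Matrix (Fin g) (Fin g) ℂ)) (L : Set (Fin N → Matrix (Fin g) (Fin g) ℂ)),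
    (∀ c ∈ L, ∀ i a b, Ag e u (c i a b)) → (∀ y, y ∈ V ↔ ∀ c ∈ L, pair c y = 0) → y ∈ V →
    finrank ℂ (Tan 𝔤 F) ≤ finrank ℂ (V ⊓ Tan 𝔤 F : Submodule ℂ (Fin N → Matrix (Fin g) (Fin g) ℂ)) + s := by
  classical
  have hn : Even (2 * g) := even_two_mul g
  obtain ⟨e₁, q, E₀, hU⟩ := uni_base (n := 2 * g) hn
  obtain ⟨E₁, hE⟩ := Pool.Agent.H936.Z.uniT g 1 N q s e
  set E : ℕ := (E₀ + 2) * E₁ + (E₀ + 4) + (e₁ + 2 * g + 4) with hEdef
  refine ⟨E, fun H h w b₀ hH hbig f a m hht ha h0 hf c b hc hb hsep => ?_⟩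
  have hHr : (2 : ℝ) ≤ (H : ℝ) := by exact_mod_cast hH
  have hH1 : (1 : ℝ) ≤ (H : ℝ) := by linarith
  have hhr : (0 : ℝ) ≤ (h : ℝ) := Nat.cast_nonneg _
  have hwr : (0 : ℝ) ≤ (w : ℝ) := Nat.cast_nonneg _
  have hbigr : ((H : ℝ) + h + w) ^ E ≤ b₀ := by exact_mod_cast hbig
  set σ : ℝ := (H : ℝ) + h + w with hs
  have hs1 : (1 : ℝ) ≤ σ := by linarith
  have hcls : ∀ j, Cls (2 * g) (H : ℝ) (f j) := fun j =>
    cls_of (fun k => by have := hht j k; exact_mod_cast this) (h0 j) (hf j)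
  choose Y W hYsd hYval hbase using fun j => hU (H : ℝ) hHr (f j) (hcls j) (a j) (m j) (ha j) (h0 j) (hf j)
  have hb0 : ∀ j, (0 : ℝ) < (b j : ℝ) := by
    intro j
    have h1 : (b₀ : ℝ) ≤ b j := by exact_mod_cast (hb j).1
    have h2 : (1 : ℝ) ≤ σ ^ E := one_le_pow₀ hs1
    linarith
  have hfib : ∀ j, InGap (a j) (m j) ((c j : ℝ) / b j) ∧
      CM (a j) (m j) ((c j : ℝ) / b j) = CM (a j) (m j) 0 * (Ez (Y j) ((c j : ℝ) / b j)).map (algebraMap ℝ ℂ) := by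
    intro j
    refine fibre_val hn hHr (hcls j) (ha j) (hf j) (h0 j) (hYsd j) (hYval j) ?_
    rw [abs_div, abs_of_pos (hb0 j), div_mul_eq_mul_div, div_le_one (hb0 j)]
    have h1 : (b₀ : ℝ) ≤ b j := by exact_mod_cast (hb j).1
    have h2 : |(c j : ℝ)| ≤ h := by
      have := (hc j).2
      exact_mod_cast this
    refine le_trans ?_ (hbigr.trans h1)
    calc |(c j : ℝ)| * (H : ℝ) ^ (e₁ + 2 * g + 3) ≤ σ * σ ^ (e₁ + 2 * g + 3) := by
          refine mul_le_mul (by linarith) (pow_le_pow_left₀ (by linarith) (by linarith) _) (by positivity) (by linarith)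
      _ = σ ^ (e₁ + 2 * g + 4) := by rw [← pow_succ']
      _ ≤ σ ^ E := pow_le_pow_right₀ hs1 (by omega)
  refine ⟨fun j => (hfib j).1, fun 𝔤 h𝔤 F hF u hu y R hy V L hL hV hyV => ?_⟩
  have hB1 : (1 : ℝ) ≤ (H : ℝ) ^ E₀ := one_le_pow₀ hH1
  have hbig2 : (2 * (H : ℝ) ^ E₀ * ((h : ℝ) + w + 2)) ^ E₁ ≤ (b₀ : ℝ) := by
    refine le_trans ?_ hbigr
    calc (2 * (H : ℝ) ^ E₀ * ((h : ℝ) + w + 2)) ^ E₁ ≤ (σ * σ ^ E₀ * σ) ^ E₁ := by
          refine pow_le_pow_left₀ (by positivity) ?_ _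
          refine mul_le_mul (mul_le_mul (by linarith) (pow_le_pow_left₀ (by linarith) (by linarith) _) (by positivity)
            (by linarith)) (by linarith) (by positivity) (by positivity)
      _ = σ ^ ((E₀ + 2) * E₁) := by
          rw [pow_mul]
          congr 1
          ring
      _ ≤ σ ^ E := pow_le_pow_right₀ hs1 (by omega)
  have hinj : Function.Injective b := by
    intro i j hij
    by_contra hne
    have h1 := hsep i j hne
    rw [hij, sub_self, abs_zero] at h1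
    have h2 : (0 : ℤ) < (((H + h) ^ E : ℕ) : ℤ) := by
      have : 0 < (H + h) ^ E := pow_pos (by omega) _
      exact_mod_cast this
    omega
  have hfar : ∀ i j, b i = b j ∨ Far 1 ((H : ℝ) ^ E₀) h (b i) (b j) := by
    intro i j
    by_cases hij : i = j
    · exact Or.inl (by rw [hij])
    right
    have h1 := hsep i j hij
    have h2 : ((H : ℝ) + h) ^ E ≤ |(b i : ℝ) - b j| := by exact_mod_cast h1
    unfold Far
    refine lt_of_lt_of_le ?_ h2
    set v : ℝ := (H : ℝ) + h with hu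
    have hu2 : (2 : ℝ) ≤ v := by linarith
    calc 2 ^ (1 + 1) * (H : ℝ) ^ E₀ * ((h : ℝ) + 2) ≤ v ^ (1 + 1) * v ^ E₀ * v := by
          refine mul_le_mul (mul_le_mul (pow_le_pow_left₀ (by norm_num) hu2 _) (pow_le_pow_left₀ (by linarith) (by linarith) _)
            (by positivity) (by positivity)) (by linarith) (by positivity) (by positivity)
      _ = v ^ (E₀ + 3) := by ring
      _ < v ^ (E₀ + 4) := pow_lt_pow_right₀ (by linarith) (by omega)
      _ ≤ v ^ E := pow_le_pow_right₀ (by linarith) (by omega)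
  have hval : ∀ j, CM (a j) (m j) 0 * Hv (lineM (fun _ : Fin 1 => c j) ((Y j).map up)) (b j) =
      CM (a j) (m j) ((c j : ℝ) / b j) := by
    intro j
    rw [Hv_line, ← (hfib j).2]
  refine hE ((H : ℝ) ^ E₀) h w b₀ hB1 hbig2 𝔤 (fun j => CM (a j) (m j) 0) b hb hfar
    (fun j => pv (Polynomial.C 2 * f j)) (fun j _ x y => pv (cZ (2 * g) (f j) y x)) (fun j => (Y j).map up)
    (fun j => (W j).map up) (fun j _ => c j) hbase (fun j _ => (hc j).2) (fun j => line_ne (hcls j).c0 _)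
    (fun X hX β => ?_) (fun i => CM_unit hn (ha i) (h0 i) (hf i)) F hF u hu y R (fun i => ?_) V L hL hV hyV
  · refine inf_all hn ha h0 hf (fun j i k => sdc_of hHr (hYsd j i k)) hYval (fun j => (hc j).1) hinj (fun j => ?_) β
    have h1 := h𝔤 X hX j
    rw [← Pool.Agent.H936.SL.cm_inv (bm_unit hn), ← Pool.Agent.H936.SL.lieB_eq
      (Pool.Agent.H936.G.cm_unit (bm_unit hn)), Pool.Agent.Helper880_R3.mem_lieB] at h1
    have h2 : cm (bm ℚ (2 * g)) = (-2 : ℂ) • jm ℂ (2 * g) := bm_eq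
    have h3 := h1.2
    rw [h2, Matrix.mul_smul, Matrix.smul_mul, ← smul_add] at h3
    exact (smul_eq_zero.1 h3).resolve_left (by norm_num)
  · rw [hval]
    exact hy i

end Pool.Agent.H936.Y
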