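import Pool.Agent.H936.Y.Ser

/-!
# Families of hyperelliptic curves: infinitesimal symmetries
-/

set_option autoImplicit false
set_option linter.unusedSectionVars false
set_option linter.unusedVariables false

open Matrix Module Filter Topology

namespace Pool.Agent.H936.Y

open Pool.Agent.Y113 (SDp SDc)
open Pool.Agent.H885 (toMv pdv GBaseU line lineM exps mem_exps pw cent InfT DT vz part)
open Pool.Agent.Y118.HG (ZDat Ez SRm AC SDc_SR')
open Pool.Agent.Y118.HP (jm RM PM CM InGap SpS dl dl_ne dl_mul PM_real RM_leg map_aeval_real func_inv)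
open Pool.Agent.Helper880_R3 (ec Cc ec_rel ec_mul Cc_coe ec_coe eval_HD curve_HD exp_zero')
open Pool.Agent.Y37.GF (E SR)

/-! ### Uniqueness -/

theorem ec_tendsto {G : PowerSeries ℂ} {r : ℝ} (hr : 0 < r) (hG : Cc r G) :
    Tendsto (fun q : ℝ => ec q G) (𝓝 0) (𝓝 (PowerSeries.coeff 0 G)) := by
  have h1 : Tendsto (fun q : ℝ => ∑' m : ℕ, PowerSeries.coeff m G * (q : ℂ) ^ m) (𝓝 0)
      (𝓝 (∑' m : ℕ, PowerSeries.coeff m G * (((0 : ℝ) : ℂ)) ^ m)) := by
    refine tendsto_tsum_of_dominated_convergence (bound := fun m => ‖PowerSeries.coeff m G * (r : ℂ) ^ m‖) hG ?_ ?_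
    · intro m
      have hc : Continuous fun q : ℝ => PowerSeries.coeff m G * (q : ℂ) ^ m := by fun_prop
      exact hc.tendsto 0
    · have h2 : ∀ᶠ q in 𝓝 (0 : ℝ), |q| < r := by
        have : {y : ℝ | |y| < r} ∈ 𝓝 (0 : ℝ) := (isOpen_lt continuous_abs continuous_const).mem_nhds (by simpa using hr)
        exact this
      filter_upwards [h2] with q hq m
      rw [norm_mul, norm_mul, norm_pow, norm_pow, Complex.norm_real, Complex.norm_real, Real.norm_eq_abs, Real.norm_eq_abs,
        abs_of_pos hr]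
      gcongr
  have h2 : ∑' m : ℕ, PowerSeries.coeff m G * (((0 : ℝ) : ℂ)) ^ m = PowerSeries.coeff 0 G := by
    rw [tsum_eq_single 0]
    · simp
    · intro m hm
      simp [hm]
  rw [h2] at h1
  exact h1

theorem Cc_mono {G : PowerSeries ℂ} {r q : ℝ} (hr : 0 < r) (hG : Cc r G) (hq : |q| ≤ r) : Cc q G := by
  refine Summable.of_nonneg_of_le (fun m => norm_nonneg _) (fun m => ?_) hG
  rw [norm_mul, norm_mul, norm_pow, norm_pow, Complex.norm_real, Complex.norm_real, Real.norm_eq_abs, Real.norm_eq_abs,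
    abs_of_pos hr]
  gcongr

theorem coeff_unique {L : Filter ℝ} [L.NeBot] (hL : L ≤ 𝓝 0) (hne : ∀ᶠ q in L, q ≠ 0) {r : ℝ} (hr : 0 < r) (k : ℕ) :
    ∀ {F : PowerSeries ℂ}, Cc r F → (∀ᶠ q in L, ec q F = 0) → PowerSeries.coeff k F = 0 := by
  induction k with
  | zero =>
    intro F hF h
    have h1 := (ec_tendsto hr hF).mono_left hL
    have h2 : Tendsto (fun q : ℝ => ec q F) L (𝓝 0) := (tendsto_const_nhds).congr' (by
      filter_upwards [h] with q hq using hq.symm)
    exact tendsto_nhds_unique h1 h2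
  | succ k ih =>
    intro F hF h
    have h0 : PowerSeries.coeff 0 F = 0 := by
      have h1 := (ec_tendsto hr hF).mono_left hL
      have h2 : Tendsto (fun q : ℝ => ec q F) L (𝓝 0) := (tendsto_const_nhds).congr' (by
        filter_upwards [h] with q hq using hq.symm)
      exact tendsto_nhds_unique h1 h2
    set G : PowerSeries ℂ := PowerSeries.mk fun m => PowerSeries.coeff (m + 1) F with hG
    have hGc : ∀ m, PowerSeries.coeff m G = PowerSeries.coeff (m + 1) F := fun m => PowerSeries.coeff_mk _ _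
    have hGC : Cc r G := by
      have h1 : Summable fun m : ℕ => ‖PowerSeries.coeff (m + 1) F * (r : ℂ) ^ (m + 1)‖ :=
        (summable_nat_add_iff 1).2 hF
      have h2 := h1.mul_left (r⁻¹)
      refine h2.congr fun m => ?_
      rw [hGc, norm_mul, norm_mul, pow_succ, norm_mul, Complex.norm_real, Real.norm_eq_abs, abs_of_pos hr]
      field_simp
    have h3 : ∀ᶠ q in L, ec q G = 0 := by
      have h4 : ∀ᶠ q in L, |q| ≤ r := by
        have : {y : ℝ | |y| ≤ r} ∈ 𝓝 (0 : ℝ) := by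
          have h5 : {y : ℝ | |y| < r} ∈ 𝓝 (0 : ℝ) := (isOpen_lt continuous_abs continuous_const).mem_nhds (by simpa using hr)
          filter_upwards [h5] with y hy using le_of_lt hy
        exact hL this
      filter_upwards [h, hne, h4] with q hq hq0 hqr
      have h5 : ec q F = q * ec q G := by
        unfold ec
        rw [Summable.tsum_eq_zero_add (Summable.of_norm (Cc_mono hr hF hqr)), h0, zero_mul, zero_add, ← tsum_mul_left]
        refine tsum_congr fun m => ?_
        rw [hGc, pow_succ]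
        ring
      rw [hq] at h5
      exact (mul_eq_zero.1 h5.symm).resolve_left (by exact_mod_cast hq0)
    have h4 := ih hGC h3
    rwa [hGc] at h4

theorem ec_unique {L : Filter ℝ} [L.NeBot] (hL : L ≤ 𝓝 0) (hne : ∀ᶠ q in L, q ≠ 0) {r : ℝ} (hr : 0 < r)
    {F : PowerSeries ℂ} (hF : Cc r F) (h : ∀ᶠ q in L, ec q F = 0) : F = 0 := by
  ext k
  rw [map_zero]
  exact coeff_unique hL hne hr k hF h

/-! ### Values -/

theorem Cc_line {F : PowerSeries ℚ} {ρ : ℝ} (hF : SR ρ F) {c : ℤ} {q : ℝ} (hq : |(c : ℝ) * q| ≤ ρ) :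
    Cc q (PowerSeries.map (algebraMap ℚ ℂ) (line (fun _ : Fin 1 => c) (up F))) := by
  have h1 := hF.nsumm hq
  refine h1.congr fun m => ?_
  rw [PowerSeries.coeff_map, coeff_line_up]
  simp only [norm_mul, norm_pow, eq_ratCast, Rat.cast_mul, Rat.cast_pow, Rat.cast_intCast]
  have h2 : ‖((PowerSeries.coeff m F : ℚ) : ℂ)‖ = ‖((PowerSeries.coeff m F : ℚ) : ℝ)‖ := by
    rw [← Complex.norm_real]
    norm_num
  have h3 : ‖(c : ℂ)‖ = ‖(c : ℝ)‖ := by
    rw [← Complex.norm_real]
    norm_num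
  rw [h2, h3, Complex.norm_real, mul_pow]
  ring

theorem ec_line (F : PowerSeries ℚ) (c : ℤ) (q : ℝ) :
    ec q (PowerSeries.map (algebraMap ℚ ℂ) (line (fun _ : Fin 1 => c) (up F))) = ((E F (c * q) : ℝ) : ℂ) := by
  unfold ec E
  rw [Complex.ofReal_tsum]
  refine tsum_congr fun m => ?_
  rw [PowerSeries.coeff_map, coeff_line_up, eq_ratCast]
  push_cast
  rw [mul_pow]
  ring

/-! ### Exponentials -/

theorem exp_Sp {n : ℕ} {J X : Matrix (Fin n) (Fin n) ℂ} (hJ : IsUnit J) (hX : X * J + J * Xᵀ = 0) :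
    NormedSpace.exp X * J * (NormedSpace.exp X)ᵀ = J := by
  have hd := (Matrix.isUnit_iff_isUnit_det _).1 hJ
  have h1 : J⁻¹ * X * J = -Xᵀ := by
    have h2 : X * J = -(J * Xᵀ) := eq_neg_of_add_eq_zero_left hX
    rw [Matrix.mul_assoc, h2, Matrix.mul_neg, ← Matrix.mul_assoc, Matrix.nonsing_inv_mul _ hd, Matrix.one_mul]
  have h2 := Matrix.exp_conj' J X hJ
  rw [h1, Matrix.exp_neg, Matrix.exp_transpose] at h2
  have h3 : IsUnit ((NormedSpace.exp X)ᵀ).det := by
    rw [Matrix.det_transpose]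
    exact (Matrix.isUnit_iff_isUnit_det _).1 (Matrix.isUnit_exp X)
  calc NormedSpace.exp X * J * (NormedSpace.exp X)ᵀ =
      J * (J⁻¹ * NormedSpace.exp X * J) * (NormedSpace.exp X)ᵀ := by
        simp only [← Matrix.mul_assoc]
        rw [Matrix.mul_nonsing_inv _ hd, Matrix.one_mul]
    _ = J * ((NormedSpace.exp X)ᵀ)⁻¹ * (NormedSpace.exp X)ᵀ := by rw [← h2]
    _ = J := by rw [Matrix.mul_assoc, Matrix.nonsing_inv_mul _ h3, Matrix.mul_one]

/-! ### The relation in terms of the periods -/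

variable {n N : ℕ}

/-- substitution of `M X V(z)` for the matrix with number `j₀`, of `1` for the others, and of `z / c` for the variable -/
noncomputable def subP (M : Matrix (Fin n) (Fin n) ℂ) (V : Matrix (Fin n) (Fin n) (Polynomial ℚ)) (c : ℂ) (j₀ : Fin N)
    (R : MvPolynomial (Fin N × Fin n × Fin n) (Polynomial ℂ)) : MvPolynomial (Option (Fin n × Fin n)) ℂ :=
  MvPolynomial.eval₂ (Polynomial.eval₂RingHom MvPolynomial.C (MvPolynomial.C c⁻¹ * MvPolynomial.X none))
    (fun σ => if σ.1 = j₀ then ∑ k, ∑ l, MvPolynomial.C (M σ.2.1 k) * MvPolynomial.X (some (k, l)) *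
      (V l σ.2.2).eval₂ (MvPolynomial.C.comp (algebraMap ℚ ℂ)) (MvPolynomial.X none) else
      MvPolynomial.C ((1 : Matrix (Fin n) (Fin n) ℂ) σ.2.1 σ.2.2)) R

theorem ev_subP (M : Matrix (Fin n) (Fin n) ℂ) (V : Matrix (Fin n) (Fin n) (Polynomial ℚ)) (c : ℂ) (j₀ : Fin N)
    (R : MvPolynomial (Fin N × Fin n × Fin n) (Polynomial ℂ)) (z : ℂ) (X : Matrix (Fin n) (Fin n) ℂ) :
    Pool.Agent.Y118.HP.ev (subP M V c j₀ R) z X =
      MvPolynomial.eval (vz fun j => if j = j₀ then M * X * V.map (Polynomial.aeval z) else 1)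
        (MvPolynomial.map (Polynomial.evalRingHom (c⁻¹ * z)) R) := by
  unfold Pool.Agent.Y118.HP.ev subP
  rw [MvPolynomial.hom_eval₂, MvPolynomial.eval_map]
  have h1 : (MvPolynomial.eval fun o : Option (Fin n × Fin n) => o.elim z fun x => X x.1 x.2).comp
      (Polynomial.eval₂RingHom MvPolynomial.C (MvPolynomial.C c⁻¹ * MvPolynomial.X none)) =
      Polynomial.evalRingHom (c⁻¹ * z) := by
    refine Polynomial.ringHom_ext (fun y => ?_) ?_
    · simp
    · simp
  rw [h1]
  congr 1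
  funext σ
  have hv : (vz fun j => if j = j₀ then M * X * V.map (Polynomial.aeval z) else 1) σ =
      (if σ.1 = j₀ then M * X * V.map (Polynomial.aeval z) else 1) σ.2.1 σ.2.2 := rfl
  rw [hv]
  by_cases hj : σ.1 = j₀
  · rw [if_pos hj, if_pos hj, map_sum, Matrix.mul_apply]
    simp only [map_sum, map_mul, MvPolynomial.eval_C, MvPolynomial.eval_X, Option.elim]
    rw [Finset.sum_comm]
    refine Finset.sum_congr rfl fun l _ => ?_
    rw [Matrix.mul_apply, Finset.sum_mul]
    refine Finset.sum_congr rfl fun k _ => ?_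
    congr 1
    rw [Polynomial.hom_eval₂, Matrix.map_apply, MvPolynomial.eval_X, Polynomial.aeval_def]
    congr 1
    refine RingHom.ext fun y => ?_
    simp
  · rw [if_neg hj, if_neg hj, MvPolynomial.eval_C]

/-! ### The symmetries -/

variable {a : Fin n → ℝ} {m : Fin (n + 1)} {f : Polynomial ℚ}

/-- the constant matrix, real normalisation -/
noncomputable def M0 (a : Fin n → ℝ) (m : Fin (n + 1)) (V : Matrix (Fin n) (Fin n) (Polynomial ℚ)) :
    Matrix (Fin n) (Fin n) ℂ := (RM a m 0 * V.map (Polynomial.aeval (0 : ℝ))).map (algebraMap ℝ ℂ)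

theorem PM_val (ha : StrictMono a) (h0 : InGap a m 0) {Z : Matrix (Fin n) (Fin n) (PowerSeries ℚ)}
    {U V : Matrix (Fin n) (Fin n) (Polynomial ℚ)} (hval : ∀ᶠ z in 𝓝 (0 : ℝ), RM a m z =
      RM a m 0 * V.map (Polynomial.aeval (0 : ℝ)) * Ez Z z * U.map (Polynomial.aeval z)) : ∀ᶠ z in 𝓝 (0 : ℝ), InGap a m z ∧
    PM a m (z : ℂ) = M0 a m V * (Ez Z z).map (algebraMap ℝ ℂ) * U.map (Polynomial.aeval (z : ℂ)) := by
  have hgap : ∀ᶠ z in 𝓝 (0 : ℝ), InGap a m z := (Pool.Agent.Y118.HG.isOpen_InGap a m).mem_nhds h0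
  filter_upwards [hgap, hval] with z hz hv
  refine ⟨hz, ?_⟩
  rw [PM_real ha hz, hv, map_aeval_real]
  unfold M0
  simp only [Matrix.map_mul]

/-- **Infinitesimal symmetries.** -/
theorem inf_star (hn : Even n) (ha : StrictMono a) (h0 : InGap a m 0) {Z : Matrix (Fin n) (Fin n) (PowerSeries ℚ)}
    {U V : Matrix (Fin n) (Fin n) (Polynomial ℚ)} (hUV : U * V = 1) (hsd : ∀ i j, SDc (Z i j))
    (hvalZ : ∀ᶠ z in 𝓝 (0 : ℝ), RM a m z =
      RM a m 0 * V.map (Polynomial.aeval (0 : ℝ)) * Ez Z z * U.map (Polynomial.aeval z))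
    (hM : IsUnit (M0 a m V)) {c : ℤ} (hc : c ≠ 0) (j₀ : Fin N) {X : Matrix (Fin n) (Fin n) ℂ}
    (hX : X * jm ℂ n + jm ℂ n * Xᵀ = 0) :
    InfT (fun j => if j = j₀ then lineM (fun _ => c) (Z.map up) else 1)
      (fun j => if j = j₀ then (M0 a m V)⁻¹ * X * M0 a m V else 0) := by
  classical
  set Zs : Fin N → Matrix (Fin n) (Fin n) (PowerSeries ℚ) := fun j => if j = j₀ then lineM (fun _ => c) (Z.map up) else 1
    with hZs
  set M := M0 a m V with hMdef
  set X' : Fin N → Matrix (Fin n) (Fin n) ℂ := fun j => if j = j₀ then M⁻¹ * X * M else 0 with hX'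
  have hMd := (Matrix.isUnit_iff_isUnit_det _).1 hM
  intro R hR
  -- the polynomial of the derivative
  have hDT : ∑ σ, MvPolynomial.aeval (cent Zs) (MvPolynomial.pderiv σ R) *
      ∑ l, PowerSeries.C (X' σ.1 σ.2.1 l) * cent Zs (σ.1, l, σ.2.2) = MvPolynomial.aeval (cent Zs) (DT X' R) := by
    symm
    unfold DT
    rw [map_sum]
    refine Finset.sum_congr rfl fun σ _ => ?_
    rw [map_mul, map_sum]
    congr 1
    refine Finset.sum_congr rfl fun l _ => ?_
    rw [map_mul, MvPolynomial.aeval_C, MvPolynomial.aeval_X]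
    congr 1
    exact Polynomial.coe_C _
  rw [hDT]
  -- convergence
  obtain ⟨ρ, hρ, hZρ⟩ := SDc_SR' (fun p : Fin n × Fin n => Z p.1 p.2) fun p => hsd p.1 p.2
  have hcR : (0 : ℝ) < |(c : ℝ)| := abs_pos.2 (by exact_mod_cast hc)
  have hCc : ∀ q : ℝ, |(c : ℝ) * q| ≤ ρ → ∀ σ, Cc q (cent Zs σ) := by
    intro q hq σ
    unfold cent
    rw [hZs]
    by_cases hj : σ.1 = j₀
    · simp only [if_pos hj]
      exact Cc_line (hZρ (σ.2.1, σ.2.2)) hq
    · simp only [if_neg hj]
      rw [Matrix.one_apply]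
      split_ifs
      · rw [map_one]
        have := Cc_coe (q := q) (1 : Polynomial ℂ)
        rwa [Polynomial.coe_one] at this
      · rw [map_zero]
        have := Cc_coe (q := q) (0 : Polynomial ℂ)
        rwa [Polynomial.coe_zero] at this
  -- the values
  have hval : ∀ q : ℝ, (fun σ => ec q (cent Zs σ)) =
      vz fun j => if j = j₀ then (Ez Z (c * q)).map (algebraMap ℝ ℂ) else (1 : Matrix (Fin n) (Fin n) ℂ) := by
    intro q
    funext σ
    unfold cent vz
    rw [hZs]
    by_cases hj : σ.1 = j₀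
    · simp only [if_pos hj]
      exact ec_line _ c q
    · simp only [if_neg hj]
      rw [Matrix.one_apply, Matrix.one_apply]
      split_ifs
      · rw [map_one]
        have := ec_coe (q := q) (1 : Polynomial ℂ)
        rwa [Polynomial.coe_one, Polynomial.eval_one] at this
      · rw [map_zero]
        have := ec_coe (q := q) (0 : Polynomial ℂ)
        rwa [Polynomial.coe_zero, Polynomial.eval_zero] at this
  obtain ⟨ε, hε, hball⟩ := Metric.eventually_nhds_iff.1 (PM_val ha h0 hvalZ)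
  set τ : ℝ := min ρ (ε / 2) with hτ
  have hτ0 : 0 < τ := lt_min hρ (by positivity)
  have hVU : ∀ z : ℂ, U.map (Polynomial.aeval z) * V.map (Polynomial.aeval z) = (1 : Matrix (Fin n) (Fin n) ℂ) := by
    intro z
    have h1 := congrArg (fun P : Matrix (Fin n) (Fin n) (Polynomial ℚ) => P.map (Polynomial.aeval z)) hUV
    simp only [Matrix.map_mul] at h1
    rw [h1]
    exact Matrix.map_one _ (map_zero _) (map_one _)
  have hPM : ∀ t : ℝ, |t| ≤ τ → InGap a m t ∧
      M⁻¹ * PM a m (t : ℂ) * V.map (Polynomial.aeval (t : ℂ)) = (Ez Z t).map (algebraMap ℝ ℂ) := by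
    intro t ht
    have h1 : dist t 0 < ε := by
      rw [Real.dist_eq, sub_zero]
      have : τ ≤ ε / 2 := min_le_right _ _
      linarith
    obtain ⟨h2, h3⟩ := hball h1
    refine ⟨h2, ?_⟩
    rw [h3, ← hMdef, Matrix.mul_assoc M, ← Matrix.mul_assoc M⁻¹, Matrix.nonsing_inv_mul _ hMd, Matrix.one_mul,
      Matrix.mul_assoc, hVU, Matrix.mul_one]
  have hcC : (c : ℂ) ≠ 0 := by exact_mod_cast hc
  set P := subP M⁻¹ V (c : ℂ) j₀ R with hP
  -- the relation for the periods
  have hrel : ∀ t : ℝ, |t| ≤ τ → Pool.Agent.Y118.HP.ev P (t : ℂ) (PM a m (t : ℂ)) = 0 := by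
    intro t ht
    set q : ℝ := t / c with hq
    have hcq : (c : ℝ) * q = t := by
      rw [hq]
      have : (c : ℝ) ≠ 0 := by exact_mod_cast hc
      field_simp
    have hcq' : |(c : ℝ) * q| ≤ ρ := by
      rw [hcq]
      exact ht.trans (min_le_left _ _)
    have h1 := (ec_rel (hCc q hcq') R).2
    rw [hR, hval, hcq] at h1
    have h2 : ec q 0 = 0 := by
      have := ec_coe (q := q) (0 : Polynomial ℂ)
      rwa [Polynomial.coe_zero, Polynomial.eval_zero] at this
    rw [h2] at h1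
    rw [hP, ev_subP, (hPM t ht).2]
    have h3 : (c : ℂ)⁻¹ * (t : ℂ) = (q : ℂ) := by
      rw [hq]
      push_cast
      rw [div_eq_mul_inv, mul_comm]
    rw [h3]
    exact h1.symm
  -- invariance under the symplectic group
  have hinv : ∀ g : Matrix (Fin n) (Fin n) ℂ, g * jm ℂ n * gᵀ = jm ℂ n → ∀ t : ℝ, |t| ≤ τ →
      Pool.Agent.Y118.HP.ev P (t : ℂ) (g * PM a m (t : ℂ)) = 0 := by
    intro g hg t ht
    refine func_inv hn ha m P (α := τ / 2) (β := τ) (by linarith) (fun t ht => ?_) (fun t ht => ?_) g hg (t : ℂ)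
      (hPM t ht).1.mem_Dm
    · exact (hPM t (by rw [abs_of_nonneg (by linarith [ht.1])]; exact ht.2)).1
    · exact hrel t (by rw [abs_of_nonneg (by linarith [ht.1])]; exact ht.2)
  -- the derivative vanishes
  have hder : ∀ q : ℝ, |(c : ℝ) * q| ≤ τ → ec q (MvPolynomial.aeval (cent Zs) (DT X' R)) = 0 := by
    intro q hq
    have hqρ : |(c : ℝ) * q| ≤ ρ := hq.trans (min_le_left _ _)
    rw [(ec_rel (hCc q hqρ) _).2, hval]
    set Y : Fin N → Matrix (Fin n) (Fin n) ℂ := fun j => if j = j₀ then (Ez Z (c * q)).map (algebraMap ℝ ℂ) else 1 with hY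
    have h1 : ∀ s : ℂ, MvPolynomial.eval (vz fun j => NormedSpace.exp (s • X' j) * Y j)
        (MvPolynomial.map (Polynomial.evalRingHom (q : ℂ)) R) = 0 := by
      intro s
      have h2 : (s • X) * jm ℂ n + jm ℂ n * (s • X)ᵀ = 0 := by
        rw [Matrix.transpose_smul, Matrix.smul_mul, Matrix.mul_smul, ← smul_add, hX, smul_zero]
      have hJu : IsUnit (jm ℂ n) := by
        rw [Matrix.isUnit_iff_isUnit_det]
        exact (Pool.Agent.Y118.HP.jm_det hn).isUnit
      have h3 := hinv _ (exp_Sp hJu h2) (c * q) hq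
      rw [hP, ev_subP] at h3
      have h4 : M⁻¹ * (NormedSpace.exp (s • X) * PM a m ((((c : ℝ) * q : ℝ)) : ℂ)) *
          V.map (Polynomial.aeval ((((c : ℝ) * q : ℝ)) : ℂ)) =
          NormedSpace.exp (s • (M⁻¹ * X * M)) * (Ez Z (c * q)).map (algebraMap ℝ ℂ) := by
        have h5 : s • (M⁻¹ * X * M) = M⁻¹ * (s • X) * M := by
          rw [Matrix.mul_smul, Matrix.smul_mul]
        rw [h5, Matrix.exp_conj' M _ hM, ← (hPM (c * q) hq).2]
        simp only [Matrix.mul_assoc]
        rw [← Matrix.mul_assoc M M⁻¹, Matrix.mul_nonsing_inv _ hMd, Matrix.one_mul]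
      rw [h4] at h3
      have h6 : (c : ℂ)⁻¹ * ((((c : ℝ) * q : ℝ)) : ℂ) = (q : ℂ) := by
        push_cast
        rw [← mul_assoc, inv_mul_cancel₀ hcC, one_mul]
      rw [h6] at h3
      have h7 : (fun j => NormedSpace.exp (s • X' j) * Y j) = fun j => if j = j₀ then
          NormedSpace.exp (s • (M⁻¹ * X * M)) * (Ez Z (c * q)).map (algebraMap ℝ ℂ) else 1 := by
        funext j
        rw [hX', hY]
        by_cases hj : j = j₀
        · simp only [if_pos hj]
        · simp only [if_neg hj]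
          have h8 : (s • (0 : Matrix (Fin n) (Fin n) ℂ)) = 0 := smul_zero _
          rw [h8, exp_zero', Matrix.one_mul]
      rw [h7]
      exact h3
    have h2 := eval_HD (MvPolynomial.map (Polynomial.evalRingHom (q : ℂ)) R)
      (y := fun s => vz fun j => NormedSpace.exp (s • X' j) * Y j)
      (y' := fun σ => (X' σ.1 * (NormedSpace.exp ((0 : ℂ) • X' σ.1) * Y σ.1)) σ.2.1 σ.2.2) (s := 0)
      (fun σ => curve_HD (X' σ.1) (Y σ.1) 0 σ.2)
    have h3 : (fun s : ℂ => MvPolynomial.eval (vz fun j => NormedSpace.exp (s • X' j) * Y j)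
        (MvPolynomial.map (Polynomial.evalRingHom (q : ℂ)) R)) = fun _ => 0 := funext h1
    rw [h3] at h2
    have h4 := (hasDerivAt_const (0 : ℂ) (0 : ℂ)).unique h2
    have h5 : ∀ j, NormedSpace.exp ((0 : ℂ) • X' j) * Y j = Y j := by
      intro j
      have h6 : (0 : ℂ) • X' j = 0 := zero_smul _ _
      rw [h6, exp_zero', Matrix.one_mul]
    simp only [h5] at h4
    rw [h4]
    unfold DT
    rw [map_sum, map_sum]
    refine Finset.sum_congr rfl fun σ _ => ?_
    rw [map_mul, map_mul, MvPolynomial.pderiv_map, map_sum, map_sum, Matrix.mul_apply]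
    congr 1
    refine Finset.sum_congr rfl fun l _ => ?_
    rw [map_mul, map_mul, MvPolynomial.map_C, MvPolynomial.map_X, MvPolynomial.eval_C, MvPolynomial.eval_X]
    congr 1
    exact (Polynomial.eval_C)
  -- uniqueness
  set r : ℝ := τ / |(c : ℝ)| with hr
  have hr0 : 0 < r := div_pos hτ0 hcR
  have hrq : ∀ q : ℝ, |q| ≤ r → |(c : ℝ) * q| ≤ τ := by
    intro q hq
    rw [abs_mul]
    calc |(c : ℝ)| * |q| ≤ |(c : ℝ)| * r := by gcongr
      _ = τ := by rw [hr]; field_simp
  refine ec_unique (L := 𝓝[>] (0 : ℝ)) nhdsWithin_le_nhds ?_ hr0 ?_ ?_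
  · filter_upwards [self_mem_nhdsWithin] with q hq
    exact ne_of_gt hq
  · exact (ec_rel (hCc r ((hrq r (by rw [abs_of_pos hr0])).trans (min_le_left _ _))) _).1
  · filter_upwards [Ioo_mem_nhdsGT hr0] with q hq
    refine hder q (hrq q ?_)
    rw [abs_of_pos hq.1]
    exact hq.2.le

end Pool.Agent.H936.Y
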