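import Pool.Agent.H936.Y.UniB

/-!
# Families of hyperelliptic curves: the radius of convergence
-/

set_option autoImplicit false
set_option linter.unusedSectionVars false
set_option linter.unusedVariables false

open Matrix Filter Topology

namespace Pool.Agent.H936.Y

open Pool.Agent.Y113 (SDp SDc)
open Pool.Agent.Y118.HG (Ez Ez_apply SRm cA c0)
open Pool.Agent.Y118.HP (jm RM CM InGap per_analytic er)
open Pool.Agent.Y37.GF (E SR)

variable {n : ℕ} {H : ℝ}

/-- analyticity of the sum of a power series -/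
theorem E_analytic {F : PowerSeries ℚ} {r : ℝ} (hr : 0 < r) (hF : SR r F) : AnalyticOnNhd ℝ (E F) (Metric.ball 0 r) := by
  set c : ℕ → ℝ := fun m => ((PowerSeries.coeff m F : ℚ) : ℝ) with hc
  set p : FormalMultilinearSeries ℝ ℝ ℝ := FormalMultilinearSeries.ofScalars ℝ c with hp
  set r' : NNReal := ⟨r, hr.le⟩ with hr'
  have h1 : (r' : ENNReal) ≤ p.radius := by
    refine p.le_radius_of_summable_norm ?_
    refine Summable.congr hF fun m => ?_
    rw [hp, FormalMultilinearSeries.ofScalars_norm, hc, Real.norm_eq_abs]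
    rfl
  have h2 : 0 < p.radius := by
    refine lt_of_lt_of_le ?_ h1
    rw [ENNReal.coe_pos]
    exact hr
  have h3 := (p.hasFPowerSeriesOnBall h2).analyticOnNhd
  have h4 : p.sum = E F := by
    funext z
    have h5 := FormalMultilinearSeries.ofScalars_sum_eq (E := ℝ) c z
    unfold FormalMultilinearSeries.ofScalarsSum at h5
    rw [hp, h5]
    unfold E
    rfl
  rw [h4] at h3
  refine h3.mono fun z hz => ?_
  rw [Metric.mem_eball, edist_dist]
  rw [Metric.mem_ball] at hz
  refine lt_of_lt_of_le ?_ h1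
  rw [ENNReal.ofReal_lt_iff_lt_toReal dist_nonneg ENNReal.coe_ne_top, ENNReal.coe_toReal]
  exact hz

variable {a : Fin n → ℝ} {m : Fin (n + 1)}

/-- **the periods on the disc of convergence** -/
theorem val_on (ha : StrictMono a) {Y : Matrix (Fin n) (Fin n) (PowerSeries ℚ)} {r : ℝ} (hr : 0 < r) (hYr : SRm r Y)
    (hval : ∀ᶠ z in 𝓝 (0 : ℝ), RM a m z = RM a m 0 * Ez Y z) (hgap : ∀ z : ℝ, |z| < r → InGap a m z) :
    ∀ z : ℝ, |z| < r → RM a m z = RM a m 0 * Ez Y z := by
  intro z hz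
  ext l j
  have h1 : AnalyticOnNhd ℝ (fun z => RM a m z l j) (Metric.ball 0 r) := fun t ht =>
    per_analytic ha m l j (hgap t (by rwa [Metric.mem_ball, Real.dist_eq, sub_zero] at ht))
  have h2 : AnalyticOnNhd ℝ (fun z => (RM a m 0 * Ez Y z) l j) (Metric.ball 0 r) := by
    have h3 : (fun z => (RM a m 0 * Ez Y z) l j) = fun z => ∑ i, RM a m 0 l i * E (Y i j) z := by
      funext z
      rw [Matrix.mul_apply]
      rfl
    rw [h3]
    exact Finset.analyticOnNhd_fun_sum _ fun i _ => analyticOnNhd_const.mul (E_analytic hr (hYr i j))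
  refine h1.eqOn_of_preconnected_of_eventuallyEq h2 (convex_ball 0 r).isPreconnected (Metric.mem_ball_self hr) ?_ ?_
  · filter_upwards [hval] with z hz
    exact congrFun (congrFun hz l) j
  · rwa [Metric.mem_ball, Real.dist_eq, sub_zero]

/-- the size of the roots -/
theorem root_big {f : Polynomial ℤ} (hH : 2 ≤ H) (hf : Cls n H f) {x : ℝ} (hx : Polynomial.aeval x f = 0) (z : ℝ)
    (hz : |z| * (n * H) < 1) : |z| < |x| := by
  by_contra hlt
  rw [not_lt] at hlt
  have hx1 : |x| * (n * H) < 1 := lt_of_le_of_lt (mul_le_mul_of_nonneg_right hlt (by positivity)) hz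
  rcases Nat.eq_zero_or_pos n with hn0 | hn0
  · have h1 : f = Polynomial.C (f.coeff 0) := Polynomial.eq_C_of_natDegree_le_zero (by rw [← hn0]; exact hf.deg)
    rw [h1, Polynomial.aeval_C] at hx
    have h2 : ((f.coeff 0 : ℤ) : ℝ) = 0 := by simpa using hx
    exact hf.c0 (by exact_mod_cast h2)
  have hn1 : (1 : ℝ) ≤ n := by exact_mod_cast hn0
  have hx2 : |x| < 1 := by
    have h1 : (1 : ℝ) ≤ n * H := by nlinarith
    have h2 := abs_nonneg x
    nlinarith
  have h1 : (Polynomial.aeval x f : ℝ) = ∑ i ∈ Finset.range (n + 1), ((f.coeff i : ℤ) : ℝ) * x ^ i := by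
    rw [Polynomial.aeval_eq_sum_range' (n := n + 1) (by have := hf.deg; omega)]
    refine Finset.sum_congr rfl fun i _ => ?_
    rw [zsmul_eq_mul]
  rw [h1, Finset.sum_range_succ'] at hx
  simp only [pow_zero, mul_one] at hx
  have h2 : ((f.coeff 0 : ℤ) : ℝ) = -∑ i ∈ Finset.range n, ((f.coeff (i + 1) : ℤ) : ℝ) * x ^ (i + 1) := by linarith
  have h3 : (1 : ℝ) ≤ |((f.coeff 0 : ℤ) : ℝ)| := by
    have := Int.one_le_abs hf.c0
    exact_mod_cast this
  rw [h2, abs_neg] at h3
  have h4 : |∑ i ∈ Finset.range n, ((f.coeff (i + 1) : ℤ) : ℝ) * x ^ (i + 1)| ≤ n * (H * |x|) := by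
    refine (Finset.abs_sum_le_sum_abs _ _).trans ?_
    refine (Finset.sum_le_card_nsmul _ _ (H * |x|) fun i _ => ?_).trans ?_
    · rw [abs_mul, abs_pow]
      refine mul_le_mul (hf.ht _) ?_ (by positivity) (by linarith)
      exact pow_le_of_le_one (abs_nonneg _) hx2.le (by omega)
    · rw [Finset.card_range, nsmul_eq_mul]
  nlinarith

/-- **the gap** -/
theorem gap_on {f : Polynomial ℤ} (hH : 2 ≤ H) (hf : Cls n H f)
    (hr : (fq f).map (algebraMap ℚ ℝ) = ∏ i, (Polynomial.X - Polynomial.C (a i))) (h0 : InGap a m 0) {z : ℝ}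
    (hz : |z| * (n * H) < 1) : InGap a m z := by
  have hroot : ∀ i, Polynomial.aeval (a i) f = 0 := by
    intro i
    have h1 : Polynomial.eval (a i) ((fq f).map (algebraMap ℚ ℝ)) = 0 := by
      rw [hr, Polynomial.eval_prod]
      exact Finset.prod_eq_zero (Finset.mem_univ i) (by simp)
    unfold fq at h1
    rw [Polynomial.map_map, Polynomial.eval_map] at h1
    rw [Polynomial.aeval_def]
    have h2 : algebraMap ℤ ℝ = (algebraMap ℚ ℝ).comp (Int.castRingHom ℚ) := RingHom.ext_int _ _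
    rw [h2]
    exact h1
  intro i
  have h1 := root_big hH hf (hroot i) z hz
  refine ⟨fun h => ?_, fun h => ?_⟩
  · have h2 := (h0 i).1 h
    rw [abs_of_neg h2] at h1
    have := neg_abs_le z
    linarith
  · have h2 := (h0 i).2 h
    rw [abs_of_pos h2] at h1
    exact (le_abs_self z).trans_lt h1

/-- **the fibre near the centre** -/
theorem fibre_val (hn : Even n) {e : ℕ} (hH : 2 ≤ H) {f : Polynomial ℤ} (hf : Cls n H f) (ha : StrictMono a)
    (hr : (fq f).map (algebraMap ℚ ℝ) = ∏ i, (Polynomial.X - Polynomial.C (a i))) (h0 : InGap a m 0)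
    {Y : Matrix (Fin n) (Fin n) (PowerSeries ℚ)} (hY : ∀ i j, SDp (H ^ e) (Y i j))
    (hval : ∀ᶠ z in 𝓝 (0 : ℝ), RM a m z = RM a m 0 * Ez Y z) {z : ℝ} (hz : |z| * H ^ (e + n + 3) ≤ 1) :
    InGap a m z ∧ CM a m z = CM a m 0 * (Ez Y z).map (algebraMap ℝ ℂ) := by
  have hH0 : (0 : ℝ) < H := by linarith
  have hH1 : (1 : ℝ) ≤ H := by linarith
  set r : ℝ := 1 / (2 * H ^ (e + n + 1)) with hrdef
  have hr0 : 0 < r := by positivity
  have hsmall : ∀ t : ℝ, |t| < r → |t| * (n * H) < 1 := by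
    intro t ht
    have h1 : |t| * (2 * H ^ (e + n + 1)) < 1 := by
      rw [hrdef, lt_div_iff₀ (by positivity)] at ht
      exact ht
    refine lt_of_le_of_lt (mul_le_mul_of_nonneg_left ?_ (abs_nonneg _)) h1
    have h2 : (n : ℝ) ≤ H ^ n := by
      have h4 : (n : ℝ) ≤ 2 ^ n := by exact_mod_cast (Nat.lt_two_pow_self (n := n)).le
      exact h4.trans (pow_le_pow_left₀ (by norm_num) hH _)
    calc (n : ℝ) * H ≤ H ^ n * H := mul_le_mul_of_nonneg_right h2 hH0.le
      _ = H ^ (n + 1) := by rw [pow_succ]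
      _ ≤ H ^ (e + n + 1) := pow_le_pow_right₀ hH1 (by omega)
      _ ≤ 2 * H ^ (e + n + 1) := by
        have : (0 : ℝ) ≤ H ^ (e + n + 1) := by positivity
        linarith
  have hYr : SRm r Y := by
    intro i j
    refine SR.of_bound (A := H ^ e) (B := H ^ e) hr0.le (by positivity) ?_ fun k => ?_
    · rw [hrdef, mul_one_div, div_lt_one (by positivity)]
      have h1 : H ^ e ≤ H ^ (e + n + 1) := pow_le_pow_right₀ hH1 (by omega)
      have h2 : (0 : ℝ) < H ^ (e + n + 1) := by positivity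
      linarith
    · refine ((hY i j).1 k).trans ?_
      rw [pow_succ, mul_comm]
  have hgap : ∀ t : ℝ, |t| < r → InGap a m t := fun t ht => gap_on hH hf hr h0 (hsmall t ht)
  have hzr : |z| < r := by
    rw [hrdef, lt_div_iff₀ (by positivity)]
    have h2 : H ^ (e + n + 3) = H ^ (e + n + 1) * (H * H) := by ring
    rw [h2] at hz
    have h3 : (0 : ℝ) ≤ |z| * H ^ (e + n + 1) := by positivity
    have h4 : (4 : ℝ) ≤ H * H := by nlinarith
    have h5 : |z| * H ^ (e + n + 1) * 4 ≤ 1 := by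
      refine le_trans ?_ hz
      rw [← mul_assoc]
      exact mul_le_mul_of_nonneg_left h4 h3
    nlinarith
  have hv := val_on ha hr0 hYr hval hgap z hzr
  refine ⟨hgap z hzr, ?_⟩
  ext l j
  rw [Pool.Agent.Y118.HP.CM_apply hn ha (hgap z hzr), hv, Matrix.mul_apply, Matrix.mul_apply]
  push_cast
  rw [Finset.mul_sum]
  refine Finset.sum_congr rfl fun i _ => ?_
  rw [Pool.Agent.Y118.HP.CM_apply hn ha h0, Matrix.map_apply, mul_assoc]
  rfl

end Pool.Agent.H936.Y
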