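import Pool.Agent.H936.X.Fin
import Pool.Graph.R_seed8.Y118.HG.Vv

/-!
# Families of hyperelliptic curves: power series in one variable
-/

set_option autoImplicit false
set_option linter.unusedSectionVars false
set_option linter.unusedVariables false

open Matrix Module

namespace Pool.Agent.H936.Y

open Pool.Agent.Y113 (SDp SDc)
open Pool.Agent.H885 (toMv pdv GBaseU line lineM exps mem_exps pw)
open Pool.Agent.Y118.HG (ZDat)
open Finset.HasAntidiagonal (antidiagonal mem_antidiagonal)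

/-- a power series as a power series in the variable with number `0` -/
noncomputable def up (F : PowerSeries ℚ) : MvPowerSeries (Fin 1) ℚ := fun ν => PowerSeries.coeff (ν 0) F

theorem coeff_up (ν : Fin 1 →₀ ℕ) (F : PowerSeries ℚ) : MvPowerSeries.coeff ν (up F) = PowerSeries.coeff (ν 0) F := rfl

theorem sg (ν : Fin 1 →₀ ℕ) : Finsupp.single 0 (ν 0) = ν := by
  refine Finsupp.ext fun i => ?_
  have hi : i = 0 := Subsingleton.elim _ _
  rw [hi, Finsupp.single_eq_same]

theorem up_mul (F G : PowerSeries ℚ) : up (F * G) = up F * up G := by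
  ext ν
  rw [coeff_up, PowerSeries.coeff_mul, MvPowerSeries.coeff_mul]
  refine Finset.sum_nbij' (fun p : ℕ × ℕ => ((Finsupp.single 0 p.1 : Fin 1 →₀ ℕ), (Finsupp.single 0 p.2 : Fin 1 →₀ ℕ)))
    (fun p : (Fin 1 →₀ ℕ) × (Fin 1 →₀ ℕ) => (p.1 0, p.2 0)) ?_ ?_ ?_ ?_ ?_
  · intro p hp
    rw [mem_antidiagonal] at hp ⊢
    rw [← Finsupp.single_add, hp, sg]
  · intro p hp
    rw [mem_antidiagonal] at hp ⊢
    rw [← hp, Finsupp.add_apply]
  · intro p hp
    simp
  · intro p hp
    simp only [sg]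
  · intro p hp
    rw [coeff_up, coeff_up]
    simp

theorem up_add (F G : PowerSeries ℚ) : up (F + G) = up F + up G := by
  ext ν
  rw [coeff_up, map_add, map_add]
  rfl

theorem up_zero : up 0 = 0 := by
  ext ν
  rw [coeff_up, map_zero, map_zero]

theorem up_one : up 1 = 1 := by
  ext ν
  rw [coeff_up, PowerSeries.coeff_one, MvPowerSeries.coeff_one]
  by_cases h : ν = 0
  · rw [if_pos h, if_pos (by rw [h]; rfl)]
  · rw [if_neg h, if_neg]
    intro h0
    apply h
    rw [← sg ν, h0, Finsupp.single_zero]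

/-- the ring homomorphism -/
noncomputable def upH : PowerSeries ℚ →+* MvPowerSeries (Fin 1) ℚ where
  toFun := up
  map_one' := up_one
  map_mul' := up_mul
  map_zero' := up_zero
  map_add' := up_add

theorem up_deriv (F : PowerSeries ℚ) : up (PowerSeries.derivative ℚ F) = pdv 0 (up F) := by
  ext ν
  rw [coeff_up, Pool.Agent.H885.coeff_pdv, coeff_up, PowerSeries.coeff_derivative, Finsupp.add_apply, Finsupp.single_eq_same]
  ring

/-- a polynomial as a polynomial in the variable with number `0` -/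
noncomputable def pv : Polynomial ℤ →+* MvPolynomial (Fin 1) ℤ := Polynomial.eval₂RingHom MvPolynomial.C (MvPolynomial.X 0)

/-- `toMv` as a ring homomorphism -/
noncomputable def toH : MvPolynomial (Fin 1) ℤ →+* MvPowerSeries (Fin 1) ℚ :=
  (MvPolynomial.coeToMvPowerSeries.ringHom (R := ℚ) (σ := Fin 1)).comp (MvPolynomial.map (Int.castRingHom ℚ))

theorem toMv_pv (p : Polynomial ℤ) : toMv (pv p) = up ((p.map (Int.castRingHom ℚ) : Polynomial ℚ) : PowerSeries ℚ) := by
  have h : toH.comp pv = upH.comp ((Polynomial.coeToPowerSeries.ringHom (R := ℚ)).comp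
      (Polynomial.mapRingHom (Int.castRingHom ℚ))) := by
    refine Polynomial.ringHom_ext (fun c => ?_) ?_
    · rw [RingHom.comp_apply, RingHom.comp_apply, RingHom.comp_apply]
      rw [eq_intCast (Polynomial.C : ℤ →+* Polynomial ℤ) c, map_intCast, map_intCast, map_intCast, map_intCast, map_intCast]
    · rw [RingHom.comp_apply, RingHom.comp_apply, RingHom.comp_apply]
      have h1 : pv (Polynomial.X : Polynomial ℤ) = MvPolynomial.X 0 := by
        unfold pv
        simp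
      rw [h1]
      show ((MvPolynomial.map (Int.castRingHom ℚ) (MvPolynomial.X 0) : MvPolynomial (Fin 1) ℚ) : MvPowerSeries (Fin 1) ℚ) =
        up (((Polynomial.X : Polynomial ℤ).map (Int.castRingHom ℚ) : Polynomial ℚ) : PowerSeries ℚ)
      rw [MvPolynomial.map_X, MvPolynomial.coe_X, Polynomial.map_X, Polynomial.coe_X]
      ext ν
      rw [coeff_up, PowerSeries.coeff_X, MvPowerSeries.coeff_X]
      by_cases h2 : ν = Finsupp.single 0 1
      · rw [if_pos h2, if_pos (by rw [h2, Finsupp.single_eq_same])]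
      · rw [if_neg h2, if_neg]
        intro h0
        apply h2
        rw [← sg ν, h0]
  exact congrArg (fun φ => φ p) h

theorem bdd_coeff (P : MvPolynomial (Fin 1) ℤ) : ∃ c : ℕ, ∀ ν, |((P.coeff ν : ℤ) : ℝ)| ≤ c := by
  refine ⟨∑ ν ∈ P.support, (P.coeff ν).natAbs, fun ν => ?_⟩
  by_cases h : ν ∈ P.support
  · have h1 : (P.coeff ν).natAbs ≤ ∑ ν ∈ P.support, (P.coeff ν).natAbs :=
      Finset.single_le_sum (f := fun ν => (P.coeff ν).natAbs) (fun _ _ => Nat.zero_le _) h
    have h2 : |((P.coeff ν : ℤ) : ℝ)| = ((P.coeff ν).natAbs : ℝ) := by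
      rw [← Int.cast_abs, Int.abs_eq_natAbs]
      rfl
    rw [h2]
    exact_mod_cast h1
  · rw [MvPolynomial.notMem_support_iff.1 h, Int.cast_zero, abs_zero]
    exact Nat.cast_nonneg _

/-- clearing denominators -/
theorem clear_one (p : Polynomial ℚ) : ∃ (d : ℕ) (Q : Polynomial ℤ), 0 < d ∧ Q.map (Int.castRingHom ℚ) = Polynomial.C (d : ℚ) * p := by
  induction p using Polynomial.induction_on' with
  | add p q hp hq =>
    obtain ⟨d, P, hd, hP⟩ := hp
    obtain ⟨e, Q, he, hQ⟩ := hq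
    refine ⟨d * e, Polynomial.C (e : ℤ) * P + Polynomial.C (d : ℤ) * Q, Nat.mul_pos hd he, ?_⟩
    rw [Polynomial.map_add, Polynomial.map_mul, Polynomial.map_mul, hP, hQ, Polynomial.map_C, Polynomial.map_C, mul_add]
    have h1 : (Int.castRingHom ℚ) (e : ℤ) = (e : ℚ) := by simp
    have h2 : (Int.castRingHom ℚ) (d : ℤ) = (d : ℚ) := by simp
    rw [h1, h2, Nat.cast_mul, Polynomial.C_mul]
    ring
  | monomial n c =>
    refine ⟨c.den, Polynomial.monomial n c.num, c.den_pos, ?_⟩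
    rw [Polynomial.map_monomial, Polynomial.C_mul_monomial]
    congr 1
    have h1 : (Int.castRingHom ℚ) c.num = (c.num : ℚ) := rfl
    rw [h1, mul_comm]
    exact (Rat.mul_den_eq_num c).symm

theorem clear_fin {ι : Type} [Fintype ι] (p : ι → Polynomial ℚ) :
    ∃ (d : ℕ) (Q : ι → Polynomial ℤ), 0 < d ∧ ∀ i, (Q i).map (Int.castRingHom ℚ) = Polynomial.C (d : ℚ) * p i := by
  classical
  choose d Q hd hQ using fun i => clear_one (p i)
  refine ⟨∏ i, d i, fun i => Polynomial.C ((∏ k ∈ Finset.univ.erase i, d k : ℕ) : ℤ) * Q i,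
    Finset.prod_pos fun i _ => hd i, fun i => ?_⟩
  rw [Polynomial.map_mul, hQ, Polynomial.map_C]
  have h1 : (Int.castRingHom ℚ) ((∏ k ∈ Finset.univ.erase i, d k : ℕ) : ℤ) = ((∏ k ∈ Finset.univ.erase i, d k : ℕ) : ℚ) := by
    simp
  rw [h1, ← mul_assoc, ← Polynomial.C_mul, ← Nat.cast_mul, mul_comm _ (d i), Finset.mul_prod_erase _ _ (Finset.mem_univ i)]

variable {n : ℕ} {a : Fin n → ℝ} {m : Fin (n + 1)} {f : Polynomial ℚ}

/-- monotonicity in the degree and in the size -/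
theorem gb_mono {q q' : ℕ} {B B' : ℝ} (hq : q ≤ q') (hB : B ≤ B') {T : MvPolynomial (Fin 1) ℤ}
    {A : Fin 1 → Fin n → Fin n → MvPolynomial (Fin 1) ℤ} {Z W : Matrix (Fin n) (Fin n) (MvPowerSeries (Fin 1) ℚ)}
    (h : GBaseU (N := 1) q B T (fun _ => A) (fun _ => Z) (fun _ => W)) :
    GBaseU (N := 1) q' B' T (fun _ => A) (fun _ => Z) (fun _ => W) := by
  have h0 : 0 ≤ B := zero_le_one.trans h.one_le
  refine ⟨h.one_le.trans hB, h.degT.trans hq, fun ν => (h.sizeT ν).trans hB, fun j i a b => (h.degA j i a b).trans hq,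
    fun j i a b ν => (h.sizeA j i a b ν).trans hB, h.ode, h.inv,
    fun j a b ν => (h.size j a b ν).trans (pow_le_pow_left₀ h0 hB _), fun k => ?_⟩
  obtain ⟨d, h1, h2, h3⟩ := h.den k
  exact ⟨d, h1, h2.trans (pow_le_pow_left₀ h0 hB _), h3⟩

/-- the denominators of finitely many G-functions -/
theorem den_fin {ι : Type} [Fintype ι] (F : ι → PowerSeries ℚ) (h : ∀ i, SDc (F i)) :
    ∃ B : ℝ, 1 ≤ B ∧ (∀ i k, |((PowerSeries.coeff k (F i) : ℚ) : ℝ)| ≤ B ^ (k + 1)) ∧
      ∀ k : ℕ, ∃ d : ℕ, 0 < d ∧ (d : ℝ) ≤ B ^ (k + 1) ∧ ∀ i, ∀ j ≤ k, ∃ z : ℤ, (d : ℚ) * PowerSeries.coeff j (F i) = z := by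
  classical
  choose e he using h
  have hB1 : ∀ i, (1 : ℝ) ≤ 2 ^ e i := fun i => one_le_pow₀ (by norm_num)
  refine ⟨∏ i, (2 : ℝ) ^ e i, ?_, fun i k => ?_, fun k => ?_⟩
  · calc (1 : ℝ) = ∏ i : ι, (1 : ℝ) := by rw [Finset.prod_const_one]
      _ ≤ _ := Finset.prod_le_prod (fun _ _ => zero_le_one) fun i _ => hB1 i
  · refine ((he i).1 k).trans (pow_le_pow_left₀ (by positivity) ?_ _)
    rw [← Finset.mul_prod_erase _ _ (Finset.mem_univ i)]
    refine le_mul_of_one_le_right (by positivity) ?_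
    calc (1 : ℝ) = ∏ k ∈ Finset.univ.erase i, (1 : ℝ) := by rw [Finset.prod_const_one]
      _ ≤ _ := Finset.prod_le_prod (fun _ _ => zero_le_one) fun i _ => hB1 i
  · choose d hd0 hd1 hd2 using fun i => (he i).2 k
    refine ⟨∏ i, d i, Finset.prod_pos fun i _ => hd0 i, ?_, fun i j hj => ?_⟩
    · push_cast
      rw [← Finset.prod_pow]
      exact Finset.prod_le_prod (fun _ _ => Nat.cast_nonneg _) fun i _ => hd1 i
    · obtain ⟨z, hz⟩ := hd2 i j hj
      refine ⟨(∏ k ∈ Finset.univ.erase i, d k : ℕ) * z, ?_⟩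
      rw [← Finset.mul_prod_erase _ _ (Finset.mem_univ i)]
      push_cast
      rw [← hz]
      ring

/-- **the family as a family in one variable** -/
theorem base_of (Δ : ZDat n a m f) : ∃ (q : ℕ) (B : ℝ) (T : MvPolynomial (Fin 1) ℤ)
    (A : Fin 1 → Fin n → Fin n → MvPolynomial (Fin 1) ℤ) (T₀ : Polynomial ℤ) (d : ℕ), 0 < d ∧
    T₀.map (Int.castRingHom ℚ) = Polynomial.C (d : ℚ) * f ∧ T = pv T₀ ∧
    GBaseU (N := 1) q B T (fun _ => A) (fun _ => (Δ.Z).map up) (fun _ => (Δ.W).map up) := by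
  classical
  obtain ⟨d, Q, hd, hQ⟩ := clear_fin (fun o : Option (Fin n × Fin n) => o.elim f fun x => Δ.A x.1 x.2)
  obtain ⟨B₁, hB₁, hs₁, hd₁⟩ := den_fin (fun x : (Fin n × Fin n) ⊕ (Fin n × Fin n) =>
    x.elim (fun x => Δ.Z x.1 x.2) fun x => Δ.W x.1 x.2) (by
      rintro (x | x)
      · exact Δ.sdZ _ _
      · exact Δ.sdW _ _)
  choose c hc using fun o : Option (Fin n × Fin n) => bdd_coeff (pv (Q o))
  set q : ℕ := ∑ o, (pv (Q o)).totalDegree with hq
  set B : ℝ := B₁ + ∑ o, (c o : ℝ) with hB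
  have hc0 : (0 : ℝ) ≤ ∑ o, (c o : ℝ) := Finset.sum_nonneg fun _ _ => Nat.cast_nonneg _
  have hBB : B₁ ≤ B := by linarith
  have hB0 : (0 : ℝ) ≤ B₁ := by linarith
  have hcB : ∀ o, (c o : ℝ) ≤ B := by
    intro o
    have h1 : (c o : ℝ) ≤ ∑ o, (c o : ℝ) := Finset.single_le_sum (f := fun o => (c o : ℝ)) (fun _ _ => Nat.cast_nonneg _)
      (Finset.mem_univ o)
    linarith
  have hqo : ∀ o, (pv (Q o)).totalDegree ≤ q := fun o =>
    Finset.single_le_sum (f := fun o => (pv (Q o)).totalDegree) (fun _ _ => Nat.zero_le _) (Finset.mem_univ o)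
  have hsum : ∀ ν : Fin 1 →₀ ℕ, ∑ i, ν i = ν 0 := fun ν => by simp
  refine ⟨q, B, pv (Q none), fun _ x y => pv (Q (some (x, y))), Q none, d, hd, hQ none, rfl, ?_, hqo none,
    fun ν => (hc none ν).trans (hcB none), fun _ i x y => hqo _, fun _ i x y ν => (hc _ ν).trans (hcB _), ?_, ?_, ?_, ?_⟩
  · linarith
  · intro _ i x y
    have hi : i = 0 := Subsingleton.elim _ _
    subst hi
    rw [toMv_pv, hQ none]
    have h1 := Δ.ode x y
    have h2 : ∀ p : Polynomial ℚ, ((Polynomial.C (d : ℚ) * p : Polynomial ℚ) : PowerSeries ℚ) =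
        PowerSeries.C (d : ℚ) * (p : PowerSeries ℚ) := fun p => by
      rw [Polynomial.coe_mul, Polynomial.coe_C]
    show up ((Polynomial.C (d : ℚ) * f : Polynomial ℚ) : PowerSeries ℚ) * pdv 0 (up (Δ.Z x y)) =
      ∑ l, up (Δ.Z x l) * toMv (pv (Q (some (l, y))))
    rw [← up_deriv, ← up_mul, h2, mul_assoc, h1, Finset.mul_sum]
    have h3 : ∀ l, up (Δ.Z x l) * toMv (pv (Q (some (l, y)))) =
        upH (PowerSeries.C (d : ℚ) * (Δ.Z x l * (Δ.A l y : PowerSeries ℚ))) := by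
      intro l
      rw [toMv_pv, hQ (some (l, y)), h2]
      show up (Δ.Z x l) * up (PowerSeries.C (d : ℚ) * (Δ.A l y : PowerSeries ℚ)) =
        up (PowerSeries.C (d : ℚ) * (Δ.Z x l * (Δ.A l y : PowerSeries ℚ)))
      rw [← up_mul]
      congr 1
      ring
    simp only [h3]
    rw [← map_sum]
    rfl
  · intro _
    have h1 : ((Δ.W).map up) * ((Δ.Z).map up) = (Δ.W * Δ.Z).map upH := by
      rw [Matrix.map_mul]
      rfl
    rw [h1, Δ.WZ]
    exact Matrix.map_one _ (map_zero _) (map_one _)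
  · intro _ x y ν
    rw [Matrix.map_apply, coeff_up, hsum]
    exact (hs₁ (Sum.inl (x, y)) (ν 0)).trans (pow_le_pow_left₀ hB0 hBB _)
  · intro k
    obtain ⟨e, he0, he1, he2⟩ := hd₁ k
    refine ⟨e, he0, he1.trans (pow_le_pow_left₀ hB0 hBB _), fun _ x y ν hν => ?_⟩
    rw [hsum] at hν
    exact ⟨he2 (Sum.inl (x, y)) (ν 0) hν, he2 (Sum.inr (x, y)) (ν 0) hν⟩

/-- the restriction to a line is a dilatation -/
theorem coeff_line_up (c : Fin 1 → ℤ) (F : PowerSeries ℚ) (k : ℕ) :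
    PowerSeries.coeff k (line c (up F)) = PowerSeries.coeff k F * (c 0 : ℚ) ^ k := by
  classical
  rw [Pool.Agent.H885.coeff_line]
  have h1 : exps 1 k = {Finsupp.single 0 k} := by
    ext ν
    rw [mem_exps, Finset.mem_singleton]
    constructor
    · intro h
      have h2 : ν 0 = k := by simpa using h
      rw [← h2, sg]
    · rintro rfl
      simp
  rw [h1, Finset.sum_singleton, coeff_up, Finsupp.single_eq_same]
  congr 1
  unfold pw
  simp

end Pool.Agent.H936.Y
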