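import Pool.Agent.H936.Y.Ser
import Pool.Graph.R_seed8.Y655.HG.Form

/-!
# Families of hyperelliptic curves: bounds which are uniform in the polynomial
-/

set_option autoImplicit false
set_option linter.unusedSectionVars false
set_option linter.unusedVariables false

open PowerSeries Finset

namespace Pool.Agent.H936.Y

open Pool.Agent.Y113
open Pool.Agent.Y655.HG (Had coeff_Had SDp_had Bs Bs_zero SDc_Bs Os SDc_Os pow_bound pow_int coeff_subst_P th th_mul coeff_th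
  h_sq Sg Ec rr ode SDc_pow SDc_const SDc_sum SDc_had)
open Pool.Agent.Y118.HG (cA)

variable {H : ℝ}

/-! ### Closure properties -/

theorem sd_up (hH : 2 ≤ H) {e e' : ℕ} (he : e ≤ e') {F : ℚ⟦X⟧} (h : SDp (H ^ e) F) : SDp (H ^ e') F :=
  h.mono (pow_le_pow_right₀ (by linarith) he)

theorem sd_add (hH : 2 ≤ H) {e e' : ℕ} {F G : ℚ⟦X⟧} (h : SDp (H ^ e) F) (h' : SDp (H ^ e') G) :
    SDp (H ^ (1 + e + e')) (F + G) := by
  refine (h.add h').mono ?_
  rw [pow_add, pow_add, pow_one]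
  have h1 : (0 : ℝ) ≤ H ^ e := by positivity
  have h2 : (0 : ℝ) ≤ H ^ e' := by positivity
  gcongr

theorem sd_mul (hH : 2 ≤ H) {e e' : ℕ} {F G : ℚ⟦X⟧} (h : SDp (H ^ e) F) (h' : SDp (H ^ e') G) :
    SDp (H ^ (1 + e + e')) (F * G) := by
  refine (h.mul h').mono ?_
  rw [pow_add, pow_add, pow_one]
  have h1 : (0 : ℝ) ≤ H ^ e := by positivity
  have h2 : (0 : ℝ) ≤ H ^ e' := by positivity
  gcongr

theorem sd_had {e e' : ℕ} {F G : ℚ⟦X⟧} (h : SDp (H ^ e) F) (h' : SDp (H ^ e') G) :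
    SDp (H ^ (e + e')) (Had F G) := by
  rw [pow_add]
  exact SDp_had h h'

theorem sd_two (hH : 2 ≤ H) {e : ℕ} {F : ℚ⟦X⟧} (h : SDp (2 ^ e) F) : SDp (H ^ e) F :=
  h.mono (pow_le_pow_left₀ (by norm_num) hH _)

theorem sd_const (hH : 2 ≤ H) {e : ℕ} {q : ℚ} (h1 : |(q : ℝ)| ≤ H ^ e) (h2 : (q.den : ℝ) ≤ H ^ e) : SDp (H ^ e) (C q) := by
  have h3 : ∀ m : ℕ, H ^ e ≤ (H ^ e) ^ (m + 1) := fun m =>
    le_self_pow₀ (one_le_pow₀ (by linarith)) (by omega)
  refine ⟨fun m => ?_, fun m => ⟨q.den, q.pos, h2.trans (h3 m), fun j _ => ?_⟩⟩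
  · rw [coeff_C]
    split_ifs
    · exact h1.trans (h3 m)
    · simp
      positivity
  · rw [coeff_C]
    split_ifs
    · exact ⟨q.num, by rw [mul_comm]; exact Rat.mul_den_eq_num q⟩
    · exact ⟨0, by simp⟩

theorem sd_zero (hH : 2 ≤ H) (e : ℕ) : SDp (H ^ e) (0 : ℚ⟦X⟧) := by
  have h0 : (1 : ℝ) ≤ H ^ e := one_le_pow₀ (by linarith)
  refine ⟨fun m => ?_, fun m => ⟨1, one_pos, ?_, fun j _ => ⟨0, by simp⟩⟩⟩
  · simp
    positivity
  · simpa using one_le_pow₀ h0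

theorem sd_sum (hH : 2 ≤ H) {e : ℕ} {ι : Type*} (s : Finset ι) (F : ι → ℚ⟦X⟧) (h : ∀ i ∈ s, SDp (H ^ e) (F i)) :
    SDp (H ^ (s.card * (1 + e))) (∑ i ∈ s, F i) := by
  classical
  induction s using Finset.induction_on with
  | empty => rw [sum_empty]; exact sd_zero hH _
  | insert a s ha ih =>
    rw [sum_insert ha, card_insert_of_notMem ha]
    have h1 := sd_add hH (h a (mem_insert_self _ _)) (ih fun i hi => h i (mem_insert_of_mem hi))
    exact sd_up hH (by ring_nf; omega) h1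

theorem sd_subst {P : ℚ⟦X⟧} (hP0 : constantCoeff P = 0) {K : ℝ} (hK : 1 ≤ K)
    (hP : ∀ m, |((coeff m P : ℚ) : ℝ)| ≤ K ^ m) {N : ℕ} (hN : 0 < N)
    (hPN : ∀ m, ∃ a : ℤ, (N : ℚ) ^ m * coeff m P = a) {F : ℚ⟦X⟧} {A : ℝ} (hn : SDp A F) :
    SDp (2 ^ 3 * A * K * N) (F.subst P) := by
  have hA := hn.one_le
  have hA0 : 0 < A := by linarith
  have hN1 : (1 : ℝ) ≤ N := by exact_mod_cast hN
  refine ⟨fun m => ?_, fun m => ?_⟩
  · rw [coeff_subst_P hP0]
    push_cast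
    refine (Finset.abs_sum_le_sum_abs _ _).trans ?_
    refine (Finset.sum_le_card_nsmul _ _ (A ^ (m + 1) * (2 ^ (m + m) * K ^ (m + 1))) fun d hd => ?_).trans ?_
    · rw [Finset.mem_range] at hd
      rw [abs_mul]
      refine mul_le_mul ((hn.1 d).trans (pow_le_pow_right₀ hA (by omega))) ((pow_bound hK hP d m).trans ?_)
        (abs_nonneg _) (by positivity)
      refine mul_le_mul (pow_le_pow_right₀ (by norm_num) (by omega)) (pow_le_pow_right₀ hK (by omega)) (by positivity)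
        (by positivity)
    · rw [nsmul_eq_mul, Finset.card_range]
      push_cast
      calc ((m : ℝ) + 1) * (A ^ (m + 1) * (2 ^ (m + m) * K ^ (m + 1)))
          ≤ 2 ^ (m + 1) * (A ^ (m + 1) * ((2 ^ 2) ^ (m + 1) * K ^ (m + 1))) := by
            refine mul_le_mul ?_ ?_ (by positivity) (by positivity)
            · exact (succ_le_two_pow m).trans (pow_le_pow_right₀ (by norm_num) (by omega))
            · refine mul_le_mul_of_nonneg_left ?_ (by positivity)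
              refine mul_le_mul_of_nonneg_right ?_ (by positivity)
              rw [← pow_mul]
              exact pow_le_pow_right₀ (by norm_num) (by omega)
        _ = (2 ^ 3 * A * K) ^ (m + 1) := by
            rw [← mul_pow, ← mul_pow, ← mul_pow]
            congr 1
            ring
        _ ≤ _ := by
            apply pow_le_pow_left₀ (by positivity)
            exact le_mul_of_one_le_right (by positivity) hN1
  · obtain ⟨d, hd0, hd, hd'⟩ := hn.2 m
    refine ⟨d * N ^ m, by positivity, ?_, fun j hj => ?_⟩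
    · push_cast
      calc (d : ℝ) * N ^ m ≤ A ^ (m + 1) * (N : ℝ) ^ (m + 1) :=
            mul_le_mul hd (pow_le_pow_right₀ hN1 (by omega)) (by positivity) (by positivity)
        _ = (A * N) ^ (m + 1) := by rw [mul_pow]
        _ ≤ _ := by
            apply pow_le_pow_left₀ (by positivity)
            refine mul_le_mul_of_nonneg_right ?_ (by positivity)
            nlinarith
    · choose! a ha using hd'
      choose b hb using fun e => pow_int hPN e j
      refine ⟨(N : ℤ) ^ (m - j) * ∑ e ∈ Finset.range (j + 1), a e * b e, ?_⟩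
      rw [coeff_subst_P hP0, Finset.mul_sum]
      push_cast
      rw [mul_sum]
      refine Finset.sum_congr rfl fun e he => ?_
      rw [Finset.mem_range] at he
      rw [← ha e (by omega), ← hb e]
      have e1 : (N : ℚ) ^ m = (N : ℚ) ^ (m - j) * (N : ℚ) ^ j := by
        rw [← pow_add]
        congr 1
        omega
      rw [e1]
      ring

/-! ### The polynomials -/

/-- integral polynomials of degree at most `n` and height at most `H`, not zero at `0` -/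
structure Cls (n : ℕ) (H : ℝ) (f : Polynomial ℤ) : Prop where
  deg : f.natDegree ≤ n
  ht : ∀ k, |((f.coeff k : ℤ) : ℝ)| ≤ H
  c0 : f.coeff 0 ≠ 0

/-- over the rational numbers -/
noncomputable def fq (f : Polynomial ℤ) : Polynomial ℚ := f.map (Int.castRingHom ℚ)

theorem fq_coeff (f : Polynomial ℤ) (k : ℕ) : (fq f).coeff k = (f.coeff k : ℚ) := by
  unfold fq
  rw [Polynomial.coeff_map]
  rfl

theorem fq_deg (f : Polynomial ℤ) : (fq f).natDegree ≤ f.natDegree := Polynomial.natDegree_map_le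

/-- the inverse of a nonzero integer -/
theorem inv_bd {z : ℤ} (hz : z ≠ 0) (hH : |(z : ℝ)| ≤ H) : |(((z : ℚ)⁻¹ : ℚ) : ℝ)| ≤ 1 ∧ ((((z : ℚ)⁻¹ : ℚ)).den : ℝ) ≤ H := by
  constructor
  · push_cast
    rw [abs_inv]
    have h1 : (1 : ℝ) ≤ |(z : ℝ)| := by
      have := Int.one_le_abs hz
      exact_mod_cast this
    exact inv_le_one_of_one_le₀ h1
  · have h1 : (((z : ℚ)⁻¹ : ℚ)).den = z.natAbs := by
      rw [Rat.inv_intCast_den, if_neg hz]
    rw [h1]
    have h2 : ((z.natAbs : ℕ) : ℝ) = |(z : ℝ)| := by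
      rw [← Int.cast_abs, Int.abs_eq_natAbs]
      rfl
    rw [h2]
    exact hH

theorem nat_inv {z : ℤ} (hz : z ≠ 0) (w : ℤ) (k : ℕ) :
    ∃ a : ℤ, (((z.natAbs : ℕ)) : ℚ) ^ (k + 1) * -((z : ℚ)⁻¹ * (w : ℚ)) = a := by
  obtain ⟨x, rfl | rfl⟩ := Int.eq_nat_or_neg z
  · have h0 : (x : ℚ) ≠ 0 := by
      intro h
      apply hz
      exact_mod_cast h
    refine ⟨-((x : ℤ) ^ k * w), ?_⟩
    rw [Int.natAbs_natCast, Int.cast_natCast, pow_succ]
    push_cast
    field_simp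
  · have h0 : (x : ℚ) ≠ 0 := by
      intro h
      apply hz
      have h1 : x = 0 := by exact_mod_cast h
      rw [h1]
      rfl
    refine ⟨(x : ℤ) ^ k * w, ?_⟩
    rw [Int.natAbs_neg, Int.natAbs_natCast, Int.cast_neg, Int.cast_natCast, pow_succ]
    push_cast
    field_simp

/-- the denominator of `k / 2 z` -/
theorem half_den (z : ℤ) : (((z : ℚ) / 2)).den ≤ 2 := by
  have h1 : ((z : ℚ) / 2) = (z : ℚ) / ((2 : ℤ) : ℚ) := by norm_num
  rw [h1]
  have h2 := Rat.den_dvd z 2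
  have h3 : (((z : ℚ) / ((2 : ℤ) : ℚ)).den : ℤ) ≤ 2 := Int.le_of_dvd (by norm_num) (by
    have h4 : ((z : ℚ) / ((2 : ℤ) : ℚ)) = Rat.divInt z 2 := by rw [Rat.divInt_eq_div]
    rw [h4]
    exact h2)
  exact_mod_cast h3

theorem uni_psi (n r : ℕ) : ∃ e : ℕ, ∀ H : ℝ, 2 ≤ H → ∀ f : Polynomial ℤ, Cls n H f → ∀ R : ℚ⟦X⟧, SDp (H ^ r) R →
    ∃ ψ : ℚ⟦X⟧, SDp (H ^ e) ψ ∧ ((fq f : Polynomial ℚ) : ℚ⟦X⟧) * th ψ +
      C (1 / 2 : ℚ) * (((fq f : Polynomial ℚ) : ℚ⟦X⟧) + th ((fq f : Polynomial ℚ) : ℚ⟦X⟧)) * ψ = R := by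
  obtain ⟨nB, hnB⟩ := SDc_Bs
  obtain ⟨nO, hnO⟩ := SDc_Os
  refine ⟨1 + (3 + nB + 1 + 1) + ((1 + 1 + (1 + r + (3 + nB + 1 + 1))) + nO), fun H hH f hf R hR => ?_⟩
  have hf0 : (fq f).coeff 0 ≠ 0 := by
    rw [fq_coeff]
    exact_mod_cast hf.c0
  have hH1 : (1 : ℝ) ≤ H := by linarith
  set F : ℚ⟦X⟧ := ((fq f : Polynomial ℚ) : ℚ⟦X⟧) with hF
  have hFc : ∀ m, coeff m F = (fq f).coeff m := fun m => by rw [hF, Polynomial.coeff_coe]
  set P : ℚ⟦X⟧ := 1 - C (((fq f).coeff 0)⁻¹) * F with hP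
  have hPc : ∀ m, coeff m P = (if m = 0 then 1 else 0) - ((fq f).coeff 0)⁻¹ * (fq f).coeff m := by
    intro m
    rw [hP, map_sub, coeff_one, coeff_C_mul, hFc]
  have hP0 : coeff 0 P = 0 := by
    rw [hPc, if_pos rfl, inv_mul_cancel₀ hf0, sub_self]
  have hP0' : constantCoeff P = 0 := by
    rw [← coeff_zero_eq_constantCoeff_apply]; exact hP0
  obtain ⟨hi1, hi2⟩ := inv_bd hf.c0 (hf.ht 0)
  have hPK : ∀ m, |((coeff m P : ℚ) : ℝ)| ≤ H ^ m := by
    intro m
    rcases Nat.eq_zero_or_pos m with rfl | hm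
    · rw [hP0]; simp
    · rw [hPc, if_neg (by omega), zero_sub, fq_coeff, fq_coeff]
      push_cast
      push_cast at hi1
      rw [abs_neg, abs_mul]
      calc |((f.coeff 0 : ℤ) : ℝ)⁻¹| * |((f.coeff m : ℤ) : ℝ)| ≤ 1 * H :=
            mul_le_mul hi1 (hf.ht m) (abs_nonneg _) zero_le_one
        _ = H := one_mul _
        _ ≤ H ^ m := le_self_pow₀ hH1 (by omega)
  have hN0 : 0 < (f.coeff 0).natAbs := Int.natAbs_pos.2 hf.c0
  have hNH : (((f.coeff 0).natAbs : ℕ) : ℝ) ≤ H := by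
    have h2 : (((f.coeff 0).natAbs : ℕ) : ℝ) = |((f.coeff 0 : ℤ) : ℝ)| := by
      rw [← Int.cast_abs, Int.abs_eq_natAbs]
      rfl
    rw [h2]
    exact hf.ht 0
  have hPN : ∀ m, ∃ a : ℤ, (((f.coeff 0).natAbs : ℕ) : ℚ) ^ m * coeff m P = a := by
    intro m
    rcases Nat.eq_zero_or_pos m with rfl | hm
    · exact ⟨0, by rw [hP0]; simp⟩
    · obtain ⟨k, rfl⟩ : ∃ k, m = k + 1 := ⟨m - 1, by omega⟩
      rw [hPc, if_neg (by omega), zero_sub, fq_coeff, fq_coeff]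
      exact nat_inv hf.c0 _ k
  set h : ℚ⟦X⟧ := Bs.subst P with hh
  have hhS : SDp (H ^ (3 + nB + 1 + 1)) h := by
    refine (sd_subst hP0' hH1 hPK hN0 hPN (sd_two hH hnB)).mono ?_
    rw [pow_add, pow_add, pow_add, pow_one]
    have h2 : (2 : ℝ) ^ 3 ≤ H ^ 3 := pow_le_pow_left₀ (by norm_num) hH _
    have h3 : (0 : ℝ) ≤ H ^ nB := by positivity
    gcongr
  have A4 : (C (((fq f).coeff 0)⁻¹) : ℚ⟦X⟧) * C ((fq f).coeff 0) = 1 := by
    rw [← map_mul, inv_mul_cancel₀ hf0, map_one]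
  have A3 : h * h * F = C ((fq f).coeff 0) := by
    have h1 := h_sq hP0'
    rw [← hh] at h1
    have h2 : (1 : ℚ⟦X⟧) - P = C (((fq f).coeff 0)⁻¹) * F := by rw [hP]; ring
    rw [h2] at h1
    calc h * h * F = C ((fq f).coeff 0) * (h ^ 2 * (C (((fq f).coeff 0)⁻¹) * F)) := by
          linear_combination (-(h ^ 2 * F)) * A4
      _ = _ := by rw [h1, mul_one]
  have hne : h ≠ 0 := by
    intro h0
    rw [h0, zero_mul, zero_mul] at A3
    have := congrArg (coeff 0) A3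
    rw [map_zero, coeff_zero_C] at this
    exact hf0 this.symm
  have A1 : 2 * F * th h + h * th F = 0 := by
    have h1 : th (h * h * F) = 0 := by
      rw [A3]
      unfold th
      rw [derivative_C, mul_zero]
    rw [th_mul, th_mul] at h1
    have h2 : h * (2 * F * th h + h * th F) = 0 := by linear_combination h1
    exact (mul_eq_zero.1 h2).resolve_left hne
  set v : ℚ⟦X⟧ := Had (C (2 * ((fq f).coeff 0)⁻¹) * (R * h)) Os with hv
  have hc2 : SDp (H ^ 1) (C (2 * ((fq f).coeff 0)⁻¹) : ℚ⟦X⟧) := by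
    refine sd_const hH ?_ ?_
    · rw [pow_one, fq_coeff, Rat.cast_mul, abs_mul]
      calc |((2 : ℚ) : ℝ)| * |((((f.coeff 0 : ℤ) : ℚ)⁻¹ : ℚ) : ℝ)| ≤ 2 * 1 :=
            mul_le_mul (by norm_num) hi1 (abs_nonneg _) (by norm_num)
        _ ≤ H := by linarith
    · rw [pow_one, fq_coeff]
      have h1 : (2 * (((f.coeff 0 : ℤ) : ℚ)⁻¹)).den ∣ (((f.coeff 0 : ℤ) : ℚ)⁻¹).den := by
        have h2 := Rat.mul_den_dvd 2 (((f.coeff 0 : ℤ) : ℚ)⁻¹)
        have h3 : (2 : ℚ).den = 1 := rfl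
        rwa [h3, one_mul] at h2
      have h2 := Nat.le_of_dvd (Rat.den_pos _) h1
      exact (Nat.cast_le.2 h2).trans hi2
  have hvS : SDp (H ^ ((1 + 1 + (1 + r + (3 + nB + 1 + 1))) + nO)) v :=
    sd_had (sd_mul hH hc2 (sd_mul hH hR hhS)) (sd_two hH hnO)
  have A2 : th v + C (1 / 2 : ℚ) * v = C (((fq f).coeff 0)⁻¹) * (R * h) := by
    ext s
    rw [map_add, coeff_th, coeff_C_mul, coeff_C_mul, hv, coeff_Had, coeff_C_mul]
    simp only [Os, coeff_mk]
    have : (2 * (s : ℚ) + 1) ≠ 0 := by positivity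
    field_simp
  have A5 : 2 * (C (1 / 2 : ℚ) : ℚ⟦X⟧) = 1 := by
    rw [← Pool.Agent.Y655.HG.C_two, ← map_mul]
    norm_num
  refine ⟨h * v, sd_mul hH hhS hvS, ?_⟩
  rw [th_mul]
  linear_combination C (1 / 2 : ℚ) * v * A1 + F * h * A2 + C (((fq f).coeff 0)⁻¹) * R * A3 + R * A4 -
    F * th h * v * A5

/-- **the fundamental solution, with uniform bounds** -/
theorem uni_form (n : ℕ) : ∃ e : ℕ, ∀ H : ℝ, 2 ≤ H → ∀ f : Polynomial ℤ, Cls n H f →
    ∃ Y : Fin n → Fin n → ℚ⟦X⟧, (∀ i j, constantCoeff (Y i j) = if i = j then 1 else 0) ∧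
      (∀ i j, ((fq f : Polynomial ℚ) : ℚ⟦X⟧) * derivative ℚ (Y i j) = ∑ k, Y i k * (cA n (fq f) j k : ℚ⟦X⟧)) ∧
      ∀ i j, SDp (H ^ e) (Y i j) := by
  choose eX heX using fun k : ℕ => SDc_pow k
  set x : ℕ := ∑ k ∈ range (n + 1), eX k with hx
  have hxk : ∀ k, k ≤ n → eX k ≤ x := fun k hk => single_le_sum (f := eX) (fun _ _ => Nat.zero_le _) (mem_range.2 (by omega))
  obtain ⟨e₁, he₁⟩ := uni_psi n (n * (1 + (1 + (n + 1) + x)))
  obtain ⟨nB, hnB⟩ := SDc_Bs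
  refine ⟨nB + (1 + x + (1 + x + e₁)), fun H hH f hf => ?_⟩
  have hH1 : (1 : ℝ) ≤ H := by linarith
  have hrr : ∀ i m : ℕ, i < n → m < n → SDp (H ^ (n + 1)) (C (rr i (fq f) m) : ℚ⟦X⟧) := by
    intro i m hi hm
    have h1 : rr i (fq f) m = ((f.coeff (m + 1 + i) * ((i : ℤ) - m) : ℤ) : ℚ) / 2 := by
      unfold rr
      rw [fq_coeff]
      push_cast
      ring
    rw [h1]
    refine sd_const hH ?_ ?_
    · push_cast
      rw [abs_div, abs_mul]
      have h2 : |((i : ℝ) - m)| ≤ n := by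
        rw [abs_le]
        have h3 : (i : ℝ) ≤ n := by exact_mod_cast hi.le
        have h4 : (m : ℝ) ≤ n := by exact_mod_cast hm.le
        have h5 : (0 : ℝ) ≤ i := Nat.cast_nonneg _
        have h6 : (0 : ℝ) ≤ m := Nat.cast_nonneg _
        constructor <;> linarith
      have h3 : (n : ℝ) ≤ H ^ n := by
        have h4 : (n : ℝ) ≤ 2 ^ n := by exact_mod_cast (Nat.lt_two_pow_self (n := n)).le
        exact h4.trans (pow_le_pow_left₀ (by norm_num) hH _)
      calc |((f.coeff (m + 1 + i) : ℤ) : ℝ)| * |((i : ℝ) - m)| / |(2 : ℝ)| ≤ H * H ^ n / 1 := by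
            refine div_le_div₀ (by positivity) (mul_le_mul (hf.ht _) (h2.trans h3) (abs_nonneg _) (by linarith)) one_pos
              (by norm_num)
        _ = H ^ (n + 1) := by rw [div_one, pow_succ]; ring
    · have h2 := half_den (f.coeff (m + 1 + i) * ((i : ℤ) - m))
      have h3 : ((((((f.coeff (m + 1 + i) * ((i : ℤ) - m) : ℤ) : ℚ) / 2)).den : ℕ) : ℝ) ≤ 2 := by exact_mod_cast h2
      exact h3.trans (hH.trans (le_self_pow₀ hH1 (by omega)))
  have hR : ∀ i : Fin n, SDp (H ^ (n * (1 + (1 + (n + 1) + x)))) (∑ m ∈ range n, C (rr i (fq f) m) * X ^ m : ℚ⟦X⟧) := by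
    intro i
    have h1 := sd_sum hH (e := 1 + (n + 1) + x) (range n) (fun m => C (rr i (fq f) m) * X ^ m) fun m hm =>
      sd_mul hH (hrr i m i.2 (mem_range.1 hm)) (sd_up hH (hxk m (mem_range.1 hm).le) (sd_two hH (heX m)))
    rwa [card_range] at h1
  choose ψ hψS hψ using fun i : Fin n => he₁ H hH f hf _ (hR i)
  have hdeg : (fq f).natDegree ≤ n := (fq_deg f).trans hf.deg
  refine ⟨fun i j => Ec (ψ i) i j, ?_, ?_, ?_⟩
  · intro i j
    rw [← coeff_zero_eq_constantCoeff_apply]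
    unfold Ec Sg
    rw [coeff_Had, Bs_zero, one_mul, map_add]
    have h1 : coeff 0 (X ^ ((j : ℕ) + 1) * ψ i : ℚ⟦X⟧) = 0 := by
      rw [coeff_X_pow_mul', if_neg (by omega)]
    rw [h1, add_zero]
    by_cases h : (i : ℕ) ≤ j
    · rw [if_pos h, coeff_X_pow]
      by_cases h2 : i = j
      · rw [if_pos (by rw [h2]; omega), if_pos h2]
      · rw [if_neg (fun h3 => h2 (Fin.ext (by omega))), if_neg h2]
    · rw [if_neg h, map_zero, if_neg (fun h2 => h (by rw [h2]))]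
  · intro i j
    exact ode (ψ i) i n (fq f) hdeg (hψ i) j
  · intro i j
    refine sd_had (sd_two hH hnB) (sd_add hH ?_ (sd_mul hH (sd_up hH (hxk _ (by omega)) (sd_two hH (heX _))) (hψS i)))
    split_ifs
    · exact sd_up hH (hxk _ (by omega)) (sd_two hH (heX _))
    · exact sd_zero hH _

end Pool.Agent.H936.Y
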