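import Pool.Agent.H936.Y.UniP
import Pool.Agent.H936.Y.Inf

/-!
# Families of hyperelliptic curves: the inverse matrix, the radius, uniform bounds
-/

set_option autoImplicit false
set_option linter.unusedSectionVars false
set_option linter.unusedVariables false

open Matrix Filter Topology

namespace Pool.Agent.H936.Y

open Pool.Agent.Y113 (SDp SDc)
open Pool.Agent.H885 (toMv pdv GBaseU line lineM exps mem_exps pw cent InfT DT vz part)
open Pool.Agent.Y118.HG (Ez Ez_apply SRm cA c0 Ez_mul Ez_poly per_val Qp_aeval E_ext)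
open Pool.Agent.Y118.HP (jm jm_map RM InGap RM_leg Qp jm_det)
open Pool.Agent.Y37.GF (E SR)

variable {n : ℕ} {H : ℝ}

/-! ### Determinants -/

theorem det_bd {A : Matrix (Fin n) (Fin n) ℤ} {B : ℝ} (hA : ∀ i j, |((A i j : ℤ) : ℝ)| ≤ B) :
    |((A.det : ℤ) : ℝ)| ≤ n.factorial * B ^ n := by
  have h1 : ((A.det : ℤ) : ℝ) = (A.map (Int.castRingHom ℝ)).det := by
    rw [← RingHom.mapMatrix_apply, ← RingHom.map_det]
    rfl
  rw [h1]
  have h2 := Matrix.det_le (A := A.map (Int.castRingHom ℝ)) (abv := AbsoluteValue.abs) (x := B) (fun i j => hA i j)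
  rw [Fintype.card_fin, nsmul_eq_mul] at h2
  exact h2

/-- the integral matrix of the polarisation -/
def Qz (n : ℕ) (f : Polynomial ℤ) : Matrix (Fin n) (Fin n) ℤ :=
  Matrix.of fun i j => (((i : ℕ) : ℤ) - ((j : ℕ) : ℤ)) * f.coeff ((i : ℕ) + (j : ℕ) + 1)

/-- the inverse -/
noncomputable def Qi (n : ℕ) (f : Polynomial ℤ) : Matrix (Fin n) (Fin n) ℚ :=
  Matrix.of fun i j => ((2 * (Qz n f).adjugate i j : ℤ) : ℚ) * (((Qz n f).det : ℤ) : ℚ)⁻¹

theorem Q0_eq (f : Polynomial ℤ) : (Qp n (fq f)).map (Polynomial.eval 0) = (1 / 2 : ℚ) • (Qz n f).map (Int.castRingHom ℚ) := by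
  ext i j
  rw [Matrix.map_apply, Matrix.smul_apply, Matrix.map_apply]
  unfold Qp Qz
  rw [Matrix.of_apply, Matrix.of_apply]
  simp only [Polynomial.eval_mul, Polynomial.eval_C, Polynomial.eval_sub, Polynomial.eval_X, fq_coeff, smul_eq_mul]
  have h1 : (Int.castRingHom ℚ) ((((i : ℕ) : ℤ) - ((j : ℕ) : ℤ)) * f.coeff ((i : ℕ) + (j : ℕ) + 1)) =
      (((i : ℕ) : ℚ) - ((j : ℕ) : ℚ)) * (f.coeff ((i : ℕ) + (j : ℕ) + 1) : ℚ) := by
    rw [map_mul, map_sub]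
    simp
  rw [h1]
  ring

theorem Q0_Qi {f : Polynomial ℤ} (hd : (Qz n f).det ≠ 0) : (Qp n (fq f)).map (Polynomial.eval 0) * Qi n f = 1 := by
  have h0 : (((Qz n f).det : ℤ) : ℚ) ≠ 0 := by exact_mod_cast hd
  have h1 : Qi n f = (2 * (((Qz n f).det : ℤ) : ℚ)⁻¹) • (Qz n f).adjugate.map (Int.castRingHom ℚ) := by
    ext i j
    unfold Qi
    rw [Matrix.of_apply, Matrix.smul_apply, Matrix.map_apply]
    have h2 : (Int.castRingHom ℚ) ((Qz n f).adjugate i j) = (((Qz n f).adjugate i j : ℤ) : ℚ) := rfl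
    rw [h2, smul_eq_mul]
    push_cast
    ring
  rw [Q0_eq, h1, Matrix.smul_mul, Matrix.mul_smul, smul_smul, ← Matrix.map_mul, Matrix.mul_adjugate]
  ext i j
  rw [Matrix.smul_apply, Matrix.map_apply, Matrix.smul_apply, Matrix.one_apply, Matrix.one_apply]
  split_ifs
  · rw [smul_eq_mul, smul_eq_mul, mul_one]
    have h2 : (Int.castRingHom ℚ) (Qz n f).det = (((Qz n f).det : ℤ) : ℚ) := rfl
    rw [h2]
    field_simp
  · rw [smul_zero, map_zero, smul_zero]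

theorem Qz_bd {f : Polynomial ℤ} (hf : Cls n H f) (i j : Fin n) : |((Qz n f i j : ℤ) : ℝ)| ≤ n * H := by
  unfold Qz
  rw [Matrix.of_apply]
  push_cast
  rw [abs_mul]
  have h2 : |(((i : ℕ) : ℝ) - ((j : ℕ) : ℝ))| ≤ n := by
    rw [abs_le]
    have h3 : ((i : ℕ) : ℝ) ≤ n := by exact_mod_cast i.2.le
    have h4 : ((j : ℕ) : ℝ) ≤ n := by exact_mod_cast j.2.le
    have h5 : (0 : ℝ) ≤ ((i : ℕ) : ℝ) := Nat.cast_nonneg _
    have h6 : (0 : ℝ) ≤ ((j : ℕ) : ℝ) := Nat.cast_nonneg _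
    constructor <;> linarith
  exact mul_le_mul h2 (hf.ht _) (abs_nonneg _) (Nat.cast_nonneg _)

/-- the exponent of the bound -/
def ex0 (n : ℕ) : ℕ := n.factorial * n ^ n + n

theorem fac_bd (hH : 2 ≤ H) : (n.factorial : ℝ) * (n * H) ^ n ≤ H ^ ex0 n := by
  have h1 : ((n.factorial * n ^ n : ℕ) : ℝ) ≤ H ^ (n.factorial * n ^ n) := by
    have h2 : ((n.factorial * n ^ n : ℕ) : ℝ) ≤ 2 ^ (n.factorial * n ^ n) := by
      exact_mod_cast (Nat.lt_two_pow_self (n := n.factorial * n ^ n)).le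
    exact h2.trans (pow_le_pow_left₀ (by norm_num) hH _)
  unfold ex0
  rw [pow_add, mul_pow, ← mul_assoc]
  refine mul_le_mul_of_nonneg_right ?_ (by positivity)
  exact_mod_cast h1

theorem Qi_bd (hH : 2 ≤ H) {f : Polynomial ℤ} (hf : Cls n H f) (hd : (Qz n f).det ≠ 0) (i j : Fin n) :
    |((Qi n f i j : ℚ) : ℝ)| ≤ H ^ (ex0 n + 1) ∧ (((Qi n f i j : ℚ)).den : ℝ) ≤ H ^ (ex0 n + 1) := by
  have hn : 1 ≤ n := by
    have := i.2
    omega
  have hn' : (1 : ℝ) ≤ n := by exact_mod_cast hn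
  have hH1 : (1 : ℝ) ≤ H := by linarith
  have hdet : |(((Qz n f).det : ℤ) : ℝ)| ≤ H ^ ex0 n := (det_bd (Qz_bd hf)).trans (fac_bd hH)
  obtain ⟨h1, h2⟩ := inv_bd hd hdet
  have h3 : |(((Qz n f).adjugate i j : ℤ) : ℝ)| ≤ H ^ ex0 n := by
    rw [Matrix.adjugate_apply]
    refine (det_bd (B := n * H) fun k l => ?_).trans (fac_bd hH)
    rw [Matrix.updateRow_apply]
    split_ifs
    · rw [Pi.single_apply]
      split_ifs
      · rw [Int.cast_one, abs_one]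
        nlinarith
      · rw [Int.cast_zero, abs_zero]
        positivity
    · exact Qz_bd hf k l
  unfold Qi
  rw [Matrix.of_apply]
  constructor
  · rw [Rat.cast_mul, abs_mul, Rat.cast_intCast, Int.cast_mul, abs_mul]
    have h5 : (((2 : ℤ) : ℝ)) = 2 := by norm_num
    rw [h5]
    rw [Rat.cast_inv, Rat.cast_intCast] at h1 ⊢
    calc |(2 : ℝ)| * |(((Qz n f).adjugate i j : ℤ) : ℝ)| * |(((Qz n f).det : ℤ) : ℝ)⁻¹| ≤ H * H ^ ex0 n * 1 := by
          refine mul_le_mul (mul_le_mul ?_ h3 (abs_nonneg _) (by positivity)) h1 (abs_nonneg _) (by positivity)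
          rw [abs_of_pos (by norm_num : (0 : ℝ) < 2)]
          exact hH
      _ = H ^ (ex0 n + 1) := by rw [mul_one, pow_succ, mul_comm]
  · have h4 := Rat.mul_den_dvd (((2 * (Qz n f).adjugate i j : ℤ) : ℚ)) ((((Qz n f).det : ℤ) : ℚ)⁻¹)
    rw [Rat.den_intCast, one_mul] at h4
    have h5 := Nat.le_of_dvd (Rat.den_pos _) h4
    refine (Nat.cast_le.2 h5).trans (h2.trans ?_)
    exact pow_le_pow_right₀ hH1 (by omega)

/-! ### The inverse matrix -/

/-- the inverse of the fundamental solution -/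
noncomputable def Wm (n : ℕ) (f : Polynomial ℤ) (Y : Matrix (Fin n) (Fin n) (PowerSeries ℚ)) :
    Matrix (Fin n) (Fin n) (PowerSeries ℚ) :=
  (Qp n (fq f)).map c0 * Yᵀ * (Qi n f).map (PowerSeries.C (R := ℚ))

theorem const_half (hH : 2 ≤ H) {f : Polynomial ℤ} (hf : Cls n H f) (i j : Fin n) (k : ℕ) (s : ℤ) (hs : |(s : ℝ)| ≤ 1) :
    SDp (H ^ (n + 1)) (PowerSeries.C (((s * ((((i : ℕ) : ℤ) - ((j : ℕ) : ℤ)) * f.coeff k) : ℤ) : ℚ) / 2)) := by
  have hH1 : (1 : ℝ) ≤ H := by linarith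
  refine sd_const hH ?_ ?_
  · push_cast
    rw [abs_div, abs_mul, abs_mul]
    have h2 : |(((i : ℕ) : ℝ) - ((j : ℕ) : ℝ))| ≤ n := by
      rw [abs_le]
      have h3 : ((i : ℕ) : ℝ) ≤ n := by exact_mod_cast i.2.le
      have h4 : ((j : ℕ) : ℝ) ≤ n := by exact_mod_cast j.2.le
      have h5 : (0 : ℝ) ≤ ((i : ℕ) : ℝ) := Nat.cast_nonneg _
      have h6 : (0 : ℝ) ≤ ((j : ℕ) : ℝ) := Nat.cast_nonneg _
      constructor <;> linarith
    have h3 : (n : ℝ) ≤ H ^ n := by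
      have h4 : (n : ℝ) ≤ 2 ^ n := by exact_mod_cast (Nat.lt_two_pow_self (n := n)).le
      exact h4.trans (pow_le_pow_left₀ (by norm_num) hH _)
    calc |(s : ℝ)| * (|(((i : ℕ) : ℝ) - ((j : ℕ) : ℝ))| * |((f.coeff k : ℤ) : ℝ)|) / |(2 : ℝ)| ≤ 1 * (H ^ n * H) / 1 := by
          refine div_le_div₀ (by positivity) (mul_le_mul hs (mul_le_mul (h2.trans h3) (hf.ht _) (abs_nonneg _)
            (by positivity)) (by positivity) zero_le_one) one_pos (by norm_num)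
      _ = H ^ (n + 1) := by rw [div_one, one_mul, pow_succ]
  · have h2 := half_den (s * ((((i : ℕ) : ℤ) - ((j : ℕ) : ℤ)) * f.coeff k))
    have h3 : ((((((s * ((((i : ℕ) : ℤ) - ((j : ℕ) : ℤ)) * f.coeff k) : ℤ) : ℚ) / 2)).den : ℕ) : ℝ) ≤ 2 := by
      exact_mod_cast h2
    exact h3.trans (hH.trans (le_self_pow₀ hH1 (by omega)))

theorem Qp_sd (n : ℕ) : ∃ e : ℕ, ∀ H : ℝ, 2 ≤ H → ∀ f : Polynomial ℤ, Cls n H f → ∀ i j : Fin n,
    SDp (H ^ e) (c0 (Qp n (fq f) i j)) := by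
  obtain ⟨x, hx⟩ := Pool.Agent.Y655.HG.SDc_pow 1
  rw [pow_one] at hx
  refine ⟨1 + (n + 1) + (1 + x + (n + 1)), fun H hH f hf i j => ?_⟩
  have h1 : c0 (Qp n (fq f) i j) =
      PowerSeries.C (((1 * ((((i : ℕ) : ℤ) - ((j : ℕ) : ℤ)) * f.coeff ((i : ℕ) + (j : ℕ) + 1)) : ℤ) : ℚ) / 2) +
      PowerSeries.X *
        PowerSeries.C ((((-1) * ((((i : ℕ) : ℤ) - ((j : ℕ) : ℤ)) * f.coeff ((i : ℕ) + (j : ℕ) + 2)) : ℤ) : ℚ) / 2) := by
    unfold Qp
    rw [Matrix.of_apply, Pool.Agent.Y118.HG.c0_apply]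
    simp only [Polynomial.coe_mul, Polynomial.coe_sub, Polynomial.coe_C, Polynomial.coe_X, fq_coeff]
    have h2 : ∀ u v : ℚ, PowerSeries.C u * PowerSeries.C v = PowerSeries.C (u * v) := fun u v => (map_mul _ u v).symm
    have h3 : (((1 * ((((i : ℕ) : ℤ) - ((j : ℕ) : ℤ)) * f.coeff ((i : ℕ) + (j : ℕ) + 1)) : ℤ) : ℚ) / 2) =
        ((((i : ℕ) : ℚ) - ((j : ℕ) : ℚ)) / 2) * ((f.coeff ((i : ℕ) + (j : ℕ) + 1) : ℤ) : ℚ) := by
      push_cast
      ring
    have h4 : ((((-1) * ((((i : ℕ) : ℤ) - ((j : ℕ) : ℤ)) * f.coeff ((i : ℕ) + (j : ℕ) + 2)) : ℤ) : ℚ) / 2) =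
        -(((((i : ℕ) : ℚ) - ((j : ℕ) : ℚ)) / 2) * ((f.coeff ((i : ℕ) + (j : ℕ) + 2) : ℤ) : ℚ)) := by
      push_cast
      ring
    rw [h3, h4, map_neg, ← h2, ← h2]
    ring
  rw [h1]
  exact sd_add hH (const_half hH hf i j _ 1 (by norm_num))
    (sd_mul hH (sd_two hH hx) (const_half hH hf i j _ (-1) (by norm_num)))

theorem Wm_sd (n e : ℕ) : ∃ e' : ℕ, ∀ H : ℝ, 2 ≤ H → ∀ f : Polynomial ℤ, Cls n H f → (Qz n f).det ≠ 0 →
    ∀ Y : Matrix (Fin n) (Fin n) (PowerSeries ℚ), (∀ i j, SDp (H ^ e) (Y i j)) → ∀ i j, SDp (H ^ e') (Wm n f Y i j) := by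
  obtain ⟨e₁, he₁⟩ := Qp_sd n
  refine ⟨n * (1 + (1 + (n * (1 + (1 + e₁ + e))) + (ex0 n + 1))), fun H hH f hf hd Y hY i j => ?_⟩
  have h1 : ∀ i j, SDp (H ^ (n * (1 + (1 + e₁ + e)))) (((Qp n (fq f)).map c0 * Yᵀ) i j) := by
    intro i j
    rw [Matrix.mul_apply]
    have h2 := sd_sum hH (e := 1 + e₁ + e) Finset.univ (fun k => (Qp n (fq f)).map c0 i k * Yᵀ k j) fun k _ =>
      sd_mul hH (he₁ H hH f hf i k) (hY j k)
    rwa [Finset.card_univ, Fintype.card_fin] at h2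
  unfold Wm
  rw [Matrix.mul_apply]
  have h2 := sd_sum hH (e := 1 + (n * (1 + (1 + e₁ + e))) + (ex0 n + 1)) Finset.univ
    (fun k => ((Qp n (fq f)).map c0 * Yᵀ) i k * (Qi n f).map (PowerSeries.C (R := ℚ)) k j) fun k _ =>
      sd_mul hH (h1 i k) (by
        obtain ⟨h3, h4⟩ := Qi_bd hH hf hd k j
        exact sd_const hH h3 h4)
  rwa [Finset.card_univ, Fintype.card_fin] at h2

variable {a : Fin n → ℝ} {m : Fin (n + 1)}

theorem RM_unit (hn : Even n) (ha : StrictMono a) (h0 : InGap a m 0) {F : Polynomial ℚ}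
    (hf : F.map (algebraMap ℚ ℝ) = ∏ i, (Polynomial.X - Polynomial.C (a i))) : IsUnit (RM a m 0).det := by
  rw [isUnit_iff_ne_zero]
  intro h
  have h1 := congrArg Matrix.det (RM_leg hn ha hf h0)
  rw [Matrix.det_mul, Matrix.det_mul, h, zero_mul, zero_mul, Matrix.det_smul] at h1
  exact mul_ne_zero (pow_ne_zero _ Real.pi_ne_zero) (jm_det hn) h1.symm

theorem Qz_det (hn : Even n) (ha : StrictMono a) (h0 : InGap a m 0) {f : Polynomial ℤ}
    (hf : (fq f).map (algebraMap ℚ ℝ) = ∏ i, (Polynomial.X - Polynomial.C (a i))) : (Qz n f).det ≠ 0 := by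
  intro h
  have h1 := congrArg Matrix.det (RM_leg hn ha hf h0)
  have h2 : ((Qp n (fq f)).map (Polynomial.aeval (0 : ℝ))) =
      ((Qp n (fq f)).map (Polynomial.eval 0)).map (algebraMap ℚ ℝ) := by
    ext i j
    rw [Matrix.map_apply, Matrix.map_apply, Matrix.map_apply]
    have := Polynomial.aeval_algebraMap_apply ℝ (0 : ℚ) (Qp n (fq f) i j)
    simpa [Polynomial.coe_aeval_eq_eval] using this
  have h3 : ((Qp n (fq f)).map (Polynomial.aeval (0 : ℝ))).det = 0 := by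
    rw [h2, ← RingHom.mapMatrix_apply, ← RingHom.map_det, Q0_eq, Matrix.det_smul, ← RingHom.mapMatrix_apply,
      ← RingHom.map_det, h]
    simp
  rw [Matrix.det_mul, Matrix.det_mul, h3, mul_zero, zero_mul, Matrix.det_smul] at h1
  exact mul_ne_zero (pow_ne_zero _ Real.pi_ne_zero) (jm_det hn) h1.symm

theorem sdc_of (hH : 2 ≤ H) {e : ℕ} {F : PowerSeries ℚ} (h : SDp (H ^ e) F) : SDc F := by
  obtain ⟨k, hk⟩ := pow_unbounded_of_one_lt (H ^ e) (show (1 : ℝ) < 2 by norm_num)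
  exact ⟨k, h.mono hk.le⟩

/-- **the inverse of the fundamental solution** -/
theorem WY (hn : Even n) (ha : StrictMono a) (h0 : InGap a m 0) {f : Polynomial ℤ}
    (hf : (fq f).map (algebraMap ℚ ℝ) = ∏ i, (Polynomial.X - Polynomial.C (a i)))
    {Y : Matrix (Fin n) (Fin n) (PowerSeries ℚ)} (hY : ∀ i j, SDc (Y i j))
    (hval : ∀ᶠ z in 𝓝 (0 : ℝ), RM a m z = RM a m 0 * Ez Y z) : Wm n f Y * Y = 1 := by
  classical
  obtain ⟨r, hr, hYr⟩ := Pool.Agent.Y118.HG.SDc_SR' (fun p : Fin n × Fin n => Y p.1 p.2) fun p => hY p.1 p.2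
  have hYr' : SRm r Y := fun i j => hYr (i, j)
  have hgap : ∀ᶠ z in 𝓝 (0 : ℝ), InGap a m z := (Pool.Agent.Y118.HG.isOpen_InGap a m).mem_nhds h0
  have hRM := RM_unit hn ha h0 hf
  have hRMt : IsUnit ((RM a m 0)ᵀ).det := by rwa [Matrix.det_transpose]
  have hQ : ∀ᶠ z in 𝓝 (0 : ℝ), Ez Y z * (Qp n (fq f)).map (Polynomial.aeval z) * (Ez Y z)ᵀ =
      (Qp n (fq f)).map (Polynomial.aeval (0 : ℝ)) := by
    filter_upwards [hval, hgap] with z hz hzg
    have h1 := RM_leg hn ha hf hzg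
    rw [← RM_leg hn ha hf h0, hz, Matrix.transpose_mul] at h1
    have h2 : (RM a m 0)⁻¹ * (RM a m 0 * Ez Y z * (Qp n (fq f)).map (Polynomial.aeval z) * ((Ez Y z)ᵀ * (RM a m 0)ᵀ)) *
        ((RM a m 0)ᵀ)⁻¹ = Ez Y z * (Qp n (fq f)).map (Polynomial.aeval z) * (Ez Y z)ᵀ := by
      simp only [← Matrix.mul_assoc]
      rw [Matrix.nonsing_inv_mul _ hRM, Matrix.one_mul, Matrix.mul_assoc _ ((RM a m 0)ᵀ), Matrix.mul_nonsing_inv _ hRMt,
        Matrix.mul_one]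
    have h3 : (RM a m 0)⁻¹ * (RM a m 0 * (Qp n (fq f)).map (Polynomial.aeval (0 : ℝ)) * (RM a m 0)ᵀ) *
        ((RM a m 0)ᵀ)⁻¹ = (Qp n (fq f)).map (Polynomial.aeval (0 : ℝ)) := by
      simp only [← Matrix.mul_assoc]
      rw [Matrix.nonsing_inv_mul _ hRM, Matrix.one_mul, Matrix.mul_assoc _ ((RM a m 0)ᵀ), Matrix.mul_nonsing_inv _ hRMt,
        Matrix.mul_one]
    rw [← h2, ← h3, h1]
  have hYQ : Y * (Qp n (fq f)).map c0 * Yᵀ = ((Qp n (fq f)).map (Polynomial.eval 0)).map (PowerSeries.C (R := ℚ)) := by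
    obtain ⟨ε, hε, hball⟩ := Metric.eventually_nhds_iff.1 hQ
    set ρ := min r (ε / 2) with hρ
    have hρ0 : 0 < ρ := lt_min hr (by positivity)
    have hYρ : SRm ρ Y := hYr'.mono hρ0.le (min_le_left _ _)
    have hYTρ : SRm ρ Yᵀ := fun i j => hYρ j i
    have hPρ : SRm ρ ((Qp n (fq f)).map c0) := SRm.poly _ _
    have hC : ((Qp n (fq f)).map (Polynomial.eval 0)).map (PowerSeries.C (R := ℚ)) =
        ((Qp n (fq f)).map fun p => Polynomial.C (p.eval 0)).map c0 := by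
      ext1 i j
      simp only [Matrix.map_apply, Pool.Agent.Y118.HG.c0_apply, Polynomial.coe_C]
    ext1 i j
    rw [hC]
    refine E_ext hρ0 (((hYρ.mul hρ0.le hPρ).mul hρ0.le hYTρ) i j) (SRm.poly _ _ i j) fun z hz => ?_
    have h1 : Ez (Y * (Qp n (fq f)).map c0 * Yᵀ) z =
        Ez (((Qp n (fq f)).map fun p => Polynomial.C (p.eval 0)).map c0) z := by
      rw [Ez_mul hρ0.le (hYρ.mul hρ0.le hPρ) hYTρ hz.le, Ez_mul hρ0.le hYρ hPρ hz.le, Ez_poly, Ez_poly]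
      have h2 : Ez Y z * (Qp n (fq f)).map (Polynomial.aeval z) * (Ez Y z)ᵀ =
          (Qp n (fq f)).map (Polynomial.aeval (0 : ℝ)) := by
        refine hball ?_
        rw [Real.dist_eq, sub_zero]
        have : ρ ≤ ε / 2 := min_le_right _ _
        linarith
      have h3 : ((Qp n (fq f)).map fun p => Polynomial.C (p.eval 0)).map (Polynomial.aeval z) =
          (Qp n (fq f)).map (Polynomial.aeval (0 : ℝ)) := by
        ext i j
        simp only [Matrix.map_apply, Polynomial.aeval_C]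
        have := Polynomial.aeval_algebraMap_apply ℝ (0 : ℚ) (Qp n (fq f) i j)
        simpa [Polynomial.coe_aeval_eq_eval] using this.symm
      rw [h3]
      exact h2
    exact congrFun (congrFun h1 i) j
  have hYW : Y * Wm n f Y = 1 := by
    unfold Wm
    rw [← Matrix.mul_assoc, ← Matrix.mul_assoc, hYQ]
    have h1 : ((Qp n (fq f)).map (Polynomial.eval 0)).map (PowerSeries.C (R := ℚ)) * (Qi n f).map (PowerSeries.C (R := ℚ)) =
        (((Qp n (fq f)).map (Polynomial.eval 0)) * Qi n f).map (PowerSeries.C (R := ℚ)) := by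
      rw [Matrix.map_mul]
    rw [h1, Q0_Qi (Qz_det hn ha h0 hf)]
    exact Matrix.map_one _ (map_zero _) (map_one _)
  exact mul_eq_one_comm.1 hYW

end Pool.Agent.H936.Y
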