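import Pool.Agent.H936.Y.Rad

/-!
# Families of hyperelliptic curves: the uniform system
-/

set_option autoImplicit false
set_option linter.unusedSectionVars false
set_option linter.unusedVariables false

open Matrix Filter Topology

namespace Pool.Agent.H936.Y

open Pool.Agent.Y113 (SDp SDc)
open Pool.Agent.H885 (toMv pdv GBaseU line lineM)
open Pool.Agent.Y118.HG (Ez Ez_apply SRm cA c0 per_val)
open Pool.Agent.Y118.HP (jm RM CM InGap per_analytic er)
open Pool.Agent.Y37.GF (E SR)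

variable {n : ℕ} {H : ℝ}

/-- the denominators of finitely many series -/
theorem den_all (hH : 2 ≤ H) {e : ℕ} {ι : Type} [Fintype ι] (F : ι → PowerSeries ℚ) (h : ∀ i, SDp (H ^ e) (F i)) :
    (∀ i k, |((PowerSeries.coeff k (F i) : ℚ) : ℝ)| ≤ (H ^ (e * (Fintype.card ι + 1))) ^ (k + 1)) ∧
      ∀ k : ℕ, ∃ d : ℕ, 0 < d ∧ (d : ℝ) ≤ (H ^ (e * (Fintype.card ι + 1))) ^ (k + 1) ∧
        ∀ i, ∀ j ≤ k, ∃ z : ℤ, (d : ℚ) * PowerSeries.coeff j (F i) = z := by
  classical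
  have hH1 : (1 : ℝ) ≤ H := by linarith
  have hE : H ^ e ≤ H ^ (e * (Fintype.card ι + 1)) := pow_le_pow_right₀ hH1 (Nat.le_mul_of_pos_right _ (Nat.succ_pos _))
  refine ⟨fun i k => ((h i).1 k).trans (pow_le_pow_left₀ (by positivity) hE _), fun k => ?_⟩
  choose d hd0 hd1 hd2 using fun i => (h i).2 k
  refine ⟨∏ i, d i, Finset.prod_pos fun i _ => hd0 i, ?_, fun i j hj => ?_⟩
  · push_cast
    calc (∏ i, (d i : ℝ)) ≤ ∏ i : ι, (H ^ e) ^ (k + 1) :=
          Finset.prod_le_prod (fun _ _ => Nat.cast_nonneg _) fun i _ => hd1 i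
      _ = (H ^ e) ^ ((k + 1) * Fintype.card ι) := by rw [Finset.prod_const, Finset.card_univ, ← pow_mul]
      _ = H ^ (e * ((k + 1) * Fintype.card ι)) := by rw [← pow_mul]
      _ ≤ H ^ (e * (Fintype.card ι + 1) * (k + 1)) := by
          refine pow_le_pow_right₀ hH1 ?_
          rw [mul_assoc]
          refine Nat.mul_le_mul_left _ ?_
          rw [mul_comm (k + 1)]
          exact Nat.mul_le_mul_right _ (Nat.le_succ _)
      _ = _ := by rw [← pow_mul]
  · obtain ⟨z, hz⟩ := hd2 i j hj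
    refine ⟨(∏ k ∈ Finset.univ.erase i, d k : ℕ) * z, ?_⟩
    rw [← Finset.mul_prod_erase _ _ (Finset.mem_univ i)]
    push_cast
    rw [← hz]
    ring

/-- **The family of curves, as a family in one variable, uniformly.** -/
theorem uni_base (hn : Even n) : ∃ e q E₀ : ℕ, ∀ H : ℝ, 2 ≤ H → ∀ f : Polynomial ℤ, Cls n H f →
    ∀ (a : Fin n → ℝ) (m : Fin (n + 1)), StrictMono a → InGap a m 0 →
      (fq f).map (algebraMap ℚ ℝ) = ∏ i, (Polynomial.X - Polynomial.C (a i)) →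
      ∃ Y W : Matrix (Fin n) (Fin n) (PowerSeries ℚ), (∀ i j, SDp (H ^ e) (Y i j)) ∧
        (∀ᶠ z in 𝓝 (0 : ℝ), RM a m z = RM a m 0 * Ez Y z) ∧
        GBaseU (N := 1) q (H ^ E₀) (pv (Polynomial.C 2 * f)) (fun _ _ x y => pv (cZ n f y x))
          (fun _ => Y.map up) (fun _ => W.map up) := by
  obtain ⟨e, he⟩ := uni_form n
  obtain ⟨e', he'⟩ := Wm_sd n e
  set e₁ := e + e' with he1
  set E₀ : ℕ := e₁ * (Fintype.card ((Fin n × Fin n) ⊕ (Fin n × Fin n)) + 1) + (2 * n + 2) with hE0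
  refine ⟨e, 3 * n, E₀, fun H hH f hf a m ha h0 hr => ?_⟩
  have hH0 : (0 : ℝ) < H := by linarith
  have hH1 : (1 : ℝ) ≤ H := by linarith
  obtain ⟨Y', hY0, hY1, hY2⟩ := he H hH f hf
  set Y : Matrix (Fin n) (Fin n) (PowerSeries ℚ) := Matrix.of Y' with hYdef
  have hc0 : (fq f).coeff 0 ≠ 0 := by
    rw [fq_coeff]
    exact_mod_cast hf.c0
  have hYc : ∀ i j, SDc (Y i j) := fun i j => sdc_of hH (hY2 i j)
  have hval : ∀ᶠ z in 𝓝 (0 : ℝ), RM a m z = RM a m 0 * Ez Y z := by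
    filter_upwards [per_val ha h0 hr hc0 hY0 hY1 hYc] with z hz
    ext l j
    rw [hz l j, Matrix.mul_apply]
    rfl
  have hWY := WY hn ha h0 hr hYc hval
  have hW := he' H hH f hf (Qz_det hn ha h0 hr) Y hY2
  refine ⟨Y, Wm n f Y, hY2, hval, ?_⟩
  obtain ⟨hs, hd⟩ := den_all (e := e₁) hH (fun x : (Fin n × Fin n) ⊕ (Fin n × Fin n) =>
    x.elim (fun x => Y x.1 x.2) fun x => Wm n f Y x.1 x.2) (by
      rintro (x | x)
      · exact sd_up hH (by omega) (hY2 _ _)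
      · exact sd_up hH (by omega) (hW _ _))
  have hEB : H ^ (e₁ * (Fintype.card ((Fin n × Fin n) ⊕ (Fin n × Fin n)) + 1)) ≤ H ^ E₀ :=
    pow_le_pow_right₀ hH1 (by omega)
  have hsum : ∀ ν : Fin 1 →₀ ℕ, ∑ i, ν i = ν 0 := fun ν => by simp
  have hmap : (Polynomial.C 2 * f).map (Int.castRingHom ℚ) = Polynomial.C 2 * fq f := by
    rw [Polynomial.map_mul, Polynomial.map_C]
    rfl
  refine ⟨one_le_pow₀ hH1, ?_, fun ν => ?_, fun _ i x y => ?_, fun _ i x y ν => ?_, ?_, ?_, ?_, ?_⟩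
  · refine pv_deg _ ?_
    refine Polynomial.natDegree_mul_le.trans ?_
    rw [Polynomial.natDegree_C, zero_add]
    exact hf.deg.trans (by omega)
  · rw [pv_coeff, Polynomial.coeff_C_mul]
    push_cast
    rw [abs_mul, abs_of_pos (by norm_num : (0 : ℝ) < 2)]
    calc 2 * |((f.coeff (ν 0) : ℤ) : ℝ)| ≤ H * H := mul_le_mul hH (hf.ht _) (abs_nonneg _) hH0.le
      _ = H ^ 2 := by rw [sq]
      _ ≤ H ^ E₀ := pow_le_pow_right₀ hH1 (by omega)
  · exact pv_deg _ (cZ_deg hf.deg _ _)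
  · rw [pv_coeff]
    exact (cZ_bd hH hf y x (ν 0)).trans (pow_le_pow_right₀ hH1 (by omega))
  · intro _ i x y
    have hi : i = 0 := Subsingleton.elim _ _
    subst hi
    rw [toMv_pv, hmap]
    have h1 := hY1 x y
    have h2 : ∀ p : Polynomial ℚ, ((Polynomial.C (2 : ℚ) * p : Polynomial ℚ) : PowerSeries ℚ) =
        PowerSeries.C (2 : ℚ) * (p : PowerSeries ℚ) := fun p => by
      rw [Polynomial.coe_mul, Polynomial.coe_C]
    show up ((Polynomial.C 2 * fq f : Polynomial ℚ) : PowerSeries ℚ) * pdv 0 (up (Y' x y)) =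
      ∑ l, up (Y' x l) * toMv (pv (cZ n f y l))
    rw [← up_deriv, ← up_mul, h2, mul_assoc, h1, Finset.mul_sum]
    have h3 : ∀ l, up (Y' x l) * toMv (pv (cZ n f y l)) =
        upH (PowerSeries.C (2 : ℚ) * (Y' x l * (cA n (fq f) y l : PowerSeries ℚ))) := by
      intro l
      rw [toMv_pv, cZ_map, h2]
      show up (Y' x l) * up (PowerSeries.C (2 : ℚ) * (cA n (fq f) y l : PowerSeries ℚ)) =
        up (PowerSeries.C (2 : ℚ) * (Y' x l * (cA n (fq f) y l : PowerSeries ℚ)))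
      rw [← up_mul]
      congr 1
      ring
    simp only [h3]
    rw [← map_sum]
    rfl
  · intro _
    have h1 : ((Wm n f Y).map up) * (Y.map up) = (Wm n f Y * Y).map upH := by
      rw [Matrix.map_mul]
      rfl
    rw [h1, hWY]
    exact Matrix.map_one _ (map_zero _) (map_one _)
  · intro _ x y ν
    rw [Matrix.map_apply, coeff_up, hsum]
    exact (hs (Sum.inl (x, y)) (ν 0)).trans (pow_le_pow_left₀ (by positivity) hEB _)
  · intro k
    obtain ⟨d, hd0, hd1, hd2⟩ := hd k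
    refine ⟨d, hd0, hd1.trans (pow_le_pow_left₀ (by positivity) hEB _), fun _ x y ν hν => ?_⟩
    rw [hsum] at hν
    exact ⟨hd2 (Sum.inl (x, y)) (ν 0) hν, hd2 (Sum.inr (x, y)) (ν 0) hν⟩

/-- the restriction of the discriminant to a line -/
theorem line_ne {f : Polynomial ℤ} (hf : f.coeff 0 ≠ 0) (c : Fin 1 → ℤ) : line c (toMv (pv (Polynomial.C 2 * f))) ≠ 0 := by
  intro h
  have h1 := congrArg (PowerSeries.coeff 0) h
  rw [toMv_pv, coeff_line_up, map_zero, pow_zero, mul_one, Polynomial.coeff_coe, Polynomial.coeff_map,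
    Polynomial.coeff_C_mul] at h1
  have h2 : (Int.castRingHom ℚ) (2 * f.coeff 0) = ((2 * f.coeff 0 : ℤ) : ℚ) := rfl
  rw [h2] at h1
  have h3 : (2 * f.coeff 0 : ℤ) = 0 := by exact_mod_cast h1
  omega

end Pool.Agent.H936.Y
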