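import Pool.Agent.H936.Y.Uni

/-!
# Families of hyperelliptic curves: the differential equation, uniform bounds
-/

set_option autoImplicit false
set_option linter.unusedSectionVars false
set_option linter.unusedVariables false

open Finset

namespace Pool.Agent.H936.Y

open Pool.Agent.Y118.HG (cA)

variable {n : ℕ} {H : ℝ}

/-! ### Polynomials -/

/-- a bound for the height -/
def pb (B : ℝ) (p : Polynomial ℤ) : Prop := ∀ k, |((p.coeff k : ℤ) : ℝ)| ≤ B

theorem pb.mono {B B' : ℝ} {p : Polynomial ℤ} (h : pb B p) (hB : B ≤ B') : pb B' p := fun k => (h k).trans hB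

theorem pb.add {B B' : ℝ} {p q : Polynomial ℤ} (h : pb B p) (h' : pb B' q) : pb (B + B') (p + q) := by
  intro k
  rw [Polynomial.coeff_add]
  push_cast
  exact (abs_add_le _ _).trans (add_le_add (h k) (h' k))

theorem pb.neg {B : ℝ} {p : Polynomial ℤ} (h : pb B p) : pb B (-p) := by
  intro k
  rw [Polynomial.coeff_neg]
  push_cast
  rw [abs_neg]
  exact h k

theorem pb.xmul {B : ℝ} {p : Polynomial ℤ} (h : pb B p) (hB : 0 ≤ B) (j : ℕ) : pb B (Polynomial.X ^ j * p) := by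
  intro k
  rw [Polynomial.coeff_X_pow_mul']
  split_ifs
  · exact h _
  · simpa using hB

theorem pb_C (c : ℤ) : pb |(c : ℝ)| (Polynomial.C c) := by
  intro k
  rw [Polynomial.coeff_C]
  split_ifs
  · exact le_rfl
  · simp

theorem pb.sum {B : ℝ} {ι : Type*} (s : Finset ι) (F : ι → Polynomial ℤ) (h : ∀ i ∈ s, pb B (F i)) :
    pb (s.card * B) (∑ i ∈ s, F i) := by
  intro k
  rw [Polynomial.finsetSum_coeff]
  push_cast
  refine (Finset.abs_sum_le_sum_abs _ _).trans ?_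
  refine (Finset.sum_le_card_nsmul _ _ B fun i hi => h i hi k).trans ?_
  rw [nsmul_eq_mul]

/-- the coefficients of the equation -/
noncomputable def cZ (n : ℕ) (f : Polynomial ℤ) (j k : Fin n) : Polynomial ℤ :=
  Polynomial.X ^ (j : ℕ) * (Polynomial.C ((((k : ℕ) : ℤ) + 1) * f.coeff ((k : ℕ) + 1)) +
    -∑ c ∈ Finset.Ioc (k : ℕ) n, Polynomial.X ^ (c - 1 - (k : ℕ)) * Polynomial.C (f.coeff c)) +
  (if (k : ℕ) < (j : ℕ) then Polynomial.X ^ ((j : ℕ) - 1 - (k : ℕ)) * f else 0)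

theorem cZ_map (f : Polynomial ℤ) (j k : Fin n) :
    (cZ n f j k).map (Int.castRingHom ℚ) = Polynomial.C 2 * cA n (fq f) j k := by
  have h2 : (Polynomial.C 2 : Polynomial ℚ) * Polynomial.C (1 / 2 : ℚ) = 1 := by
    rw [← Polynomial.C_mul]
    norm_num
  have hc : ∀ z : ℤ, (Int.castRingHom ℚ) z = (z : ℚ) := fun _ => rfl
  have h3 : (fq f) = f.map (Int.castRingHom ℚ) := rfl
  have h4 : ∀ s : Finset ℕ, (∑ c ∈ s, Polynomial.X ^ (c - 1 - (k : ℕ)) * Polynomial.C (f.coeff c) :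
      Polynomial ℤ).map (Int.castRingHom ℚ) =
      ∑ c ∈ s, Polynomial.C ((f.coeff c : ℤ) : ℚ) * Polynomial.X ^ (c - 1 - (k : ℕ)) := by
    intro s
    rw [Polynomial.map_sum]
    refine Finset.sum_congr rfl fun c _ => ?_
    rw [Polynomial.map_mul, Polynomial.map_pow, Polynomial.map_X, Polynomial.map_C, hc, mul_comm]
  unfold cZ cA
  rw [Polynomial.map_add, Polynomial.map_mul, Polynomial.map_pow, Polynomial.map_X, Polynomial.map_add,
    Polynomial.map_neg, h4, Polynomial.map_C, hc]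
  simp only [fq_coeff]
  split_ifs with h
  · rw [Polynomial.map_mul, Polynomial.map_pow, Polynomial.map_X, ← h3]
    push_cast
    linear_combination (-(Polynomial.X ^ (j : ℕ) * (Polynomial.C ((((k : ℕ) : ℚ) + 1) * ((f.coeff ((k : ℕ) + 1) : ℤ) : ℚ)) -
      ∑ c ∈ Finset.Ioc (k : ℕ) n, Polynomial.C ((f.coeff c : ℤ) : ℚ) * Polynomial.X ^ (c - 1 - (k : ℕ)))) -
      fq f * Polynomial.X ^ ((j : ℕ) - 1 - (k : ℕ))) * h2
  · rw [Polynomial.map_zero]
    push_cast
    linear_combination (-(Polynomial.X ^ (j : ℕ) * (Polynomial.C ((((k : ℕ) : ℚ) + 1) * ((f.coeff ((k : ℕ) + 1) : ℤ) : ℚ)) -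
      ∑ c ∈ Finset.Ioc (k : ℕ) n, Polynomial.C ((f.coeff c : ℤ) : ℚ) * Polynomial.X ^ (c - 1 - (k : ℕ))))) * h2

theorem cZ_bd {f : Polynomial ℤ} (hH : 2 ≤ H) (hf : Cls n H f) (j k : Fin n) : pb (H ^ (2 * n + 2)) (cZ n f j k) := by
  have hH0 : (0 : ℝ) ≤ H := by linarith
  have h1 : pb ((n : ℝ) * H) (Polynomial.C ((((k : ℕ) : ℤ) + 1) * f.coeff ((k : ℕ) + 1))) := by
    refine (pb_C _).mono ?_
    push_cast
    rw [abs_mul]
    have h2 : |(((k : ℕ) : ℝ) + 1)| ≤ n := by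
      rw [abs_of_nonneg (by positivity)]
      have := k.2
      exact_mod_cast this
    exact mul_le_mul h2 (hf.ht _) (abs_nonneg _) (Nat.cast_nonneg _)
  have h2 : pb ((n : ℝ) * H) (-∑ c ∈ Finset.Ioc (k : ℕ) n, Polynomial.X ^ (c - 1 - (k : ℕ)) * Polynomial.C (f.coeff c)) := by
    refine pb.neg ((pb.sum (B := H) _ _ fun c _ => ?_).mono ?_)
    · exact pb.xmul ((pb_C _).mono (hf.ht c)) hH0 _
    · rw [Nat.card_Ioc]
      have h3 : (((n - (k : ℕ) : ℕ)) : ℝ) ≤ n := by exact_mod_cast Nat.sub_le _ _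
      exact mul_le_mul_of_nonneg_right h3 hH0
  have h3 : pb H (if (k : ℕ) < (j : ℕ) then Polynomial.X ^ ((j : ℕ) - 1 - (k : ℕ)) * f else 0) := by
    split_ifs
    · exact pb.xmul hf.ht hH0 _
    · intro m
      simpa using hH0
  have h4 := (pb.xmul (h1.add h2) (by positivity) (j : ℕ)).add h3
  refine h4.mono ?_
  have h5 : ((2 * n + 1 : ℕ) : ℝ) ≤ H ^ (2 * n + 1) := by
    have h6 : ((2 * n + 1 : ℕ) : ℝ) ≤ 2 ^ (2 * n + 1) := by exact_mod_cast (Nat.lt_two_pow_self (n := 2 * n + 1)).le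
    exact h6.trans (pow_le_pow_left₀ (by norm_num) hH _)
  calc (n : ℝ) * H + (n : ℝ) * H + H = ((2 * n + 1 : ℕ) : ℝ) * H := by push_cast; ring
    _ ≤ H ^ (2 * n + 1) * H := mul_le_mul_of_nonneg_right h5 hH0
    _ = H ^ (2 * n + 2) := by rw [← pow_succ]

theorem cZ_deg {f : Polynomial ℤ} (hf : f.natDegree ≤ n) (j k : Fin n) : (cZ n f j k).natDegree ≤ 3 * n := by
  have hj := j.2
  have hk := k.2
  unfold cZ
  refine (Polynomial.natDegree_add_le _ _).trans (max_le ?_ ?_)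
  · refine Polynomial.natDegree_mul_le.trans ?_
    have h1 : (Polynomial.X ^ (j : ℕ) : Polynomial ℤ).natDegree ≤ n := (Polynomial.natDegree_X_pow_le _).trans hj.le
    have h2 : (Polynomial.C ((((k : ℕ) : ℤ) + 1) * f.coeff ((k : ℕ) + 1)) +
        -∑ c ∈ Finset.Ioc (k : ℕ) n, Polynomial.X ^ (c - 1 - (k : ℕ)) * Polynomial.C (f.coeff c) : Polynomial ℤ).natDegree ≤
        n := by
      refine (Polynomial.natDegree_add_le _ _).trans (max_le ?_ ?_)
      · rw [Polynomial.natDegree_C]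
        exact Nat.zero_le _
      · rw [Polynomial.natDegree_neg]
        refine Polynomial.natDegree_sum_le_of_forall_le _ _ fun c hc => ?_
        rw [mem_Ioc] at hc
        refine Polynomial.natDegree_mul_le.trans ?_
        rw [Polynomial.natDegree_C, add_zero]
        exact (Polynomial.natDegree_X_pow_le _).trans (by omega)
    omega
  · split_ifs
    · refine Polynomial.natDegree_mul_le.trans ?_
      have h1 : (Polynomial.X ^ ((j : ℕ) - 1 - (k : ℕ)) : Polynomial ℤ).natDegree ≤ n :=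
        (Polynomial.natDegree_X_pow_le _).trans (by omega)
      omega
    · rw [Polynomial.natDegree_zero]
      exact Nat.zero_le _

/-! ### Polynomials in the variable with number `0` -/

theorem pv_coeff (p : Polynomial ℤ) (ν : Fin 1 →₀ ℕ) : (pv p).coeff ν = p.coeff (ν 0) := by
  have h1 := congrArg (MvPowerSeries.coeff ν) (toMv_pv p)
  rw [coeff_up, Polynomial.coeff_coe, Polynomial.coeff_map] at h1
  have h2 : MvPowerSeries.coeff ν (Pool.Agent.H885.toMv (pv p)) = (((pv p).coeff ν : ℤ) : ℚ) := by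
    unfold Pool.Agent.H885.toMv
    rw [MvPolynomial.coeff_coe, MvPolynomial.coeff_map]
    rfl
  rw [h2] at h1
  have h3 : (((pv p).coeff ν : ℤ) : ℚ) = ((p.coeff (ν 0) : ℤ) : ℚ) := h1
  exact_mod_cast h3

theorem pv_deg (p : Polynomial ℤ) {d : ℕ} (hd : p.natDegree ≤ d) : (pv p).totalDegree ≤ d := by
  refine Finset.sup_le fun ν hν => ?_
  rw [MvPolynomial.mem_support_iff, pv_coeff] at hν
  have h1 : (ν.sum fun _ e => e) = ν 0 := by
    rw [Finsupp.sum_fintype _ _ fun _ => rfl]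
    simp
  rw [h1]
  exact (Polynomial.le_natDegree_of_ne_zero hν).trans hd

end Pool.Agent.H936.Y
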